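import Mathlib

/-! Vanishing of irreducible characters and kernels of class sums. -/

namespace Pool.Agent.P.MP_eccc2e_al

open Module

/-- `x` is nonvanishing: no irreducible complex character of `G` is zero at `x`. -/
def Nonvanishing {G : Type} [Group G] (x : G) : Prop :=
  ∀ (V : Type) [AddCommGroup V] [Module ℂ V] [FiniteDimensional ℂ V] (ρ : Representation ℂ G V),
    ρ.IsIrreducible → ρ.character x ≠ 0

section
variable {G : Type} [Group G] {ι : Type} [Fintype ι] (y : ι → G) (x : G)

theorem sum_comm_of_inv {W : Type} [AddCommGroup W] [Module ℂ W] (ρ : Representation ℂ G W)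
    (hinv : ∀ g, ∃ e : ι ≃ ι, ∀ i, g * y i * g⁻¹ = y (e i)) (g : G) :
    ρ g * (∑ i, ρ (y i)) = (∑ i, ρ (y i)) * ρ g := by
  obtain ⟨e, he⟩ := hinv g
  rw [Finset.mul_sum, Finset.sum_mul, ← Equiv.sum_comp e (fun i => ρ (y i) * ρ g)]
  refine Finset.sum_congr rfl fun i _ => ?_
  rw [← he, ← map_mul, ← map_mul]; simp

theorem trace_sum {V : Type} [AddCommGroup V] [Module ℂ V] [FiniteDimensional ℂ V]
    (ρ : Representation ℂ G V) (hconj : ∀ i, IsConj x (y i)) :
    LinearMap.trace ℂ V (∑ i, ρ (y i)) = (Fintype.card ι : ℂ) * ρ.character x := by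
  rw [map_sum]
  have : ∀ i, LinearMap.trace ℂ V (ρ (y i)) = ρ.character x := fun i => by
    obtain ⟨c, hc⟩ := isConj_iff.mp (hconj i)
    rw [← hc]; exact ρ.char_conj x c
  simp [this]

theorem sum_eq_zero_of_char {V : Type} [AddCommGroup V] [Module ℂ V] [FiniteDimensional ℂ V]
    (ρ : Representation ℂ G V) (hirr : ρ.IsIrreducible) (hconj : ∀ i, IsConj x (y i))
    (hinv : ∀ g, ∃ e : ι ≃ ι, ∀ i, g * y i * g⁻¹ = y (e i)) (h0 : ρ.character x = 0) :
    Nontrivial V ∧ ∑ i, ρ (y i) = 0 := by
  have hV : Nontrivial V := by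
    by_contra h
    rw [not_nontrivial_iff_subsingleton] at h
    have : (⊥ : Subrepresentation ρ) = ⊤ := by
      apply Subrepresentation.toSubmodule_injective
      exact Subsingleton.elim _ _
    exact bot_ne_top this
  refine ⟨hV, ?_⟩
  set K : End ℂ V := ∑ i, ρ (y i) with hK
  obtain ⟨c, hc⟩ := End.exists_eigenvalue K
  let U : Subrepresentation ρ := ⟨K.eigenspace c, fun g v hv => by
    rw [End.mem_eigenspace_iff] at hv ⊢
    have := congrArg (fun f : End ℂ V => f v) (sum_comm_of_inv y ρ hinv g)
    simp only [End.mul_apply] at this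
    rw [← hK] at this
    rw [← this, hv, map_smul]⟩
  have hU : U = ⊤ := by
    rcases eq_bot_or_eq_top U with h | h
    · exact absurd (congrArg Subrepresentation.toSubmodule h) hc
    · exact h
  have hKc : K = c • (1 : End ℂ V) := by
    ext v
    have : v ∈ U.toSubmodule := by rw [hU]; trivial
    simpa using End.mem_eigenspace_iff.mp this
  have ht := trace_sum y x ρ hconj
  rw [← hK, h0, hKc, map_smul, LinearMap.trace_one, mul_zero, smul_eq_mul] at ht
  have hd : (finrank ℂ V : ℂ) ≠ 0 := by exact_mod_cast finrank_pos.ne'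
  rw [hKc, (mul_eq_zero.mp ht).resolve_right hd, zero_smul]

theorem not_nonvanishing [Finite G] [Nonempty ι] {W : Type} [AddCommGroup W] [Module ℂ W]
    (ρ : Representation ℂ G W) (hconj : ∀ i, IsConj x (y i))
    (hinv : ∀ g, ∃ e : ι ≃ ι, ∀ i, g * y i * g⁻¹ = y (e i)) (v : W) (hv : v ≠ 0)
    (h0 : (∑ i, ρ (y i)) v = 0) : ¬ Nonvanishing x := by
  classical
  set K : End ℂ W := ∑ i, ρ (y i) with hK
  let P : ℕ → Prop := fun d => ∃ U : Subrepresentation ρ, U.toSubmodule ≠ ⊥ ∧
    FiniteDimensional ℂ U.toSubmodule ∧ U.toSubmodule ≤ LinearMap.ker K ∧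
    finrank ℂ U.toSubmodule = d
  have hex : ∃ d, P d := by
    refine ⟨_, ⟨Submodule.span ℂ (Set.range fun g => ρ g v), fun g w hw => ?_⟩, ?_, ?_, ?_, rfl⟩
    · have : (Submodule.span ℂ (Set.range fun g => ρ g v)).map (ρ g) ≤
          Submodule.span ℂ (Set.range fun g => ρ g v) := by
        rw [Submodule.map_span, Submodule.span_le]
        rintro _ ⟨_, ⟨h, rfl⟩, rfl⟩
        exact Submodule.subset_span ⟨g * h, by simp⟩
      exact this ⟨w, hw, rfl⟩
    · intro h
      have : v ∈ Submodule.span ℂ (Set.range fun g => ρ g v) :=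
        Submodule.subset_span ⟨1, by simp⟩
      simp only at h
      rw [h] at this
      exact hv this
    · exact FiniteDimensional.span_of_finite ℂ (Set.finite_range _)
    · simp only
      rw [Submodule.span_le]
      rintro _ ⟨g, rfl⟩
      have := congrArg (fun f : End ℂ W => f v) (sum_comm_of_inv y ρ hinv g)
      simp only [End.mul_apply] at this
      rw [← hK, h0, map_zero] at this
      exact this.symm
  obtain ⟨U, hU0, hUf, hUK, hUd⟩ := Nat.find_spec hex
  have hirr : U.toRepresentation.IsIrreducible := by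
    have hnt : Nontrivial U.toSubmodule := Submodule.nontrivial_iff_ne_bot.mpr hU0
    refine { exists_pair_ne := ⟨⊥, ⊤, fun h => ?_⟩, eq_bot_or_eq_top := fun T => ?_ }
    · exact bot_ne_top (congrArg Subrepresentation.toSubmodule h)
    · by_cases hT : T.toSubmodule = ⊥
      · left; exact Subrepresentation.toSubmodule_injective hT
      · right
        apply Subrepresentation.toSubmodule_injective
        change T.toSubmodule = ⊤
        let T' : Subrepresentation ρ := ⟨T.toSubmodule.map U.toSubmodule.subtype, by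
          rintro g _ ⟨w, hw, rfl⟩
          exact ⟨U.toRepresentation g w, T.apply_mem_toSubmodule g hw, rfl⟩⟩
        have hfr : finrank ℂ T'.toSubmodule = finrank ℂ T.toSubmodule :=
          Submodule.finrank_map_subtype_eq _ _
        have hP : P (finrank ℂ T.toSubmodule) := by
          refine ⟨T', fun h => hT ?_, ?_, ?_, hfr⟩
          · rw [eq_bot_iff]
            intro w hw
            have : (w : W) ∈ T'.toSubmodule := ⟨w, hw, rfl⟩
            rw [h] at this
            exact Subtype.ext this
          · exact Module.Finite.map _ _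
          · exact (Submodule.map_subtype_le _ _).trans hUK
        have h1 := Nat.find_min' hex hP
        rw [← hUd] at h1
        exact Submodule.eq_top_of_finrank_eq (le_antisymm (Submodule.finrank_le _) h1)
  intro hN
  apply hN _ U.toRepresentation hirr
  have ht := trace_sum y x U.toRepresentation hconj
  have hz : (∑ i, U.toRepresentation (y i)) = 0 := by
    ext w
    have := hUK w.2
    rw [LinearMap.mem_ker, hK, LinearMap.sum_apply] at this
    simpa [LinearMap.sum_apply, Subrepresentation.toRepresentation] using this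
  rw [hz, map_zero] at ht
  have hc : (Fintype.card ι : ℂ) ≠ 0 := by exact_mod_cast Fintype.card_ne_zero
  exact (mul_eq_zero.mp ht.symm).resolve_left hc

end

end Pool.Agent.P.MP_eccc2e_al
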