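import Pool.Agent.P.MP_eccc2e_al.JM

/-! Class sums of 3-cycles and of double transpositions in terms of Jucys-Murphy elements. -/

namespace Pool.Agent.P.MP_eccc2e_al

open Equiv Finset Module

/-- ordered triples of distinct points -/
abbrev I3 (n : ℕ) := {t : Fin n × Fin n × Fin n // t.1 ≠ t.2.1 ∧ t.1 ≠ t.2.2 ∧ t.2.1 ≠ t.2.2}

/-- ordered quadruples of distinct points -/
abbrev I4 (n : ℕ) := {t : (Fin n × Fin n) × Fin n × Fin n // t.1.1 ≠ t.1.2 ∧ t.2.1 ≠ t.2.2 ∧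
  t.2.1 ≠ t.1.1 ∧ t.2.1 ≠ t.1.2 ∧ t.2.2 ≠ t.1.1 ∧ t.2.2 ≠ t.1.2}

/-- a 3-cycle -/
def y3 {n : ℕ} (t : I3 n) : Perm (Fin n) := swap t.1.1 t.1.2.2 * swap t.1.2.1 t.1.2.2

/-- a double transposition -/
def y4 {n : ℕ} (t : I4 n) : Perm (Fin n) := swap t.1.1.1 t.1.1.2 * swap t.1.2.1 t.1.2.2

section
variable {n : ℕ} {V : Type} [AddCommGroup V] [Module ℂ V]
  (ρ : Representation ℂ (Perm (Fin n)) V)

theorem sum3 : ∑ t : I3 n, ρ (y3 t) = ∑ a, ∑ b, ∑ c,
    if a ≠ b ∧ a ≠ c ∧ b ≠ c then ρ (swap a c) * ρ (swap b c) else 0 := by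
  unfold y3
  rw [← sum_subtype (univ.filter fun t : Fin n × Fin n × Fin n =>
    t.1 ≠ t.2.1 ∧ t.1 ≠ t.2.2 ∧ t.2.1 ≠ t.2.2) (by simp)
    (fun t => ρ (swap t.1 t.2.2 * swap t.2.1 t.2.2)), sum_filter]
  simp only [Fintype.sum_prod_type, map_mul]

theorem sum4 : ∑ t : I4 n, ρ (y4 t) = ∑ a, ∑ b, ∑ c, ∑ d,
    if a ≠ b ∧ c ≠ d ∧ c ≠ a ∧ c ≠ b ∧ d ≠ a ∧ d ≠ b then ρ (swap a b) * ρ (swap c d) else 0 := by
  unfold y4
  rw [← sum_subtype (univ.filter fun t : (Fin n × Fin n) × Fin n × Fin n =>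
    t.1.1 ≠ t.1.2 ∧ t.2.1 ≠ t.2.2 ∧
      t.2.1 ≠ t.1.1 ∧ t.2.1 ≠ t.1.2 ∧ t.2.2 ≠ t.1.1 ∧ t.2.2 ≠ t.1.2) (by simp)
    (fun t => ρ (swap t.1.1 t.1.2 * swap t.2.1 t.2.2)), sum_filter]
  simp only [Fintype.sum_prod_type, map_mul]

theorem X_eq (k : Fin n) : X ρ k = ∑ j, if j < k then ρ (swap j k) else 0 := by
  rw [X, ← sum_filter]; congr 1; ext; simp

theorem cyc_rot (a b c : Fin n) (h1 : a ≠ b) (_h2 : a ≠ c) (h3 : b ≠ c) :
    ρ (swap a c) * ρ (swap b c) = ρ (swap b a) * ρ (swap c a) := by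
  rw [conj_swap, swap_apply_right, swap_apply_of_ne_of_ne h1.symm h3, swap_comm c a]

theorem sum_lt_one : ∑ k : Fin n, ∑ a : Fin n, (if a < k then (1 : End ℂ V) else 0) =
    ((n : ℂ) * (n - 1) / 2) • (1 : End ℂ V) := by
  have h1 : ∀ k : Fin n, ∑ a : Fin n, (if a < k then (1 : End ℂ V) else 0) =
      ((k : ℕ) : ℂ) • (1 : End ℂ V) := by
    intro k
    rw [← sum_filter, sum_const, show univ.filter (fun a => a < k) = Iio k by ext; simp,
      Fin.card_Iio, Nat.cast_smul_eq_nsmul]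
  simp only [h1]
  rw [← sum_smul, Fin.sum_univ_eq_sum_range (fun k => (k : ℂ)) n]
  congr 1
  induction n with
  | zero => simp
  | succ m ih =>
    have : ∀ m : ℕ, ∑ k ∈ range m, (k : ℂ) = (m : ℂ) * (m - 1) / 2 := by
      intro m
      induction m with
      | zero => simp
      | succ m ih => rw [sum_range_succ, ih]; push_cast; ring
    exact this _

theorem K3_eq : ∑ t : I3 n, ρ (y3 t) =
    (3 : ℂ) • (∑ k, X ρ k * X ρ k - ((n : ℂ) * (n - 1) / 2) • (1 : End ℂ V)) := by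
  let g : Fin n → Fin n → Fin n → End ℂ V := fun a b c =>
    if a < c ∧ b < c ∧ a ≠ b then ρ (swap a c) * ρ (swap b c) else 0
  have h1 : ∀ a b c, (if a ≠ b ∧ a ≠ c ∧ b ≠ c then ρ (swap a c) * ρ (swap b c) else 0) =
      g a b c + g b c a + g c a b := by
    intro a b c
    simp only [g]
    by_cases h : a ≠ b ∧ a ≠ c ∧ b ≠ c
    · rw [if_pos h, ← cyc_rot ρ a b c h.1 h.2.1 h.2.2,
        cyc_rot ρ c a b h.2.1.symm h.2.2.symm h.1, swap_comm b c]
      split_ifs <;> first | omega | simp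
    · rw [if_neg h, if_neg (by omega), if_neg (by omega), if_neg (by omega)]; simp
  have h2 : ∑ k, X ρ k * X ρ k = ∑ a, ∑ b, ∑ c, g a b c +
      ((n : ℂ) * (n - 1) / 2) • (1 : End ℂ V) := by
    rw [← sum_lt_one]
    have : ∑ a, ∑ b, ∑ c, g a b c = ∑ c, ∑ a, ∑ b, g a b c := by
      rw [sum_congr rfl fun a _ => sum_comm, sum_comm]
    rw [this, ← sum_add_distrib]
    refine sum_congr rfl fun k _ => ?_
    rw [X_eq, sum_mul_sum, ← sum_add_distrib]
    refine sum_congr rfl fun a _ => ?_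
    rw [← sum_erase_add _ _ (mem_univ a), ← sum_erase_add _ _ (mem_univ a)]
    congr 1
    · rw [show g a a k = 0 by simp [g], add_zero]
      refine sum_congr rfl fun b hb => ?_
      have := ne_of_mem_erase hb
      simp only [g]
      split_ifs <;> first | omega | simp
    · split_ifs
      · exact swap_sq ρ _ _
      · simp
  have h3 : ∑ a, ∑ b, ∑ c, g b c a = ∑ a, ∑ b, ∑ c, g a b c := by
    rw [sum_comm, sum_congr rfl fun a _ => sum_comm]
  have h4 : ∑ a, ∑ b, ∑ c, g c a b = ∑ a, ∑ b, ∑ c, g a b c := by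
    rw [sum_congr rfl fun a _ => sum_comm, sum_comm]
  rw [sum3, h2]
  simp only [h1, sum_add_distrib]
  rw [h3, h4]
  module

theorem K4_eq : ∑ t : I4 n, ρ (y4 t) = (4 : ℂ) • ((∑ k, X ρ k) * (∑ k, X ρ k) -
    (3 : ℂ) • ∑ k, X ρ k * X ρ k + ((n : ℂ) * (n - 1)) • (1 : End ℂ V)) := by
  let σ : Fin n → Fin n → End ℂ V := fun a b => if a = b then 0 else ρ (swap a b)
  have hσ : ∀ a b, σ a b = σ b a := fun a b => by simp only [σ, swap_comm a b, eq_comm]
  let Y : Fin n → End ℂ V := fun c => ∑ a, σ a c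
  have hN : ∑ a, ∑ b, σ a b * σ a b = ((n : ℂ) * (n - 1)) • (1 : End ℂ V) := by
    have : ∀ a b, σ a b * σ a b = (if a < b then (1 : End ℂ V) else 0) +
        if b < a then (1 : End ℂ V) else 0 := by
      intro a b
      simp only [σ]
      split_ifs <;> first | omega | simp [swap_sq]
    simp only [this, sum_add_distrib]
    rw [sum_comm, sum_lt_one]; module
  have hP : ∑ c, Y c = (2 : ℂ) • ∑ k, X ρ k := by
    have : ∀ a b, σ a b = (if a < b then ρ (swap a b) else 0) +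
        if b < a then ρ (swap b a) else 0 := by
      intro a b
      simp only [σ]
      split_ifs <;> first | omega | simp [swap_comm]
    simp only [Y, this, sum_add_distrib, X_eq]
    rw [sum_comm (f := fun c a => if c < a then ρ (swap c a) else 0)]; module
  have hY : ∑ c, Y c * Y c = ∑ t : I3 n, ρ (y3 t) + ((n : ℂ) * (n - 1)) • (1 : End ℂ V) := by
    rw [sum3, ← hN, ← sum_add_distrib]
    simp only [Y, sum_mul_sum]
    rw [sum_comm]
    refine sum_congr rfl fun a _ => ?_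
    rw [sum_comm, ← sum_erase_add _ _ (mem_univ a)]
    congr 1
    rw [← sum_erase_add _ _ (mem_univ a)]
    rw [show (∑ c, if a ≠ a ∧ a ≠ c ∧ a ≠ c then ρ (swap a c) * ρ (swap a c) else 0) = 0 by simp,
      add_zero]
    refine sum_congr rfl fun b hb => sum_congr rfl fun c _ => ?_
    have := ne_of_mem_erase hb
    simp only [σ]
    split_ifs <;> first | omega | simp
  have h1 : ∀ a b, (∑ c, ∑ d, if a ≠ b ∧ c ≠ d ∧ c ≠ a ∧ c ≠ b ∧ d ≠ a ∧ d ≠ b then
      ρ (swap a b) * ρ (swap c d) else 0) = σ a b * ∑ c, Y c - (2 : ℂ) • (σ a b * Y a) -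
        (2 : ℂ) • (σ a b * Y b) + (2 : ℂ) • (σ a b * σ a b) := by
    intro a b
    by_cases hab : a = b
    · simp [σ, hab]
    have e : ∀ c d, (if a ≠ b ∧ c ≠ d ∧ c ≠ a ∧ c ≠ b ∧ d ≠ a ∧ d ≠ b then
        ρ (swap a b) * ρ (swap c d) else 0) = σ a b * (σ d c - (if c = a then σ d c else 0) -
          (if c = b then σ d c else 0) - (if d = a then σ c d else 0) -
          (if d = b then σ c d else 0) + (if d = b then if c = a then σ c d else 0 else 0) +
          (if d = a then if c = b then σ d c else 0 else 0)) := by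
      intro c d
      rw [hσ d c]
      simp only [σ]
      split_ifs <;> first | omega | simp
    simp only [e, ← mul_sum, sum_add_distrib, sum_sub_distrib, sum_ite_eq', mem_univ, if_true,
      sum_ite_irrel, sum_const_zero]
    simp only [mul_add, mul_sub, Y]; module
  have h2 : ∑ a, ∑ b, σ a b * Y a = ∑ c, Y c * Y c := by
    refine sum_congr rfl fun a _ => ?_
    rw [← sum_mul]; simp only [Y, hσ a]
  have h3 : ∑ a, ∑ b, σ a b * Y b = ∑ c, Y c * Y c := by
    rw [sum_comm]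
    refine sum_congr rfl fun a _ => ?_
    rw [← sum_mul]
  have h4 : ∑ a, ∑ b, σ a b * ∑ c, Y c = (∑ c, Y c) * ∑ c, Y c := by
    rw [sum_comm]
    simp only [← sum_mul, Y]
  rw [sum4]
  simp only [h1, sum_add_distrib, sum_sub_distrib, ← smul_sum]
  rw [h2, h3, h4, hN, hY, hP, K3_eq, smul_mul_smul_comm]
  module

theorem sq_eig (v : V) (a : Fin n → ℂ) (h : ∀ k, X ρ k v = a k • v) :
    (∑ k, X ρ k * X ρ k) v = (∑ k, a k ^ 2) • v := by
  simp only [LinearMap.sum_apply, End.mul_apply, h, map_smul, smul_smul, sum_smul, sq]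

theorem K3_eig (v : V) (a : Fin n → ℂ) (h : ∀ k, X ρ k v = a k • v) :
    (∑ t : I3 n, ρ (y3 t)) v = (3 * (∑ k, a k ^ 2 - (n : ℂ) * (n - 1) / 2)) • v := by
  rw [K3_eq, LinearMap.smul_apply, LinearMap.sub_apply, sq_eig ρ v a h, LinearMap.smul_apply,
    End.one_apply]
  module

theorem K4_eig (v : V) (a : Fin n → ℂ) (h : ∀ k, X ρ k v = a k • v) :
    (∑ t : I4 n, ρ (y4 t)) v =
      (4 * ((∑ k, a k) ^ 2 - 3 * ∑ k, a k ^ 2 + (n : ℂ) * (n - 1))) • v := by
  have h1 : (∑ k, X ρ k) v = (∑ k, a k) • v := by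
    simp only [LinearMap.sum_apply, h, sum_smul]
  rw [K4_eq, LinearMap.smul_apply, LinearMap.add_apply, LinearMap.sub_apply, LinearMap.smul_apply,
    sq_eig ρ v a h, LinearMap.smul_apply, End.one_apply, End.mul_apply, h1, map_smul, h1]
  module

end

end Pool.Agent.P.MP_eccc2e_al
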