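import Pool.Agent.P.MP_eccc2e_al.JM

/-! From the local rules to the shape of the multiset of eigenvalues, and a finite search. -/

namespace Pool.Agent.P.MP_eccc2e_al

open Equiv Finset

theorem OV.gap {n : ℕ} {S : Set (ℕ → ℂ)} (h : OV n S) (d : ℂ) (hd : d = 1 ∨ d = -1) (g : ℕ) :
    ∀ a ∈ S, ∀ p, 0 < g → p + g < n → a (p + g) = a p →
      ∃ r, p < r ∧ r < p + g ∧ a r = a p + d := by
  induction g using Nat.strong_induction_on with
  | _ g ih =>
  intro a ha p hg hn hE
  by_contra hne
  push Not at hne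
  have hg1 : g ≠ 1 := by rintro rfl; exact h.p1 a ha p hn hE
  obtain ⟨g, rfl⟩ : ∃ g', g = g' + 2 := ⟨g - 2, by omega⟩
  by_cases hA : a (p + 1) = a p - d
  swap
  · have h1 := hne (p + 1) (by omega) (by omega)
    have h2 := h.p2 a ha p (by omega) (by rcases hd with rfl | rfl; exact h1; simpa using hA)
      (by rcases hd with rfl | rfl; exact hA; simpa [sub_eq_add_neg] using h1)
    obtain ⟨r, r1, r2, r3⟩ := ih (g + 1) (by omega) _ h2 (p + 1) (by omega) (by omega) (by
      simp only [Function.comp_apply, swap_apply_right]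
      rw [swap_apply_of_ne_of_ne (by omega) (by omega), ← hE]; congr 1; omega)
    simp only [Function.comp_apply, swap_apply_right] at r3
    rw [swap_apply_of_ne_of_ne (by omega) (by omega)] at r3
    exact hne r (by omega) (by omega) r3
  by_cases hB : a (p + g + 1) = a p - d
  swap
  · have h1 := hne (p + g + 1) (by omega) (by omega)
    have hE' : a (p + g + 1 + 1) = a p := hE
    have h2 := h.p2 a ha (p + g + 1) (by omega)
      (by rw [hE']; intro h3
          rcases hd with rfl | rfl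
          · exact hB (by rw [h3]; ring)
          · exact h1 (by rw [h3]; ring))
      (by rw [hE']; intro h3
          rcases hd with rfl | rfl
          · exact h1 (by rw [h3]; ring)
          · exact hB (by rw [h3]; ring))
    obtain ⟨r, r1, r2, r3⟩ := ih (g + 1) (by omega) _ h2 p (by omega) (by omega) (by
      simp only [Function.comp_apply]
      rw [← add_assoc, swap_apply_left, swap_apply_of_ne_of_ne (by omega) (by omega), hE'])
    simp only [Function.comp_apply] at r3
    rw [swap_apply_of_ne_of_ne (by omega) (by omega),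
      swap_apply_of_ne_of_ne (by omega) (by omega)] at r3
    exact hne r (by omega) (by omega) r3
  rcases Nat.eq_zero_or_pos g with rfl | hg0
  · have := h.p3 a ha p hn hE
    rcases hd with rfl | rfl
    · exact this.2 hA
    · exact this.1 (by simpa using hA)
  · obtain ⟨r, r1, r2, r3⟩ := ih g (by omega) a ha (p + 1) hg0 (by omega) (by
      rw [hA, ← hB]; congr 1; omega)
    obtain ⟨r, rfl⟩ : ∃ r', r = p + r' := ⟨r - p, by omega⟩
    obtain ⟨s, s1, s2, s3⟩ := ih r (by omega) a ha p (by omega) (by omega) (by rw [r3, hA]; ring)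
    exact hne s s1 (by omega) s3

theorem OV.adj {n : ℕ} {S : Set (ℕ → ℂ)} (h : OV n S) (q : ℕ) :
    ∀ a ∈ S, q + 1 < n → ∃ r, r ≤ q ∧ (a (q + 1) = a r + 1 ∨ a (q + 1) = a r - 1) := by
  induction q with
  | zero =>
    intro a ha hn
    by_contra hne
    push Not at hne
    have h1 := h.p0 _ (h.p2 a ha 0 hn (hne 0 le_rfl).1 (hne 0 le_rfl).2) (by omega)
    simp only [Function.comp_apply, swap_apply_left] at h1
    exact h.p1 a ha 0 hn (by rw [h1, h.p0 a ha (by omega)])
  | succ q ih =>
    intro a ha hn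
    by_contra hne
    push Not at hne
    obtain ⟨r, r1, r2⟩ := ih _ (h.p2 a ha (q + 1) hn (hne _ le_rfl).1 (hne _ le_rfl).2) (by omega)
    simp only [Function.comp_apply, swap_apply_left] at r2
    rw [swap_apply_of_ne_of_ne (by omega) (by omega)] at r2
    rcases r2 with r2 | r2
    · exact (hne r (by omega)).1 r2
    · exact (hne r (by omega)).2 r2

/-- content vectors -/
structure Cont (n : ℕ) (b : ℕ → ℤ) : Prop where
  c0 : b 0 = 0
  adj : ∀ q, q + 1 < n → ∃ r, r ≤ q ∧ (b (q + 1) = b r + 1 ∨ b (q + 1) = b r - 1)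
  gap : ∀ d : ℤ, d = 1 ∨ d = -1 → ∀ p q, p < q → q < n → b q = b p →
    ∃ r, p < r ∧ r < q ∧ b r = b p + d

theorem OV.cont {n : ℕ} {S : Set (ℕ → ℂ)} (h : OV n S) (hn : 0 < n) (a : ℕ → ℂ) (ha : a ∈ S) :
    ∃ b : ℕ → ℤ, Cont n b ∧ ∀ k < n, a k = b k := by
  have h1 : ∀ k, ∃ z : ℤ, k < n → a k = z := by
    intro k
    induction k using Nat.strong_induction_on with
    | _ k ih =>
    rcases k with _ | k
    · exact ⟨0, fun hk => by simpa using h.p0 a ha hk⟩
    by_cases hk : k + 1 < n
    · obtain ⟨r, r1, r2⟩ := h.adj k a ha hk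
      obtain ⟨z, hz⟩ := ih r (by omega)
      rcases r2 with r2 | r2
      · exact ⟨z + 1, fun _ => by rw [r2, hz (by omega)]; simp⟩
      · exact ⟨z - 1, fun _ => by rw [r2, hz (by omega)]; simp⟩
    · exact ⟨0, fun h => absurd h hk⟩
  choose b hb using h1
  refine ⟨b, ⟨?_, fun q hq => ?_, fun d hd p q hpq hq hE => ?_⟩, fun k hk => hb k hk⟩
  · have := h.p0 a ha hn
    rw [hb 0 hn] at this; exact_mod_cast this
  · obtain ⟨r, r1, r2⟩ := h.adj q a ha hq
    rw [hb _ hq, hb r (by omega)] at r2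
    exact ⟨r, r1, by exact_mod_cast r2⟩
  · obtain ⟨g, rfl⟩ : ∃ g, q = p + g := ⟨q - p, by omega⟩
    obtain ⟨r, r1, r2, r3⟩ := h.gap d (by exact_mod_cast hd) g a ha p (by omega) hq
      (by rw [hb _ hq, hb p (by omega), hE])
    rw [hb r (by omega), hb p (by omega)] at r3
    exact ⟨r, r1, r2, by exact_mod_cast r3⟩

theorem Cont.neg {n : ℕ} {b : ℕ → ℤ} (h : Cont n b) : Cont n (fun k => -b k) := by
  refine ⟨by simp [h.c0], fun q hq => ?_, fun d hd p q hpq hq hE => ?_⟩
  · obtain ⟨r, r1, r2⟩ := h.adj q hq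
    exact ⟨r, r1, by omega⟩
  · obtain ⟨r, r1, r2, r3⟩ := h.gap (-d) (by omega) p q hpq hq (by simpa using hE)
    exact ⟨r, r1, r2, by omega⟩

theorem Cont.abs_le {n : ℕ} {b : ℕ → ℤ} (h : Cont n b) (k : ℕ) : k < n → -k ≤ b k ∧ b k ≤ k := by
  induction k using Nat.strong_induction_on with
  | _ k ih =>
  intro hk
  rcases k with _ | k
  · simp [h.c0]
  obtain ⟨r, r1, r2⟩ := h.adj k hk
  have := ih r (by omega) (by omega)
  omega

theorem Cont.first {n : ℕ} {b : ℕ → ℤ} (h : Cont n b) (q : ℕ) :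
    q < n → 0 < b q → ∃ r < q, b r = b q - 1 := by
  induction q using Nat.strong_induction_on with
  | _ q ih =>
  intro hq h0
  rcases q with _ | q
  · simp [h.c0] at h0
  obtain ⟨r, r1, r2 | r2⟩ := h.adj q hq
  · exact ⟨r, by omega, by omega⟩
  · obtain ⟨s, s1, s2⟩ := ih r (by omega) (by omega) (by omega)
    obtain ⟨t, t1, t2⟩ := ih s (by omega) (by omega) (by omega)
    exact ⟨t, by omega, by omega⟩

theorem card_le_of_between (n : ℕ) (T : Finset ℕ) (Q : ℕ → Prop) [DecidablePred Q]
    (hT : ∀ q ∈ T, q < n) (h1 : ∀ q ∈ T, ∃ r < q, Q r)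
    (h2 : ∀ p ∈ T, ∀ q ∈ T, p < q → ∃ r, p < r ∧ r < q ∧ Q r) :
    T.card ≤ ((range n).filter Q).card := by
  refine card_le_card_of_injOn (fun q => Nat.findGreatest Q q) (fun q hq => ?_) ?_
  · obtain ⟨r, r1, r2⟩ := h1 q hq
    have := Nat.findGreatest_le (P := Q) q
    have := hT q hq
    simp only [coe_filter, mem_range, Set.mem_ofPred_eq]
    exact ⟨by omega, Nat.findGreatest_spec r1.le r2⟩
  · have key : ∀ p ∈ T, ∀ q ∈ T, p < q → Nat.findGreatest Q p < Nat.findGreatest Q q := by
      intro p hp q hq hpq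
      obtain ⟨r, r1, r2, r3⟩ := h2 p hp q hq hpq
      have := Nat.findGreatest_le (P := Q) p
      have := Nat.le_findGreatest r2.le r3
      omega
    intro p hp q hq hE
    rcases lt_trichotomy p q with h | h | h
    · exact absurd hE (key p hp q hq h).ne
    · exact h
    · exact absurd hE (key q hq p hp h).ne'

/-- multiplicity of the value `j` -/
def mult (n : ℕ) (b : ℕ → ℤ) (j : ℕ) : ℕ := ((range n).filter fun k => b k = j).card

theorem Cont.mult_le {n : ℕ} {b : ℕ → ℤ} (h : Cont n b) (j : ℕ) :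
    mult n b (j + 1) ≤ mult n b j ∧ mult n b j ≤ mult n b (j + 1) + 1 := by
  constructor
  · refine card_le_of_between n _ _ (by simp +contextual) (fun q hq => ?_) fun p hp q hq hpq => ?_
    · simp only [mem_filter, mem_range] at hq
      obtain ⟨r, r1, r2⟩ := h.first q hq.1 (by omega)
      exact ⟨r, r1, by omega⟩
    · simp only [mem_filter, mem_range] at hp hq
      obtain ⟨r, r1, r2, r3⟩ := h.gap (-1) (by simp) p q hpq hq.1 (by omega)
      exact ⟨r, r1, r2, by omega⟩
  · unfold mult
    set T := (range n).filter fun k => b k = j with hT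
    rcases T.eq_empty_or_nonempty with h0 | h0
    · simp [h0]
    have hm := T.min'_mem h0
    rw [← card_erase_add_one hm, add_le_add_iff_right]
    have key : ∀ p ∈ T, ∀ q ∈ T, p < q → ∃ r, p < r ∧ r < q ∧ b r = ((j + 1 : ℕ) : ℤ) := by
      intro p hp q hq hpq
      simp only [hT, mem_filter, mem_range] at hp hq
      obtain ⟨r, r1, r2, r3⟩ := h.gap 1 (by simp) p q hpq hq.1 (by omega)
      exact ⟨r, r1, r2, by omega⟩
    refine card_le_of_between n _ _ (by simp +contextual [hT]) (fun q hq => ?_)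
      fun p hp q hq hpq => key p (mem_of_mem_erase hp) q (mem_of_mem_erase hq) hpq
    obtain ⟨r, -, r2, r3⟩ := key _ hm q (mem_of_mem_erase hq)
      (lt_of_le_of_ne (T.min'_le q (mem_of_mem_erase hq)) (ne_of_mem_erase hq).symm)
    exact ⟨r, r2, r3⟩

theorem Cont.mult_top {n : ℕ} {b : ℕ → ℤ} (h : Cont n b) : mult n b n = 0 := by
  simp only [mult, card_eq_zero, filter_eq_empty_iff, mem_range]
  intro k hk
  have := h.abs_le k hk
  omega

theorem Cont.sum_eq {n : ℕ} {b : ℕ → ℤ} (h : Cont n b) (F : ℤ → ℤ) :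
    ∑ k ∈ range n, F (b k) = mult n b 0 * F 0 + ∑ j ∈ range n, mult n b (j + 1) * F (j + 1) +
      ∑ j ∈ range n, mult n (fun k => -b k) (j + 1) * F (-(j + 1)) := by
  have h1 : ∀ (b : ℕ → ℤ) (j : ℕ) (z : ℤ),
      (mult n b j : ℤ) * z = ∑ k ∈ range n, if b k = j then z else 0 := by
    intro b j z
    rw [← sum_filter, sum_const, mult, nsmul_eq_mul]
  simp only [h1]
  rw [sum_comm, sum_comm (s := range n) (t := range n)
    (f := fun j k => if -b k = ((j + 1 : ℕ) : ℤ) then F (-(j + 1)) else 0), ← sum_add_distrib,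
    ← sum_add_distrib]
  refine sum_congr rfl fun k hk => ?_
  have hb := h.abs_le k (mem_range.mp hk)
  have hk := mem_range.mp hk
  rcases lt_trichotomy (b k) 0 with h0 | h0 | h0
  · rw [if_neg (by omega), sum_eq_zero fun j _ => if_neg (by omega),
      sum_eq_single (-b k - 1).toNat (fun j _ hj => if_neg (by omega))
        (fun hj => absurd (mem_range.mpr (by omega)) hj), if_pos (by omega)]
    simp only [zero_add]; congr 1; omega
  · rw [if_pos (by omega), sum_eq_zero fun j _ => if_neg (by omega),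
      sum_eq_zero fun j _ => if_neg (by omega), h0]; simp
  · rw [if_neg (by omega), sum_eq_zero (s := range n)
      (f := fun j => if -b k = ((j + 1 : ℕ) : ℤ) then F (-(j + 1)) else 0)
      fun j _ => if_neg (by omega),
      sum_eq_single (b k - 1).toNat (fun j _ hj => if_neg (by omega))
        (fun hj => absurd (mem_range.mpr (by omega)) hj), if_pos (by omega)]
    simp only [zero_add, add_zero]; congr 1; omega

/-- search over one side of the diagonal -/
noncomputable def go (n B : ℕ) (K : ℕ → ℕ → ℕ → Bool) (f : ℕ) : ℕ → ℕ → ℕ → ℕ → ℕ → Bool :=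
  Nat.rec (fun _ _ _ _ _ => false) (fun _ ih c h s t p =>
    Bool.rec (Bool.rec (Nat.rec (K s t p) (fun h' _ =>
      Bool.rec false (ih (Nat.succ c) h' (Nat.add s h') (Nat.add t (Nat.mul h' c))
          (Nat.add p (Nat.mul h' (Nat.mul c c))))
        (ih (Nat.succ c) h (Nat.add s h) (Nat.add t (Nat.mul h c))
          (Nat.add p (Nat.mul h (Nat.mul c c))))) h)
      true (Nat.blt B p)) true (Nat.blt n s)) f

theorem go_zero (n B K f c s t p) (hs : s ≤ n) (hp : p ≤ B) :
    go n B K (f + 1) c 0 s t p = K s t p := by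
  have h1 : Nat.blt n s = false := by
    rw [← Bool.not_eq_true, Nat.blt_eq]; omega
  have h2 : Nat.blt B p = false := by
    rw [← Bool.not_eq_true, Nat.blt_eq]; omega
  simp only [go, h1, h2]
  rfl

theorem go_succ (n B K f c h s t p) (hs : s ≤ n) (hp : p ≤ B)
    (H : go n B K (f + 1) c (h + 1) s t p = true) :
    go n B K f (c + 1) (h + 1) (s + (h + 1)) (t + (h + 1) * c) (p + (h + 1) * (c * c)) = true ∧
    go n B K f (c + 1) h (s + h) (t + h * c) (p + h * (c * c)) = true := by
  have h1 : Nat.blt n s = false := by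
    rw [← Bool.not_eq_true, Nat.blt_eq]; omega
  have h2 : Nat.blt B p = false := by
    rw [← Bool.not_eq_true, Nat.blt_eq]; omega
  have e : go n B K (f + 1) c (h + 1) s t p =
      Bool.rec false (go n B K f (c + 1) h (s + h) (t + h * c) (p + h * (c * c)))
        (go n B K f (c + 1) (h + 1) (s + (h + 1)) (t + (h + 1) * c) (p + (h + 1) * (c * c))) := by
    simp only [go, h1, h2]
    rfl
  rw [e] at H
  revert H
  cases go n B K f (c + 1) (h + 1) (s + (h + 1)) (t + (h + 1) * c) (p + (h + 1) * (c * c)) <;> simp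

theorem go_sound (n B : ℕ) (K : ℕ → ℕ → ℕ → Bool) (r : ℕ → ℕ)
    (hr : ∀ j, r (j + 1) ≤ r j ∧ r j ≤ r (j + 1) + 1) (M : ℕ) (hM : r M = 0) (s t p : ℕ)
    (hs : s + ∑ j ∈ range M, r (j + 1) ≤ n)
    (hp : p + ∑ j ∈ range M, r (j + 1) * ((j + 1) * (j + 1)) ≤ B) (f : ℕ) : ∀ c ≤ M,
    go n B K f (c + 1) (r c) (s + ∑ j ∈ range c, r (j + 1))
      (t + ∑ j ∈ range c, r (j + 1) * (j + 1))
      (p + ∑ j ∈ range c, r (j + 1) * ((j + 1) * (j + 1))) = true →
    K (s + ∑ j ∈ range M, r (j + 1)) (t + ∑ j ∈ range M, r (j + 1) * (j + 1))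
      (p + ∑ j ∈ range M, r (j + 1) * ((j + 1) * (j + 1))) = true := by
  induction f with
  | zero => intro c _ h; simp [go] at h
  | succ f ih =>
    intro c hc h
    have hle : ∑ j ∈ range c, r (j + 1) ≤ ∑ j ∈ range M, r (j + 1) :=
      sum_le_sum_of_subset (range_subset_range.mpr hc)
    have hle' : ∑ j ∈ range c, r (j + 1) * ((j + 1) * (j + 1)) ≤
        ∑ j ∈ range M, r (j + 1) * ((j + 1) * (j + 1)) :=
      sum_le_sum_of_subset (range_subset_range.mpr hc)
    rcases hrc : r c with _ | h'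
    · rw [hrc, go_zero _ _ _ _ _ _ _ _ (by omega) (by omega)] at h
      have hz : ∀ j, c ≤ j → r j = 0 := fun j hj => by
        induction j, hj using Nat.le_induction with
        | base => exact hrc
        | succ j _ ih => have := (hr j).1; omega
      have e : ∀ F : ℕ → ℕ, ∑ j ∈ range c, r (j + 1) * F j = ∑ j ∈ range M, r (j + 1) * F j :=
        fun F => sum_subset (range_subset_range.mpr hc) fun j _ hj => by
          rw [hz (j + 1) (by simp at hj; omega), zero_mul]
      have e1 := e fun _ => 1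
      simp only [mul_one] at e1
      rw [← e1, ← e, ← e]; exact h
    · rw [hrc] at h
      have h := go_succ _ _ _ _ _ _ _ _ _ (by omega) (by omega) h
      have hcM : c ≠ M := by rintro rfl; omega
      apply ih (c + 1) (by omega)
      simp only [sum_range_succ, ← add_assoc]
      have := hr c
      rcases (by omega : r (c + 1) = h' + 1 ∨ r (c + 1) = h') with e | e
      · rw [e]; exact h.1
      · rw [e]; exact h.2

/-- exhaustive search over all partitions of `n` -/
noncomputable def search (n B : ℕ) (Q : ℕ → ℕ → ℕ → Bool) : Bool :=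
  (List.range (n + 1)).all fun d => go n B (fun s t p => go n B
    (fun s' t' p' => s' != n || Q t t' p') (n + 2) 1 d s 0 p) (n + 2) 1 d d 0 0

theorem Cont.search_sound {n : ℕ} {b : ℕ → ℤ} (h : Cont n b) (B : ℕ) (Q : ℕ → ℕ → ℕ → Bool)
    (hB : ∑ k ∈ range n, b k ^ 2 ≤ B)
    (hQ : search n B Q = true) : ∃ t t' p : ℕ, Q t t' p = true ∧
      ∑ k ∈ range n, b k = t - t' ∧ ∑ k ∈ range n, b k ^ 2 = p := by
  have e0 := h.sum_eq fun _ => 1
  have e1 := h.sum_eq fun z => z
  have e2 := h.sum_eq fun z => z ^ 2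
  simp only [sum_const, card_range, mul_one, nsmul_eq_mul] at e0
  have e0' : n = mult n b 0 + ∑ j ∈ range n, mult n b (j + 1) +
      ∑ j ∈ range n, mult n (fun k => -b k) (j + 1) := by exact_mod_cast e0
  have e2' : ∑ k ∈ range n, b k ^ 2 =
      ((0 + ∑ j ∈ range n, mult n b (j + 1) * ((j + 1) * (j + 1)) +
        ∑ j ∈ range n, mult n (fun k => -b k) (j + 1) * ((j + 1) * (j + 1)) : ℕ) : ℤ) := by
    rw [e2]; simp [sq]
    refine sum_congr rfl fun j _ => by ring
  rw [e2'] at hB
  have hB' := Int.ofNat_le.mp hB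
  have hm : mult n (fun k => -b k) 0 = mult n b 0 := by simp [mult]
  simp only [search, List.all_eq_true, List.mem_range] at hQ
  have h1 := go_sound n B _ (mult n b) h.mult_le n h.mult_top (mult n b 0) 0 0 (by omega)
    (by omega) (n + 2) 0 (by omega) (by simpa using hQ (mult n b 0) (by omega))
  have h2 := go_sound n B _ (mult n fun k => -b k) h.neg.mult_le n h.neg.mult_top _ 0 _
    (le_of_eq e0'.symm) hB' (n + 2) 0 (by omega) (by rw [hm]; simpa using h1)
  rw [← e0'] at h2
  simp only [bne_self_eq_false, Bool.false_or] at h2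
  refine ⟨_, _, _, h2, ?_, e2'⟩
  rw [e1]; simp [sub_eq_add_neg, ← sum_neg_distrib]
  refine sum_congr rfl fun j _ => by ring

end Pool.Agent.P.MP_eccc2e_al
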