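import Pool.Agent.P.MP_eccc2e_al.JM

/-! A joint eigenvector of the Jucys-Murphy elements for every Young diagram. -/

namespace Pool.Agent.P.MP_eccc2e_al

open Equiv Finset

/-- permutation representation on functions of words -/
noncomputable def wordRep (n : ℕ) : Representation ℂ (Perm (Fin n)) ((Fin n → ℕ) → ℂ) where
  toFun g := LinearMap.funLeft ℂ ℂ (fun r : Fin n → ℕ => r ∘ g)
  map_one' := by ext; simp
  map_mul' g h := by ext; rfl

theorem wordRep_apply {n : ℕ} (g : Perm (Fin n)) (f : (Fin n → ℕ) → ℂ) (r : Fin n → ℕ) :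
    wordRep n g f r = f (r ∘ g) := rfl

/-- column reading tableau -/
structure Tab {n : ℕ} (col row : Fin n → ℕ) : Prop where
  lt : ∀ j k, j < k ↔ col j < col k ∨ (col j = col k ∧ row j < row k)
  down : ∀ k c r, c ≤ col k → r ≤ row k → ∃ j, col j = c ∧ row j = r

section
variable {n : ℕ} {col row : Fin n → ℕ}

theorem Tab.inj (h : Tab col row) {j k : Fin n} (h1 : col j = col k) (h2 : row j = row k) :
    j = k := by
  have := h.lt j k
  have := h.lt k j
  omega

/-- the polytabloid -/
noncomputable def pt (col row : Fin n → ℕ) (r : Fin n → ℕ) : ℂ :=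
  ∑ σ : Perm (Fin n), if col ∘ σ = col ∧ r ∘ σ = row then ((Perm.sign σ : ℤ) : ℂ) else 0

theorem pt_col (τ : Perm (Fin n)) (hτ : col ∘ τ = col) (r : Fin n → ℕ) :
    pt col row (r ∘ τ) = ((Perm.sign τ : ℤ) : ℂ) * pt col row r := by
  unfold pt
  rw [← Equiv.sum_comp (Equiv.mulLeft τ) (fun σ : Perm (Fin n) =>
    if col ∘ σ = col ∧ r ∘ σ = row then ((Perm.sign σ : ℤ) : ℂ) else 0), mul_sum]
  refine sum_congr rfl fun σ _ => ?_
  simp only [coe_mulLeft, Perm.coe_mul, ← Function.comp_assoc, hτ]
  split_ifs
  · rcases Int.units_eq_one_or (Perm.sign τ) with h | h <;> simp [h]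
  · simp

theorem pt_row (h : Tab col row) : pt col row row = 1 := by
  unfold pt
  rw [sum_eq_single 1]
  · simp
  · intro σ _ hσ
    rw [if_neg]
    rintro ⟨h1, h2⟩
    exact hσ (Equiv.ext fun j => h.inj (congrFun h1 j) (congrFun h2 j))
  · simp

theorem pt_supp (r : Fin n → ℕ) (hr : pt col row r ≠ 0) (j : Fin n) :
    ∃ j', col j' = col j ∧ row j' = r j := by
  obtain ⟨σ, -, hσ⟩ := exists_ne_zero_of_sum_ne_zero hr
  have : col ∘ σ = col ∧ r ∘ σ = row := by
    by_contra h; exact hσ (if_neg h)
  exact ⟨σ.symm j, by simpa using (congrFun this.1 (σ.symm j)).symm,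
    by simpa using (congrFun this.2 (σ.symm j)).symm⟩

theorem swap_mem {A : Finset (Fin n)} {a b : Fin n} (ha : a ∈ A) (hb : b ∈ A) (x : Fin n) :
    (x ∈ A → swap a b x ∈ A) ∧ (x ∉ A → swap a b x = x) := by
  rw [swap_apply_def]
  constructor
  · intro hx; split_ifs <;> assumption
  · intro hx
    rw [if_neg (by rintro rfl; exact hx ha), if_neg (by rintro rfl; exact hx hb)]

theorem garnir (h : Tab col row) (k : Fin n) (c : ℕ) (hc : c < col k) (r : Fin n → ℕ) :
    ∑ j ∈ univ.filter (fun j => col j = c), pt col row (r ∘ swap j k) = pt col row r := by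
  set C := univ.filter (fun j => col j = c) with hC
  have hkC : k ∉ C := by simp [hC]; omega
  set A := insert k C with hA
  have hkA : k ∈ A := mem_insert_self _ _
  let w : (Fin n → ℕ) → ℂ := fun r =>
    ∑ j ∈ A, ((Perm.sign (swap j k) : ℤ) : ℂ) * pt col row (r ∘ swap j k)
  have anti : ∀ r, ∀ i ∈ A, ∀ i' ∈ A, i ≠ i' → w (r ∘ swap i i') = -w r := by
    intro r i hi i' hi' hne
    simp only [w]
    rw [← sum_neg_distrib]
    refine sum_equiv (swap i i') (fun j => ⟨(swap_mem hi hi' j).1, fun hj => ?_⟩) fun j hj => ?_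
    · simpa using (swap_mem hi hi' _).1 hj
    have hsj := (swap_mem hi hi' j).1 hj
    have hu : col ∘ (swap (swap i i' j) k * swap i i' * swap j k : Perm (Fin n)) = col := by
      funext x
      simp only [Function.comp_apply, Perm.coe_mul]
      by_cases hx : x ∈ A
      · by_cases hxk : x = k
        · subst hxk; simp
        have h1 := (swap_mem hsj hkA _).1 ((swap_mem hi hi' _).1 ((swap_mem hj hkA x).1 hx))
        have h2 : swap (swap i i' j) k (swap i i' (swap j k x)) ≠ k := by
          intro h2
          apply hxk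
          have h3 : swap (swap i i' j) k (swap i i' (swap j k k)) = k := by simp
          exact (swap j k).injective ((swap i i').injective ((swap _ k).injective (h2.trans h3.symm)))
        have h4 := (mem_insert.mp h1).resolve_left h2
        have h5 := (mem_insert.mp hx).resolve_left hxk
        simp only [hC, mem_filter, mem_univ, true_and] at h4 h5
        rw [h4, h5]
      · rw [(swap_mem hj hkA x).2 hx, (swap_mem hi hi' x).2 hx, (swap_mem hsj hkA x).2 hx]
    have he : (r ∘ swap i i') ∘ swap j k = (r ∘ swap (swap i i' j) k) ∘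
        (swap (swap i i' j) k * swap i i' * swap j k : Perm (Fin n)) := by
      funext x; simp
    rw [he, pt_col _ hu, map_mul, map_mul, Perm.sign_swap hne]
    rcases Int.units_eq_one_or (Perm.sign (swap j k)) with h | h <;> simp [h]
  have hw : w r = 0 := by
    by_contra hw
    obtain ⟨j, hj, hj0⟩ := exists_ne_zero_of_sum_ne_zero hw
    have hs := pt_supp _ (right_ne_zero_of_mul hj0)
    have h1 : ∀ y, ∃ z, y ∈ A → z ∈ C ∧ row z = r (swap j k y) := by
      intro y
      obtain ⟨y', e1, e2⟩ := hs y
      by_cases hy : y ∈ A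
      · have : c ≤ col y := by
          rcases mem_insert.mp hy with rfl | hy
          · omega
          · simp only [hC, mem_filter, mem_univ, true_and] at hy; omega
        obtain ⟨z, z1, z2⟩ := h.down y' c (row y') (by omega) le_rfl
        exact ⟨z, fun _ => ⟨by simp [hC, z1], by rw [z2, e2]; rfl⟩⟩
      · exact ⟨y, fun h => absurd h hy⟩
    choose φ hφ using h1
    obtain ⟨y, hy, y', hy', hne, hE⟩ := exists_ne_map_eq_of_card_lt_of_maps_to (s := A) (t := C)
      (by rw [hA, card_insert_of_notMem hkC]; omega) (f := φ) fun y hy => (hφ y hy).1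
    have hr : r (swap j k y) = r (swap j k y') := by rw [← (hφ y hy).2, ← (hφ y' hy').2, hE]
    have h2 := anti r _ ((swap_mem hj hkA y).1 hy) _ ((swap_mem hj hkA y').1 hy')
      ((swap j k).injective.ne hne)
    have h3 : r ∘ swap (swap j k y) (swap j k y') = r := by
      funext x
      simp only [Function.comp_apply]
      rw [swap_apply_def (swap j k y)]
      split_ifs with e1 e2
      · rw [e1, hr]
      · rw [e2, hr]
      · rfl
    rw [h3] at h2
    exact hw (by linear_combination h2 / 2)
  simp only [w, hA] at hw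
  rw [sum_insert hkC] at hw
  have h4 : ∑ j ∈ C, ((Perm.sign (swap j k) : ℤ) : ℂ) * pt col row (r ∘ swap j k) =
      -∑ j ∈ C, pt col row (r ∘ swap j k) := by
    rw [← sum_neg_distrib]
    refine sum_congr rfl fun j hj => ?_
    rw [Perm.sign_swap (by rintro rfl; exact hkC hj)]; simp
  rw [h4] at hw
  simp only [swap_self, Perm.sign_refl, Units.val_one, Int.cast_one, one_mul, coe_refl,
    Function.comp_id] at hw
  linear_combination -hw

theorem X_pt (h : Tab col row) (k : Fin n) :
    X (wordRep n) k (pt col row) = ((col k : ℂ) - row k) • pt col row := by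
  funext r
  simp only [X, LinearMap.sum_apply, Finset.sum_apply, wordRep_apply, Pi.smul_apply, smul_eq_mul]
  rw [← sum_filter_add_sum_filter_not _ (fun j => col j < col k)]
  have e1 : ∑ j ∈ (Iio k).filter (fun j => col j < col k), pt col row (r ∘ swap j k) =
      col k * pt col row r := by
    rw [← sum_fiberwise_of_maps_to (t := range (col k)) (g := col) (by simp)]
    rw [sum_congr rfl (g := fun _ => pt col row r)]
    · simp
    intro c hc
    rw [← garnir h k c (mem_range.mp hc) r]
    refine sum_congr ?_ fun _ _ => rfl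
    ext j
    have := h.lt j k
    have := mem_range.mp hc
    simp only [mem_filter, mem_Iio, mem_univ, true_and]
    omega
  have e2 : ∑ j ∈ (Iio k).filter (fun j => ¬col j < col k), pt col row (r ∘ swap j k) =
      -(row k * pt col row r) := by
    rw [sum_congr rfl (g := fun _ => -pt col row r)]
    · have : ((Iio k).filter (fun j => ¬col j < col k)).card = row k := by
        rw [← card_range (row k)]
        refine card_bij (fun j _ => row j) (fun j hj => ?_) (fun j hj j' hj' hE => ?_)
          fun b hb => ?_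
        · have := h.lt j k
          simp only [mem_filter, mem_Iio, mem_range] at hj ⊢; omega
        · have := h.lt j k
          have := h.lt j' k
          simp only [mem_filter, mem_Iio] at hj hj'
          exact h.inj (by omega) hE
        · obtain ⟨j, j1, j2⟩ := h.down k (col k) b le_rfl (mem_range.mp hb).le
          have := h.lt j k
          have := mem_range.mp hb
          exact ⟨j, by simp only [mem_filter, mem_Iio]; omega, j2⟩
      rw [sum_const, this]; simp
    intro j hj
    have := h.lt j k
    simp only [mem_filter, mem_Iio] at hj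
    have hc : col j = col k := by omega
    rw [pt_col _ (by
      funext x
      simp only [Function.comp_apply, swap_apply_def]
      split_ifs with a1 a2
      · rw [a1, hc]
      · rw [a2, hc]
      · rfl), Perm.sign_swap hj.1.ne]
    simp
  rw [e1, e2]; ring

end

theorem exists_tab (D : Finset (ℕ × ℕ)) (hD : IsLowerSet (D : Set (ℕ × ℕ))) (n : ℕ)
    (hn : D.card = n) : ∃ col row : Fin n → ℕ, Tab col row ∧
      ∀ G : ℕ × ℕ → ℤ, ∑ k, G (col k, row k) = ∑ p ∈ D, G p := by
  let D' : Finset (ℕ ×ₗ ℕ) := D.map toLex.toEmbedding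
  have hc : D'.card = n := by simp [D', hn]
  let f := D'.orderEmbOfFin hc
  have hf : ∀ k, ofLex (f k) ∈ D := fun k => by
    have := D'.orderEmbOfFin_mem hc k
    simpa [D'] using this
  have hs : ∀ p ∈ D, ∃ k, ofLex (f k) = p := fun p hp => by
    have : toLex p ∈ Set.range f := by
      rw [D'.range_orderEmbOfFin hc]; simpa [D'] using hp
    obtain ⟨k, hk⟩ := this
    exact ⟨k, by rw [hk]; rfl⟩
  refine ⟨fun k => (ofLex (f k)).1, fun k => (ofLex (f k)).2, ⟨fun j k => ?_, fun k c r hc hr => ?_⟩,
    fun G => ?_⟩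
  · rw [← f.lt_iff_lt, Prod.Lex.lt_iff]
  · obtain ⟨j, hj⟩ := hs (c, r) (hD (a := ofLex (f k)) ⟨hc, hr⟩ (hf k))
    exact ⟨j, by rw [hj], by rw [hj]⟩
  · refine sum_bij (fun k _ => ofLex (f k)) (fun k _ => hf k) (fun j _ k _ hE => ?_)
      (fun p hp => ?_) fun _ _ => rfl
    · exact f.injective (ofLex.injective hE)
    · obtain ⟨k, hk⟩ := hs p hp
      exact ⟨k, mem_univ _, hk⟩

end Pool.Agent.P.MP_eccc2e_al
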