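import Pool.Agent.P.MP_eccc2e_al.Link
import Pool.Agent.P.MP_eccc2e_al.OV
import Pool.Agent.P.MP_eccc2e_al.Specht
import Pool.Agent.P.MP_eccc2e_al.ClassSum

/-! Nonvanishing in the alternating group in terms of contents of Young diagrams. -/

namespace Pool.Agent.P.MP_eccc2e_al

open Equiv Finset Module

/-- regular representation on a Hilbert space -/
noncomputable def reg (G : Type) [Group G] [Fintype G] :
    Representation ℂ G (EuclideanSpace ℂ G) where
  toFun g :=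
    { toFun := fun f => WithLp.toLp 2 fun h => f (g⁻¹ * h)
      map_add' := fun _ _ => rfl
      map_smul' := fun _ _ => rfl }
  map_one' := by ext; simp
  map_mul' g h := by ext; simp [mul_assoc]

theorem reg_apply {G : Type} [Group G] [Fintype G] (g : G) (f : EuclideanSpace ℂ G) (h : G) :
    reg G g f h = f (g⁻¹ * h) := rfl

theorem reg_adj {G : Type} [Group G] [Fintype G] (g : G) (u w : EuclideanSpace ℂ G) :
    inner ℂ (reg G g u) w = inner ℂ u (reg G g⁻¹ w) := by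
  simp only [PiLp.inner_apply, reg_apply, inv_inv]
  rw [← Equiv.sum_comp (Equiv.mulLeft g)]
  simp

section
variable {n : ℕ} {ι : Type} [Fintype ι] (y : ι → Perm (Fin n))
  (hy : ∀ i, y i ∈ alternatingGroup (Fin n)) (x : alternatingGroup (Fin n))
  (hconj : ∀ i, IsConj x ⟨y i, hy i⟩)
  (hinv : ∀ g, ∃ e : ι ≃ ι, ∀ i, g * y i * g⁻¹ = y (e i)) (Φ : (Fin n → ℂ) → ℂ)
  (hΦ : ∀ (V : Type) [AddCommGroup V] [Module ℂ V] (ρ : Representation ℂ (Perm (Fin n)) V)
    (v : V) (a : Fin n → ℂ), (∀ k, X ρ k v = a k • v) → (∑ i, ρ (y i)) v = Φ a • v)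

omit [Fintype ι] in
include hinv in
theorem hinv_alt (g : alternatingGroup (Fin n)) : ∃ e : ι ≃ ι, ∀ i,
    g * ⟨y i, hy i⟩ * g⁻¹ = ⟨y (e i), hy (e i)⟩ := by
  obtain ⟨e, he⟩ := hinv g
  exact ⟨e, fun i => Subtype.ext (he i)⟩

include hconj hinv hΦ

theorem nonvanishing_of (hn : 0 < n) (h : ∀ b, Cont n b → Φ (fun k => b k) ≠ 0) :
    Nonvanishing x := by
  classical
  intro V _ _ _ σ hirr h0
  obtain ⟨hV, hK⟩ := sum_eq_zero_of_char (fun i => (⟨y i, hy i⟩ : alternatingGroup (Fin n))) x σ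
    hirr hconj (hinv_alt y hy hinv) h0
  obtain ⟨v, hv⟩ := exists_ne (0 : V)
  obtain ⟨φ, hφ⟩ := not_forall.mp (mt (Module.forall_dual_apply_eq_zero_iff ℂ v).mp hv)
  let f : EuclideanSpace ℂ (Perm (Fin n)) := WithLp.toLp 2 fun g =>
    if hg : g ∈ alternatingGroup (Fin n) then φ (σ (⟨g, hg⟩ : alternatingGroup (Fin n))⁻¹ v) else 0
  let ρ := reg (Perm (Fin n))
  have hf : f ∈ LinearMap.ker (∑ i, ρ (y i)) := by
    rw [LinearMap.mem_ker]
    ext g
    simp only [LinearMap.sum_apply, WithLp.ofLp_sum, Finset.sum_apply, ρ, reg_apply, f,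
      PiLp.zero_apply]
    by_cases hg : g ∈ alternatingGroup (Fin n)
    · have h1 : ∀ i, (y i)⁻¹ * g ∈ alternatingGroup (Fin n) := fun i =>
        mul_mem (inv_mem (hy i)) hg
      have h2 := congrArg (fun K : End ℂ V =>
        φ (σ (⟨g, hg⟩ : alternatingGroup (Fin n))⁻¹ (K v))) hK
      simp only [LinearMap.sum_apply, map_sum, LinearMap.zero_apply, map_zero] at h2
      rw [← h2]
      refine sum_congr rfl fun i _ => ?_
      rw [dif_pos (h1 i), ← End.mul_apply, ← map_mul]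
      have e : (⟨(y i)⁻¹ * g, h1 i⟩ : alternatingGroup (Fin n))⁻¹ =
          (⟨g, hg⟩ : alternatingGroup (Fin n))⁻¹ * ⟨y i, hy i⟩ := Subtype.ext (by simp)
      rw [e]
    · refine sum_eq_zero fun i _ => dif_neg fun h1 => hg ?_
      simpa using mul_mem (hy i) h1
  have hW : LinearMap.ker (∑ i, ρ (y i)) ≠ ⊥ := by
    intro hb
    rw [hb, Submodule.mem_bot] at hf
    have := congrArg (fun u : EuclideanSpace ℂ (Perm (Fin n)) => u 1) hf
    simp only [f, one_mem, dif_pos, PiLp.zero_apply] at this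
    apply hφ
    rw [← this]
    congr 1
    rw [show (⟨1, one_mem _⟩ : alternatingGroup (Fin n)) = 1 from rfl]; simp
  obtain ⟨a, w, hw, hw0, ha⟩ := exists_joint ρ _ hW fun k w hw => by
    rw [X, LinearMap.sum_apply]
    refine Submodule.sum_mem _ fun j _ => ?_
    rw [LinearMap.mem_ker] at hw ⊢
    rw [← End.mul_apply, ← sum_comm_of_inv y ρ hinv, End.mul_apply, hw, map_zero]
  obtain ⟨b, hb, hab⟩ := (spec_OV ρ reg_adj).cont hn a ⟨w, hw0, ha⟩
  have h1 := hΦ _ ρ w (fun k => a k) ha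
  rw [LinearMap.mem_ker.mp hw] at h1
  apply h b hb
  rw [← (smul_eq_zero.mp h1.symm).resolve_right hw0]
  congr 1
  funext k
  exact (hab k k.2).symm

theorem vanishing_of [Nonempty ι] (col row : Fin n → ℕ) (h : Tab col row)
    (h0 : Φ (fun k => (col k : ℂ) - row k) = 0) : ¬ Nonvanishing x := by
  refine not_nonvanishing (fun i => (⟨y i, hy i⟩ : alternatingGroup (Fin n))) x
    ((wordRep n).comp (alternatingGroup (Fin n)).subtype) hconj (hinv_alt y hy hinv)
    (pt col row) (fun hz => ?_) ?_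
  · have := congrFun hz row
    rw [pt_row h] at this
    exact one_ne_zero this
  · have := hΦ _ (wordRep n) _ _ (X_pt h)
    rw [h0, zero_smul] at this
    exact this

end

section
variable {n : ℕ}

theorem y3_three (t : I3 n) : (y3 t).IsThreeCycle := by
  rw [y3, swap_comm t.1.1, swap_comm t.1.2.1]
  exact Perm.isThreeCycle_swap_mul_swap_same t.2.2.1.symm t.2.2.2.symm t.2.1

theorem y3_inv (g : Perm (Fin n)) : ∃ e : I3 n ≃ I3 n, ∀ i, g * y3 i * g⁻¹ = y3 (e i) := by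
  refine ⟨Equiv.subtypeEquiv (Equiv.prodCongr g (Equiv.prodCongr g g)) (by simp), fun i => ?_⟩
  simp [y3, swap_apply_apply, mul_assoc]

theorem y4_inv (g : Perm (Fin n)) : ∃ e : I4 n ≃ I4 n, ∀ i, g * y4 i * g⁻¹ = y4 (e i) := by
  refine ⟨Equiv.subtypeEquiv (Equiv.prodCongr (Equiv.prodCongr g g) (Equiv.prodCongr g g))
    (by simp), fun i => ?_⟩
  simp [y4, swap_apply_apply, mul_assoc]

theorem y4_mem (t : I4 n) : y4 t ∈ alternatingGroup (Fin n) := by
  simp [y4, Perm.sign_swap t.2.1, Perm.sign_swap t.2.2.1]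

theorem y4_type (t : I4 n) : (y4 t).cycleType = {2, 2} := by
  obtain ⟨⟨⟨a, b⟩, c, d⟩, h1, h2, h3, h4, h5, h6⟩ := t
  simp only at h1 h2 h3 h4 h5 h6
  have hd : Perm.Disjoint (swap a b) (swap c d) := by
    intro z
    by_cases hz : z = a ∨ z = b
    · right; apply swap_apply_of_ne_of_ne <;> rcases hz with rfl | rfl <;> omega
    · left; apply swap_apply_of_ne_of_ne <;> omega
  simp only [y4]
  rw [hd.cycleType_mul, Perm.isSwap_iff_cycleType.mp (Perm.swap_isSwap_iff.mpr h1),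
    Perm.isSwap_iff_cycleType.mp (Perm.swap_isSwap_iff.mpr h2)]
  rfl

theorem y4_conj (x : alternatingGroup (Fin n)) (hx : x.1.cycleType = {2, 2}) (t : I4 n) :
    IsConj x ⟨y4 t, y4_mem t⟩ := by
  obtain ⟨g, hg⟩ := isConj_iff.mp (Perm.isConj_iff_cycleType_eq.mpr (hx.trans (y4_type t).symm))
  rcases Int.units_eq_one_or (Perm.sign g) with h | h
  · exact isConj_iff.mpr ⟨⟨g, h⟩, Subtype.ext hg⟩
  · refine isConj_iff.mpr ⟨⟨swap t.1.1.1 t.1.1.2 * g, by simp [h, Perm.sign_swap t.2.1]⟩,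
      Subtype.ext ?_⟩
    obtain ⟨⟨⟨a, b⟩, c, d⟩, h1, h2, h3, h4, h5, h6⟩ := t
    simp only at h1 h2 h3 h4 h5 h6
    simp only [Subgroup.coe_mul, Subgroup.coe_inv, mul_inv_rev, swap_inv]
    rw [show swap a b * g * x.1 * (g⁻¹ * swap a b) = swap a b * (g * x.1 * g⁻¹) * swap a b by group,
      hg]
    simp only [y4]
    rw [← mul_assoc, swap_mul_self, one_mul, mul_swap_eq_swap_mul,
      swap_apply_of_ne_of_ne h3.symm h5.symm, swap_apply_of_ne_of_ne h4.symm h6.symm]

end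

end Pool.Agent.P.MP_eccc2e_al
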