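import Pool.Agent.P.MP_eccc2e_al.Frob
import Pool.Agent.P.MP_eccc2e_al.Link

/-! A criterion for an involution of an alternating group to be nonvanishing. -/

namespace Pool.Agent.P.MP_eccc2e_al

open Equiv Finset

theorem pw_invol {n : ℕ} {g : Perm (Fin n)} (hg : ∀ k, g (g k) = k) :
    ∃ c b : ℕ, c + 2 * b = n ∧ c + #g.support = n ∧ ∀ (A S : Type) [Fintype A] [DecidableEq A]
      [CommRing S] (z : A → S), pw z g = (∑ a, z a) ^ c * (∑ a, z a ^ 2) ^ b := by
  let π : Fin n → {k // k ≤ g k} := fun k => ⟨min k (g k), by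
    rcases le_total k (g k) with h | h
    · rwa [min_eq_left h]
    · rwa [min_eq_right h, hg]⟩
  have h1 : ∀ d, cnt π d = if g d = d then 1 else 2 := by
    intro d
    have : (univ.filter fun k => π k = d) = {d.1, g d} := by
      ext k
      simp only [mem_filter, mem_univ, true_and, mem_insert, mem_singleton, π, Subtype.ext_iff]
      have h2 := d.2
      constructor
      · intro h
        rcases le_total k (g k) with h1 | h1
        · left; rw [← h, min_eq_left h1]
        · right; rw [← h, min_eq_right h1, hg]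
      · rintro (rfl | rfl)
        · exact min_eq_left h2
        · rw [hg]; exact min_eq_right h2
    rw [cnt_apply, this]
    split_ifs with h
    · simp [h]
    · exact card_pair (Ne.symm h)
  refine ⟨#{d : {k // k ≤ g k} | g d = d}, #{d : {k // k ≤ g k} | ¬g d = d}, ?_, ?_,
    fun A S _ _ _ z => ?_⟩
  · have := sum_cnt π
    simp only [h1, sum_ite, sum_const, smul_eq_mul, Fintype.card_fin] at this
    omega
  · have := card_filter_add_card_filter_not (s := univ) fun k => g k = k
    rw [card_univ, Fintype.card_fin] at this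
    refine Eq.trans ?_ this
    congr 1
    refine card_bij (fun d _ => d.1) (by simp) (fun _ _ _ _ h => Subtype.ext h) fun k hk => ?_
    have := (mem_filter.mp hk).2
    exact ⟨⟨k, this.ge⟩, by simpa using this, rfl⟩
  · have h2 : pw z g = ∑ r : {k // k ≤ g k} → A, ∏ k, z (r (π k)) := by
      refine sum_bij' (fun r _ d => r d.1) (fun r _ => r ∘ π) (by simp) (fun r _ => ?_)
        (fun r hr => ?_) (fun r _ => ?_) fun r hr => ?_
      · simp [π, funext_iff, hg, min_comm]
      · funext k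
        have := congrFun (mem_filter.mp hr).2 k
        rcases le_total k (g k) with h | h
        · simp [π, h]
        · simpa [π, h] using this
      · funext d
        simp [π, d.2]
      · refine prod_congr rfl fun k _ => ?_
        have := congrFun (mem_filter.mp hr).2 k
        rcases le_total k (g k) with h | h
        · simp [π, h]
        · simp only [π, h, min_eq_right]; exact congrArg z this.symm
    have h3 : ∀ r : {k // k ≤ g k} → A, ∏ k, z (r (π k)) = ∏ d, z (r d) ^ cnt π d := by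
      intro r
      rw [← prod_fiberwise' univ π fun d => z (r d)]
      simp [cnt_apply]
    simp only [h2, h3]
    rw [← Fintype.prod_sum fun d a => z a ^ cnt π d]
    simp only [h1, apply_ite (fun e => ∑ a, z a ^ e), prod_ite, prod_const, pow_one]

open MvPolynomial in
theorem gen_EE {S : Type} [CommRing S] [Algebra ℚ S] (v : S) (N n : ℕ) :
    gen (Fin N) (EE 1 v) n =
      PowerSeries.coeff n (EE (∑ i, X i) (C v * ∑ i, X i ^ 2 : MvPolynomial (Fin N) S)) := by
  have h1 : ∀ x u : MvPolynomial (Fin N) S,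
      PowerSeries.rescale x (EE 1 u) = EE x (u * x ^ 2) := by
    intro x u
    rw [EE, EE, map_mul, PowerSeries.rescale_rescale, one_mul]
    congr 1
    ext1 m
    simp only [E2, PowerSeries.coeff_rescale, PowerSeries.coeff_expand]
    split_ifs with h
    · obtain ⟨k, rfl⟩ := h
      rw [Nat.mul_div_cancel_left _ two_pos]; ring
    · simp
  have h2 : ∀ s : Finset (Fin N), ∏ i ∈ s, EE (X i) (C v * X i ^ 2) =
      EE (∑ i ∈ s, X i) (C v * ∑ i ∈ s, X i ^ 2 : MvPolynomial (Fin N) S) := by
    intro s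
    induction s using Finset.induction_on with
    | empty => simp [EE]
    | insert a s ha ih => rw [prod_insert ha, sum_insert ha, sum_insert ha, ih, EE_mul, mul_add]
  simp only [gen, map_EE, map_one, h1, h2]

open MvPolynomial in
theorem coeff_Dt {N : ℕ} (β : Fin N →₀ ℕ) (c b : ℕ)
    (h : ∑ i, β i = c + 2 * b + ∑ j ∈ range N, j)
    (h0 : coeff β (vdm N ℤ * ((∑ i, X i) ^ c * (∑ i, X i ^ 2) ^ b)) = 0) :
    (Dt β (fun j => j) (EE 1 (Polynomial.C (1 / 2 : ℚ) * Polynomial.X))).coeff b = 0 := by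
  have h1 : ∀ i k : ℕ, coeff β (vdm N (Polynomial ℚ) * ((∑ i, X i) ^ i * (∑ i, X i ^ 2) ^ k)) =
      Polynomial.C ((coeff β (vdm N ℤ * ((∑ i, X i) ^ i * (∑ i, X i ^ 2) ^ k)) : ℤ) : ℚ) := by
    intro i k
    rw [map_intCast, ← eq_intCast (Int.castRingHom (Polynomial ℚ)), ← coeff_map]
    simp [map_vdm]
  rw [← coeff_vdm_gen β _ _ h, gen_EE, EE, PowerSeries.coeff_mul, mul_sum, coeff_sum,
    Polynomial.finset_sum_coeff]
  refine sum_eq_zero fun p hp => ?_
  have hp := mem_antidiagonal.mp hp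
  rw [E2, PowerSeries.coeff_expand]
  split_ifs with h2
  swap
  · simp
  have h3 : ∀ x : ℚ, algebraMap ℚ (MvPolynomial (Fin N) (Polynomial ℚ)) x =
      C (Polynomial.C x) := fun _ => rfl
  simp only [PowerSeries.coeff_rescale, PowerSeries.coeff_exp, h3, mul_pow, ← map_pow]
  have h4 : ∀ (a P Q : MvPolynomial (Fin N) (Polynomial ℚ)) (x y z : Polynomial ℚ),
      a * (P * C x * (C y * Q * C z)) = C (x * z * y) * (a * (P * Q)) := by
    intros; simp only [map_mul]; ring
  rw [h4, coeff_C_mul, h1, ← mul_assoc, ← map_mul, ← map_mul, Polynomial.coeff_mul_C,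
    Polynomial.coeff_C_mul, Polynomial.coeff_X_pow]
  split_ifs with h5
  · rw [← h5, show p.1 = c by omega, h0]; simp
  · simp

theorem weight_eq {N n : ℕ} {β : Fin N → ℕ} (hβ : Function.Injective β)
    (h : ∑ i, β i = n + ∑ j ∈ range N, j) : ∃ w k : ℕ, 2 * n = 4 * w + k * (k + 1) ∧
      (w : ℤ) = Wt (fun i : {i // β i % 2 = 0} => β i / 2) +
        Wt (fun i : {i // ¬β i % 2 = 0} => β i / 2) := by
  have w0 := Wt_nonneg (a := fun i : {i // β i % 2 = 0} => β i / 2) fun i j h => by
    have := i.2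
    have := j.2
    exact Subtype.ext (hβ (by simp only at h; omega))
  have w1 := Wt_nonneg (a := fun i : {i // ¬β i % 2 = 0} => β i / 2) fun i j h => by
    have := i.2
    have := j.2
    exact Subtype.ext (hβ (by simp only at h; omega))
  obtain ⟨w, hw⟩ := Int.eq_ofNat_of_zero_le (add_nonneg w0 w1)
  have h2 : ∀ N : ℕ, 2 * ∑ j ∈ range N, (j : ℤ) = N * N - N := by
    intro N
    induction N with
    | zero => simp
    | succ N ih => rw [sum_range_succ, mul_add, ih]; push_cast; ring
  have h3 := congrArg (Nat.cast : ℕ → ℤ) h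
  push_cast at h3
  rw [← Fintype.sum_subtype_add_sum_subtype (fun i => β i % 2 = 0),
    sum_congr rfl (g := fun i : {i // β i % 2 = 0} => 2 * ((β i / 2 : ℕ) : ℤ))
      fun i _ => by have := i.2; omega,
    sum_congr rfl (g := fun i : {i // ¬β i % 2 = 0} => 2 * ((β i / 2 : ℕ) : ℤ) + 1)
      fun i _ => by have := i.2; omega, sum_add_distrib, ← mul_sum, ← mul_sum] at h3
  have h4 := Fintype.sum_subtype_add_sum_subtype (fun i => β i % 2 = 0) fun _ => (1 : ℤ)
  simp only [sum_const, card_univ, nsmul_eq_mul, mul_one, Fintype.card_fin] at h3 h4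
  set a := Fintype.card {i // β i % 2 = 0}
  set b := Fintype.card {i // ¬β i % 2 = 0}
  have h5 : 2 * (n : ℤ) = 4 * w + (b - a) * (b - a + 1) := by
    rw [← hw, Wt, Wt]
    have := h2 N
    rw [← h4] at this
    linear_combination -2 * h3 - this + 2 * h2 a + 2 * h2 b
  rcases le_or_gt a b with h6 | h6
  · refine ⟨w, b - a, ?_, hw.symm⟩
    zify [h6]; exact h5
  · obtain ⟨k, hk⟩ := Nat.exists_eq_add_of_lt h6
    refine ⟨w, k, ?_, hw.symm⟩
    rw [hk] at h5
    zify; push_cast at h5; linear_combination h5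

/-- the arithmetic criterion -/
def Crit (n s : ℕ) : Prop := ∀ w k : ℕ, 2 * n = 4 * w + k * (k + 1) →
  2 ^ s ≤ w ∧ 2 * padicValNat 2 (w / 2 ^ s) ≤ w % 2 ^ s

theorem invol_of_type {n b : ℕ} {g : Perm (Fin n)} (hg : g.cycleType = Multiset.replicate b 2)
    (k : Fin n) : g (g k) = k := by
  have : g ^ 2 = 1 := by
    rw [← orderOf_dvd_iff_pow_eq_one, ← Perm.lcm_cycleType, hg, Multiset.lcm_dvd]
    intro m hm
    rw [Multiset.eq_of_mem_replicate hm]
  simpa [sq] using DFunLike.congr_fun this k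

theorem crit_perm {n s : ℕ} (h : Crit n s) {g : Perm (Fin n)}
    (hg : g.cycleType = Multiset.replicate (2 ^ s) 2) : Nonvanishing g := by
  intro V _ _ _ ρ hρ h0
  obtain ⟨β, h1, h2, m, h3, h4⟩ := frobenius ρ hρ
  obtain ⟨c, b, h5, h6, h7⟩ := pw_invol (invol_of_type hg)
  rw [← Perm.sum_cycleType, hg, Multiset.sum_replicate, smul_eq_mul] at h6
  obtain rfl : b = 2 ^ s := by omega
  obtain ⟨w, k, h8, h9⟩ := weight_eq h1 h2
  refine top h1 w s h9 (h w k h8).1 (h w k h8).2 (coeff_Dt β c _ (by rw [h5, h2]) ?_)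
  rw [h4, chi_cast, chi, h7] at h0
  exact_mod_cast (mul_eq_zero.mp h0).resolve_left (by exact_mod_cast h3)

/-- left regular representation on functions -/
noncomputable def lreg (G : Type) [Group G] : Representation ℂ G (G → ℂ) where
  toFun g := LinearMap.funLeft ℂ ℂ fun h => g⁻¹ * h
  map_one' := by ext; simp
  map_mul' g h := by ext; simp [mul_assoc]

theorem nonvanishing_alt {n : ℕ} (x : alternatingGroup (Fin n)) (τ : Perm (Fin n))
    (hτ : Perm.sign τ = -1) (hc : τ * x * τ⁻¹ = x) (h : Nonvanishing x.1) : Nonvanishing x := by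
  classical
  intro V _ _ _ σ hirr h0
  let y : Perm (Fin n) → Perm (Fin n) := fun i => i * x * i⁻¹
  have hy : ∀ i, y i ∈ alternatingGroup (Fin n) := fun i =>
    (alternatingGroup.normal).conj_mem _ x.2 i
  have hinv : ∀ g, ∃ e : Perm (Fin n) ≃ Perm (Fin n), ∀ i, g * y i * g⁻¹ = y (e i) := fun g =>
    ⟨Equiv.mulLeft g, fun i => by simp [y, mul_assoc]⟩
  have hconj : ∀ i, IsConj x ⟨y i, hy i⟩ := by
    intro i
    rcases Int.units_eq_one_or (Perm.sign i) with h | h
    · exact isConj_iff.mpr ⟨⟨i, h⟩, rfl⟩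
    · refine isConj_iff.mpr ⟨⟨i * τ, by simp [h, hτ]⟩, Subtype.ext ?_⟩
      change i * τ * x * (i * τ)⁻¹ = i * x * i⁻¹
      conv_rhs => rw [← hc]
      group
  obtain ⟨hV, hK⟩ := sum_eq_zero_of_char (fun i => (⟨y i, hy i⟩ : alternatingGroup (Fin n))) x σ
    hirr hconj (fun g => (hinv g).imp fun e he i => Subtype.ext (he i)) h0
  obtain ⟨v, hv⟩ := exists_ne (0 : V)
  obtain ⟨φ, hφ⟩ := not_forall.mp (mt (Module.forall_dual_apply_eq_zero_iff ℂ v).mp hv)
  let f : Perm (Fin n) → ℂ := fun g =>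
    if hg : g ∈ alternatingGroup (Fin n) then φ (σ (⟨g, hg⟩ : alternatingGroup (Fin n))⁻¹ v) else 0
  refine not_nonvanishing y x.1 (lreg _) (fun i => isConj_iff.mpr ⟨i, rfl⟩) hinv f
    (fun hf => ?_) ?_ h
  · have := congrFun hf 1
    simp only [f, one_mem, dif_pos, Pi.zero_apply] at this
    apply hφ
    rw [← this]
    congr 1
    rw [show (⟨1, one_mem _⟩ : alternatingGroup (Fin n)) = 1 from rfl]; simp
  ext g
  have h3 : ∀ i, lreg _ (y i) f g = f ((y i)⁻¹ * g) := fun _ => rfl
  simp only [LinearMap.sum_apply, Finset.sum_apply, h3, f, Pi.zero_apply]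
  by_cases hg : g ∈ alternatingGroup (Fin n)
  · have h1 : ∀ i, (y i)⁻¹ * g ∈ alternatingGroup (Fin n) := fun i =>
      mul_mem (inv_mem (hy i)) hg
    have h2 := congrArg (fun K : Module.End ℂ V =>
      φ (σ (⟨g, hg⟩ : alternatingGroup (Fin n))⁻¹ (K v))) hK
    simp only [LinearMap.sum_apply, map_sum, LinearMap.zero_apply, map_zero] at h2
    rw [← h2]
    refine sum_congr rfl fun i _ => ?_
    rw [dif_pos (h1 i), ← Module.End.mul_apply, ← map_mul]
    have e : (⟨(y i)⁻¹ * g, h1 i⟩ : alternatingGroup (Fin n))⁻¹ =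
        (⟨g, hg⟩ : alternatingGroup (Fin n))⁻¹ * ⟨y i, hy i⟩ := Subtype.ext (by simp)
    rw [e]
  · refine sum_eq_zero fun i _ => dif_neg fun h1 => hg ?_
    simpa using mul_mem (hy i) h1

theorem crit_alt {n s : ℕ} (h : Crit n s) (x : alternatingGroup (Fin n))
    (hx : x.1.cycleType = Multiset.replicate (2 ^ s) 2) : Nonvanishing x := by
  have h1 : x.1 ≠ 1 := by
    intro h1
    rw [h1, Perm.cycleType_one, eq_comm, ← Multiset.card_eq_zero, Multiset.card_replicate] at hx
    exact absurd hx (by positivity)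
  obtain ⟨a, ha⟩ := not_forall.mp (mt Equiv.ext h1)
  refine nonvanishing_alt x (swap a (x.1 a)) (Perm.sign_swap (Ne.symm ha)) ?_ (crit_perm h hx)
  rw [mul_inv_eq_iff_eq_mul, mul_swap_eq_swap_mul, invol_of_type hx, swap_comm]

end Pool.Agent.P.MP_eccc2e_al
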