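import Pool.Agent.P.MP_eccc2e_al.Shape

/-! The finite computation behind the window of second moments. -/

namespace Pool.Agent.P.MP_eccc2e_al

/-- every set bit of the `i`-th entry is a realized value for size `m₀ + i` -/
def Good (L : ℕ) : List ℕ → ℕ → Prop
  | [], _ => True
  | x :: l, m => (∀ u, x.testBit u = true → Hk L m u) ∧ Good L l (m + 1)

/-- merge a row with its shifted copy -/
def merge (p : ℕ) : List ℕ → List ℕ → ℕ → List ℕ
  | x :: l, y :: l', m =>
      Nat.lor x (Nat.land (Nat.shiftLeft y p) (Nat.pred (Nat.shiftLeft 1 (m * m * 30 / 100 + 1)))) ::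
        merge p l l' (m + 1)
  | l, _, _ => l

/-- skip the first entries, then merge -/
def skip (p : ℕ) (l' : List ℕ) : ℕ → List ℕ → ℕ → List ℕ
  | 0, l, m => merge p l l' m
  | _ + 1, [], _ => []
  | k + 1, x :: l, m => x :: skip p l' k l (m + 1)

theorem Good.up {L : ℕ} : ∀ {l m}, Good L l m → Good (L + 1) l m
  | [], _, _ => trivial
  | _ :: _, _, h => ⟨fun u hu => (h.1 u hu).up, h.2.up⟩

theorem good_merge (L : ℕ) : ∀ l l' m, Good L l (m + (2 * L + 1)) → Good L l' m →
    Good (L + 1) (merge (pyr L) l l' (m + (2 * L + 1))) (m + (2 * L + 1))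
  | [], _, _, _, _ => by simp [merge, Good]
  | x :: l, [], m, h, _ => by simpa [merge] using h.up
  | x :: l, y :: l', m, h, h' => by
    refine ⟨fun u hu => ?_, ?_⟩
    · simp only [Nat.lor_eq, Nat.land_eq, Nat.shiftLeft_eq', Nat.testBit_or, Nat.testBit_and,
        Nat.testBit_shiftLeft, Bool.or_eq_true, Bool.and_eq_true, decide_eq_true_eq] at hu
      rcases hu with hu | ⟨⟨h1, h2⟩, -⟩
      · exact (h.1 u hu).up
      · have := (h'.1 _ h2).hook
        rwa [Nat.sub_add_cancel h1] at this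
    · have := good_merge L l l' (m + 1) (by rw [Nat.add_right_comm]; exact h.2) h'.2
      rwa [Nat.add_right_comm] at this

theorem good_skip (L : ℕ) (l' : List ℕ) (hl' : Good L l' 0) : ∀ k l m, m + k = 2 * L + 1 →
    Good L l m → Good (L + 1) (skip (pyr L) l' k l m) m
  | 0, l, m, hm, h => by
    obtain rfl : m = 0 + (2 * L + 1) := by omega
    exact good_merge L l l' 0 h hl'
  | _ + 1, [], _, _, _ => trivial
  | k + 1, x :: l, m, hm, h => ⟨fun u hu => (h.1 u hu).up, good_skip L l' hl' k l (m + 1) (by omega) h.2⟩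

/-- all bits in `[lo, hi]` are set -/
def full (x lo hi : ℕ) : Bool :=
  Nat.beq (Nat.land (Nat.shiftRight x lo) (Nat.pred (Nat.shiftLeft 1 (hi + 1 - lo))))
    (Nat.pred (Nat.shiftLeft 1 (hi + 1 - lo)))

theorem full_sound {x lo hi u : ℕ} (h : full x lo hi = true) (h1 : lo ≤ u) (h2 : u ≤ hi) :
    x.testBit u = true := by
  simp only [full, Nat.beq_eq, Nat.land_eq, Nat.shiftLeft_eq', Nat.shiftRight_eq, Nat.pred_eq_sub_one,
    Nat.one_shiftLeft] at h
  have := congrArg (fun z => z.testBit (u - lo)) h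
  simp only [Nat.testBit_and, Nat.testBit_shiftRight, Nat.testBit_two_pow_sub_one] at this
  rw [Nat.add_sub_cancel' h1, decide_eq_true (by omega), Bool.and_true] at this
  exact this

/-- check the windows of one row -/
def chk (L : ℕ) : List ℕ → ℕ → Bool
  | [], m => Nat.blt 690 m
  | x :: l, m => (Nat.blt m 590 || full x ((16 * (m * m) + 99) / 100)
      (min (26 * (m * m)) (3 * (m * m) + 7 * ((L + 1) * (L + 1)) * m) / 100)) && chk L l (m + 1)

theorem chk_sound (L : ℕ) : ∀ l m₀, chk L l m₀ = true → Good L l m₀ → ∀ m u, m₀ ≤ m → 590 ≤ m →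
    m ≤ 690 → Win m L u → Hk L m u
  | [], m₀, h, _, m, u, h1, _, h3, _ => by
    simp only [chk, Nat.blt_eq] at h; omega
  | x :: l, m₀, h, hG, m, u, h1, h2, h3, hW => by
    simp only [chk, Bool.and_eq_true, Bool.or_eq_true, Nat.blt_eq] at h
    rcases h1.eq_or_lt with rfl | h1
    · obtain ⟨w1, w2, w3⟩ := hW
      simp only [sq] at w1 w2 w3
      refine hG.1 u (full_sound (h.1.resolve_left (by omega)) (by omega) ?_)
      rw [Nat.le_div_iff_mul_le (by norm_num), le_min_iff]
      omega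
    · exact chk_sound L l (m₀ + 1) h.2 hG.2 m u h1 h2 h3 hW

/-- run the recursion -/
def run : ℕ → ℕ → List ℕ → Bool
  | 0, _, _ => true
  | f + 1, L, l => chk L l 0 && run f (L + 1) (skip (pyr L) l (2 * L + 1) l 0)

theorem run_sound : ∀ f L l, run f L l = true → Good L l 0 → ∀ L', L ≤ L' → L' < L + f →
    ∀ m u, 590 ≤ m → m ≤ 690 → Win m L' u → Hk L' m u
  | 0, _, _, _, _, _, _, _ => by omega
  | f + 1, L, l, h, hG, L', h1, h2 => by
    simp only [run, Bool.and_eq_true] at h
    rcases h1.eq_or_lt with rfl | h1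
    · exact fun m u => chk_sound L l 0 h.1 hG m u (Nat.zero_le _)
    · exact run_sound f (L + 1) _ h.2 (good_skip L l hG _ l 0 (by omega) hG) L' h1 (by omega)

theorem run_true : run 46 2 (1 :: List.replicate 690 0) = true := by decide +kernel

theorem good_replicate (L : ℕ) : ∀ k m, Good L (List.replicate k 0) m
  | 0, _ => trivial
  | k + 1, m => ⟨fun u hu => by simp at hu, good_replicate L k (m + 1)⟩

theorem hk_of_win (L m u : ℕ) (hm : 590 ≤ m) (h : Win m L u) : Hk L m u := by
  refine hk_of_base (fun m L u h1 h2 hW => ?_) L m u hm h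
  have hG : Good 2 (1 :: List.replicate 690 0) 0 := ⟨fun u hu => by
    rw [Nat.testBit_one_eq_true_iff_self_eq_zero.mp hu]; exact Hk.base, good_replicate _ _ _⟩
  have key := run_sound 46 2 _ run_true hG
  obtain ⟨w1, w2, w3⟩ := hW
  by_cases hL : L < 2
  · exfalso
    interval_cases L <;> nlinarith
  by_cases hL' : L < 48
  · exact key L (by omega) hL' m u h1 h2 ⟨w1, w2, w3⟩
  · exact (key 47 (by omega) (by omega) m u h1 h2 ⟨w1, w2, by nlinarith⟩).mono (by omega)

theorem shape_of_win {s : ℕ} {e : ℤ} {v : ℕ} (hs : Shape s 2 2 e v) (m u : ℕ) (hm : 590 ≤ m)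
    (h1 : 16 * m ^ 2 ≤ 100 * u) (h2 : 100 * u ≤ 26 * m ^ 2) : Shape (s + m) m m e (v + 2 * u) :=
  (hk_of_win m m u hm ⟨h1, h2, by nlinarith [Nat.zero_le (m ^ 3)]⟩).shape hs

theorem shape_two : Shape 2 2 2 1 1 := by
  obtain ⟨D, h1, h2, h3, h4⟩ := shape_zero.hook (a := 1) (b := 0) (by omega) le_rfl
  exact ⟨D, h1, h2, fun p hp => by have := h3 p hp; omega, by simpa [tri, pyr] using h4⟩

end Pool.Agent.P.MP_eccc2e_al
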