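import Pool.Agent.P.MP_eccc2e_al.Top
import Pool.Agent.P.MP_e983f0_al.Abstract

/-! The Frobenius character formula for symmetric groups. -/

namespace Pool.Agent.P.MP_eccc2e_al

open Equiv Finset

section words
variable {α A : Type} [Fintype α] [DecidableEq α] [Fintype A] [DecidableEq A]

/-- content of a word -/
noncomputable def cnt (r : α → A) : A →₀ ℕ :=
  Finsupp.equivFunOnFinite.symm fun a => #{k | r k = a}

theorem cnt_apply (r : α → A) (a : A) : cnt r a = #{k | r k = a} := rfl

theorem cnt_comp (r : α → A) (σ : Perm α) : cnt (r ∘ σ) = cnt r := by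
  ext a
  exact card_equiv σ (by simp)

theorem exists_perm {r r' : α → A} (h : cnt r' = cnt r) : ∃ σ : Perm α, r ∘ σ = r' := by
  have e : ∀ a, {k // r' k = a} ≃ {k // r k = a} := fun a => Fintype.equivOfCardEq (by
    rw [Fintype.card_subtype, Fintype.card_subtype, ← cnt_apply, ← cnt_apply, h])
  exact ⟨ofFiberEquiv e, funext (ofFiberEquiv_map e)⟩

theorem sum_cnt (r : α → A) : ∑ a, cnt r a = Fintype.card α :=
  (card_eq_sum_card_fiberwise (by simp)).symm

theorem exists_word (μ : A →₀ ℕ) (h : ∑ a, μ a = Fintype.card α) : ∃ r : α → A, cnt r = μ := by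
  have e : α ≃ Σ a, Fin (μ a) := Fintype.equivOfCardEq (by simp [h])
  refine ⟨fun k => (e k).1, ?_⟩
  ext a
  rw [cnt_apply, card_equiv (t := univ.filter fun p => p.1 = a) e (by simp), card_filter,
    Fintype.sum_sigma]
  simp [apply_ite]

/-- number of words of content `μ` fixed by `g` -/
noncomputable def psi (μ : A →₀ ℕ) (g : Perm α) : ℕ := #{r : α → A | r ∘ g = r ∧ cnt r = μ}

theorem orbit_sum {K : Type} [CommRing K] (φ : Perm α → K) (hφ : ∀ g h, φ (h * g * h⁻¹) = φ g)
    (r₀ : α → A) : (#{σ : Perm α | r₀ ∘ σ = r₀} : K) * ∑ g, φ g * psi (cnt r₀) g =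
      (Fintype.card α).factorial * ∑ h ∈ univ.filter (fun h : Perm α => r₀ ∘ h = r₀), φ h := by
  let F : (α → A) → K := fun r => ∑ h ∈ univ.filter (fun h : Perm α => r ∘ h = r), φ h
  have h1 : ∀ σ : Perm α, F (r₀ ∘ σ) = F r₀ := by
    intro σ
    refine sum_equiv (MulAut.conj σ).toEquiv (fun g => ?_) fun g _ => (hφ g σ).symm
    simp only [mem_filter, mem_univ, true_and, funext_iff]
    exact ⟨fun h x => by simpa using h (σ.symm x), fun h x => by simpa using h (σ x)⟩
  have h2 : ∑ g, φ g * psi (cnt r₀) g = ∑ r with cnt r = cnt r₀, F r := by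
    simp only [psi, F, card_filter, sum_filter, Nat.cast_sum, mul_sum]
    rw [sum_comm]
    refine sum_congr rfl fun r _ => ?_
    split_ifs with h <;> simp [h]
  have h3 : ∑ σ : Perm α, F (r₀ ∘ σ) =
      ∑ r with cnt r = cnt r₀, (#{σ : Perm α | r₀ ∘ σ = r₀} : K) * F r := by
    rw [← sum_fiberwise_of_maps_to (t := univ.filter fun r => cnt r = cnt r₀)
      (g := fun σ : Perm α => r₀ ∘ σ) (by simp [cnt_comp])]
    refine sum_congr rfl fun r hr => ?_
    obtain ⟨τ, rfl⟩ := exists_perm (mem_filter.mp hr).2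
    rw [sum_congr rfl fun σ hσ => congrArg F (mem_filter.mp hσ).2, sum_const, nsmul_eq_mul]
    congr 2
    refine (card_equiv (Equiv.mulRight τ) fun σ => ?_).symm
    simp only [mem_filter, mem_univ, true_and, funext_iff]
    exact ⟨fun h x => by simpa using h (τ x), fun h x => by simpa using h (τ.symm x)⟩
  rw [h2, mul_sum, ← h3]
  simp only [h1, sum_const, card_univ, Fintype.card_perm, nsmul_eq_mul]
  rfl

theorem sum_psi (μ : A →₀ ℕ) (h : ∑ a, μ a = Fintype.card α) :
    ∑ g : Perm α, psi μ g = (Fintype.card α).factorial := by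
  obtain ⟨r, rfl⟩ := exists_word (α := α) μ h
  have h1 := orbit_sum (fun _ => (1 : ℤ)) (fun _ _ => rfl) r
  have h2 : 0 < #{σ : Perm α | r ∘ σ = r} := card_pos.mpr ⟨1, by simp⟩
  simp only [one_mul, sum_const, nsmul_eq_mul, mul_one] at h1
  rw [mul_comm] at h1
  exact_mod_cast mul_right_cancel₀ (by exact_mod_cast h2.ne') h1

theorem psi_eq_zero (μ : A →₀ ℕ) (h : ∑ a, μ a ≠ Fintype.card α) (g : Perm α) : psi μ g = 0 := by
  rw [psi, card_eq_zero, filter_eq_empty_iff]
  rintro r - ⟨-, rfl⟩
  exact h (sum_cnt r)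

variable {S : Type} [CommRing S]

/-- power sum attached to a permutation -/
noncomputable def pw (z : A → S) (g : Perm α) : S := ∑ r : α → A with r ∘ g = r, ∏ k, z (r k)

theorem pw_eq (z : A → S) (g : Perm α) : pw z g =
    ∑ μ ∈ finsuppAntidiag univ (Fintype.card α), psi μ g * ∏ a, z a ^ μ a := by
  rw [pw, ← sum_fiberwise_of_maps_to (t := finsuppAntidiag univ (Fintype.card α)) (g := cnt)
    (by simp [sum_cnt])]
  refine sum_congr rfl fun μ _ => ?_
  rw [filter_filter, psi, ← nsmul_eq_mul, ← sum_const]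
  refine sum_congr rfl fun r hr => ?_
  rw [← (mem_filter.mp hr).2.2, ← prod_fiberwise' univ r]
  simp [cnt_apply]

theorem map_pw {T : Type} [CommRing T] (φ : S →+* T) (z : A → S) (g : Perm α) :
    φ (pw z g) = pw (fun a => φ (z a)) g := by simp [pw]

theorem pw_mul (x y : A → S) (g : Perm α) :
    pw (fun p : A × A => x p.1 * y p.2) g = pw x g * pw y g := by
  rw [pw, pw, pw, sum_mul_sum, ← sum_product']
  refine sum_equiv (arrowProdEquivProdArrow _ _ _) (fun r => ?_) fun r _ => ?_
  · simp [funext_iff, Prod.ext_iff, forall_and]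
  · simp [prod_mul_distrib]

open PowerSeries in
theorem polya (z : A → S) : ∑ g : Perm α, pw z g =
    (Fintype.card α).factorial * coeff (Fintype.card α) (∏ a, rescale (z a) (mk 1)) := by
  simp only [pw_eq]
  rw [sum_comm, coeff_prod, mul_sum]
  refine sum_congr rfl fun μ hμ => ?_
  rw [← sum_mul, ← Nat.cast_sum, sum_psi μ (mem_finsuppAntidiag.mp hμ).1]
  simp

open MvPolynomial

theorem mono_eq (μ : A →₀ ℕ) (c : S) : C c * ∏ a, X a ^ μ a = monomial μ c := by
  rw [monomial_eq, Finsupp.prod_fintype _ _ (by simp)]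

theorem coeff_pw (μ : A →₀ ℕ) (g : Perm α) : coeff μ (pw (X : A → MvPolynomial A S) g) = psi μ g := by
  simp only [pw_eq, ← map_natCast (C : S →+* MvPolynomial A S), mono_eq, coeff_sum, coeff_monomial,
    sum_ite_eq', mem_finsuppAntidiag, subset_univ, and_true]
  split_ifs with h
  · rfl
  · simp [psi_eq_zero μ h]

/-- homogeneous part of a product of series -/
noncomputable def gen (A : Type) [Fintype A] (F : PowerSeries S) (n : ℕ) : MvPolynomial A S :=
  PowerSeries.coeff n (∏ j, PowerSeries.rescale (X j) (PowerSeries.map C F))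

theorem coeff_gen (F : PowerSeries S) (μ : A →₀ ℕ) :
    coeff μ (gen A F (∑ a, μ a)) = ∏ j, PowerSeries.coeff (μ j) F := by
  simp only [gen, PowerSeries.coeff_prod, PowerSeries.coeff_rescale, PowerSeries.coeff_map,
    prod_mul_distrib, ← map_prod, mul_comm _ (C _), mono_eq, coeff_sum, coeff_monomial,
    sum_ite_eq', mem_finsuppAntidiag, subset_univ, and_true, if_true]

end words

section alt
open MvPolynomial
variable {N : ℕ} {S : Type} [CommRing S]

/-- the Vandermonde determinant -/
noncomputable def vdm (N : ℕ) (S : Type) [CommRing S] : MvPolynomial (Fin N) S :=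
  (Matrix.of fun j i : Fin N => X i ^ (j : ℕ)).det

/-- permuted staircase -/
noncomputable def stair (σ : Perm (Fin N)) : Fin N →₀ ℕ :=
  Finsupp.equivFunOnFinite.symm fun i => σ i

theorem coeff_vdm (β : Fin N →₀ ℕ) (P : MvPolynomial (Fin N) S) : coeff β (vdm N S * P) =
    ∑ σ, if stair σ ≤ β then ((Perm.sign σ : ℤ) : S) * coeff (β - stair σ) P else 0 := by
  rw [vdm, Matrix.det_apply', sum_mul, coeff_sum]
  refine sum_congr rfl fun σ _ => ?_
  rw [← coeff_monomial_mul', ← mono_eq, map_intCast]; rfl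

theorem sum_stair {σ : Perm (Fin N)} {β : Fin N →₀ ℕ} (h : stair σ ≤ β) :
    ∑ i, β i = ∑ i, (β - stair σ) i + ∑ j ∈ range N, j := by
  rw [← Fin.sum_univ_eq_sum_range (fun j => j), ← Equiv.sum_comp σ fun j => (j : ℕ),
    ← sum_add_distrib]
  exact sum_congr rfl fun i _ => (Nat.sub_add_cancel (h i)).symm

theorem coeff_vdm_gen (β : Fin N →₀ ℕ) (F : PowerSeries S) (n : ℕ)
    (h : ∑ i, β i = n + ∑ j ∈ range N, j) :
    coeff β (vdm N S * gen (Fin N) F n) = Dt β (fun j => j) F := by
  rw [coeff_vdm, Dt, ← Matrix.det_transpose, Matrix.det_apply']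
  refine sum_congr rfl fun σ _ => ?_
  simp only [Matrix.transpose_apply, Matrix.of_apply, PowerSeries.coeff_X_pow_mul']
  split_ifs with h1
  · have h2 := sum_stair h1
    rw [show n = ∑ i, (β - stair σ) i by omega, coeff_gen]
    congr 1
    exact prod_congr rfl fun i _ => (if_pos (h1 i)).symm
  · obtain ⟨i, hi⟩ := not_forall.mp h1
    rw [prod_eq_zero (mem_univ i) (if_neg hi), mul_zero]

theorem map_vdm {T : Type} [CommRing T] (φ : S →+* T) : map φ (vdm N S) = vdm N T := by
  rw [vdm, vdm, RingHom.map_det]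
  congr 1; ext1 i j; simp

end alt

open PowerSeries in
theorem jacobi_trudi {N : ℕ} {S : Type} [CommRing S] (x : Fin N → S) (β : Fin N → ℕ) :
    Dt β (fun j => j) (∏ i, rescale (x i) (mk 1)) * (Matrix.of fun j i : Fin N => x i ^ (j : ℕ)).det =
      (Matrix.of fun j i => x i ^ β j).det := by
  set H : S⟦X⟧ := ∏ i, rescale (x i) (mk 1) with hH
  have h1 : ∀ s : Finset (Fin N), ∀ j, #s < j → coeff j (∏ l ∈ s, (1 - C (x l) * X)) = 0 := by
    intro s
    induction s using Finset.induction_on with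
    | empty => intro j hj; rw [prod_empty, coeff_one, if_neg (by omega)]
    | insert a s ha ih =>
      intro j hj
      rw [card_insert_of_notMem ha] at hj
      obtain ⟨j, rfl⟩ : ∃ i, j = i + 1 := ⟨j - 1, by omega⟩
      rw [prod_insert ha, sub_mul, one_mul, map_sub, mul_assoc, coeff_C_mul, coeff_succ_X_mul,
        ih _ (by omega), ih _ (by omega)]
      simp
  let P : Fin N → S⟦X⟧ := fun k => ∏ l ∈ univ.erase k, (1 - C (x l) * X)
  have h2 : ∀ k, P k = ∑ j : Fin N, C (coeff j (P k)) * X ^ (j : ℕ) := by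
    intro k
    ext m
    simp only [map_sum, coeff_C_mul, coeff_X_pow, mul_ite, mul_one, mul_zero]
    by_cases hm : m < N
    · rw [sum_eq_single ⟨m, hm⟩ (fun j _ hj => if_neg fun h => hj (Fin.ext h.symm)) (by simp),
        if_pos rfl]
    · rw [h1 _ _ (by have := k.2; simp; omega)]
      exact (sum_eq_zero fun j _ => if_neg (by omega)).symm
  have h3 : ∀ k, H * P k = rescale (x k) (mk 1) := by
    intro k
    rw [hH, ← mul_prod_erase _ _ (mem_univ k), mul_assoc, ← prod_mul_distrib, prod_eq_one, mul_one]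
    intro l _
    have := congrArg (rescale (x l)) (mk_one_mul_one_sub_eq_one S)
    rwa [map_mul, map_sub, map_one, rescale_X] at this
  have h4 : ∀ γ : Fin N → ℕ, Dt γ (fun j => j) H * (Matrix.of fun j k : Fin N => coeff j (P k)).det =
      (Matrix.of fun j i => x i ^ γ j).det := by
    intro γ
    rw [Dt, ← Matrix.det_mul]
    congr 1; ext i k
    have := congrArg (coeff (γ i)) (h3 k)
    rw [h2, mul_sum, map_sum, coeff_rescale, coeff_mk, Pi.one_apply, mul_one] at this
    rw [Matrix.mul_apply, Matrix.of_apply, ← this]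
    refine sum_congr rfl fun j _ => ?_
    rw [mul_left_comm, coeff_C_mul, mul_comm H, mul_comm]; rfl
  have h5 : Dt (fun j : Fin N => (j : ℕ)) (fun j => j) H = 1 := by
    rw [Dt, Matrix.det_of_lowerTriangular]
    · have : constantCoeff H = 1 := by
        rw [hH, map_prod]
        refine prod_eq_one fun i _ => ?_
        rw [← coeff_zero_eq_constantCoeff_apply, coeff_rescale]; simp
      simp [coeff_X_pow_mul', this]
    · intro i j hij
      rw [Matrix.of_apply, coeff_X_pow_mul', if_neg (by simpa using hij)]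
  rw [← h4, ← h4, h5, one_mul]

section main
open MvPolynomial
variable {α : Type} [Fintype α] [DecidableEq α] {N : ℕ}

/-- the Frobenius coefficient -/
noncomputable def chi (S : Type) [CommRing S] (β : Fin N →₀ ℕ) (g : Perm α) : S :=
  coeff β (vdm N S * pw X g)

theorem chi_eq (S : Type) [CommRing S] (β : Fin N →₀ ℕ) (g : Perm α) : chi S β g =
    ∑ σ, if stair σ ≤ β then ((Perm.sign σ : ℤ) : S) * psi (β - stair σ) g else 0 := by
  simp only [chi, coeff_vdm, coeff_pw]

theorem chi_cast (S : Type) [CommRing S] (β : Fin N →₀ ℕ) (g : Perm α) :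
    chi S β g = (chi ℤ β g : ℤ) := by
  simp [chi_eq, apply_ite (Int.cast : ℤ → S)]

theorem chi_deg {β : Fin N →₀ ℕ} {g : Perm α} (h : chi ℤ β g ≠ 0) :
    ∑ i, β i = Fintype.card α + ∑ j ∈ range N, j := by
  rw [chi_eq] at h
  obtain ⟨σ, -, h1⟩ := exists_ne_zero_of_sum_ne_zero h
  have h2 : stair σ ≤ β := by by_contra h2; exact h1 (if_neg h2)
  rw [sum_stair h2]
  congr 1
  by_contra h3
  simp [psi_eq_zero _ h3] at h1

theorem chi_norm {β : Fin N →₀ ℕ} (h : ∑ i, β i = Fintype.card α + ∑ j ∈ range N, j) :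
    ∑ g : Perm α, chi ℤ β g * chi ℤ β g =
      if Function.Injective β then ((Fintype.card α).factorial : ℤ) else 0 := by
  let K := MvPolynomial (Fin N) ℤ
  set H : PowerSeries K := ∏ i, PowerSeries.rescale (X i) (PowerSeries.mk 1) with hH
  have h1 : ∑ g : Perm α, C (pw X g) * pw X g =
      ((Fintype.card α).factorial : MvPolynomial (Fin N) K) * gen (Fin N) H (Fintype.card α) := by
    have := polya (α := α) fun p : Fin N × Fin N => (C (X p.1) * X p.2 : MvPolynomial (Fin N) K)
    simp only [pw_mul (fun i => (C (X i) : MvPolynomial (Fin N) K)) X, ← map_pw] at this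
    rw [this, gen, Fintype.prod_prod_type_right]
    congr 2
    refine prod_congr rfl fun j _ => ?_
    rw [hH, map_prod, map_prod]
    refine prod_congr rfl fun i _ => ?_
    ext1 m
    simp [mul_pow, mul_comm]
  have h2 : ∑ g : Perm α, pw X g * chi K β g =
      ((Fintype.card α).factorial : K) * Dt β (fun j => j) H := by
    have := congrArg (fun P => coeff β (vdm N K * P)) h1
    simp only [mul_sum, coeff_sum, mul_left_comm (vdm N K), coeff_C_mul] at this
    rwa [← map_natCast C, coeff_C_mul, coeff_vdm_gen _ _ _ h] at this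
  have h3 := congrArg (fun P => coeff β (P * vdm N ℤ)) h2
  simp only [sum_mul, coeff_sum, chi_cast K] at h3
  rw [mul_assoc, vdm, jacobi_trudi, ← map_natCast C, coeff_C_mul] at h3
  have h4 : ∀ g : Perm α, coeff β (pw X g * ((chi ℤ β g : ℤ) : K) *
      (Matrix.of fun j i : Fin N => X i ^ (j : ℕ)).det) = chi ℤ β g * chi ℤ β g := by
    intro g
    rw [mul_right_comm, mul_comm, ← map_intCast (C : ℤ →+* K), coeff_C_mul, mul_comm (pw X g)]; rfl
  rw [← sum_congr rfl fun g _ => h4 g, ← coeff_sum, ← sum_mul]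
  refine h3.trans ?_
  split_ifs with hβ
  · rw [Matrix.det_apply', coeff_sum, sum_eq_single 1]
    · have := mono_eq β (1 : ℤ)
      rw [map_one, one_mul] at this
      simp [this]
    · intro σ _ hσ
      have := mono_eq (Finsupp.equivFunOnFinite.symm fun i => β (σ i)) ((Perm.sign σ : ℤ) : ℤ)
      rw [← map_intCast (C : ℤ →+* K)]
      refine (congrArg (coeff β) this).trans ?_
      rw [coeff_monomial, if_neg]
      intro h5
      exact hσ (Equiv.ext fun i => hβ (DFunLike.congr_fun h5 i))
    · simp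
  · obtain ⟨i, j, h5, h6⟩ := Function.not_injective_iff.mp hβ
    rw [Matrix.det_zero_of_row_eq h6 (by ext1 k; simp [h5])]; simp

theorem psi_int {A V : Type} [Fintype A] [DecidableEq A] [AddCommGroup V] [Module ℂ V]
    [FiniteDimensional ℂ V] (ρ : Representation ℂ (Perm α) V) (μ : A →₀ ℕ) :
    ∃ m : ℤ, ∑ g, ρ.character g * psi μ g = (Fintype.card α).factorial * m := by
  by_cases h : ∑ a, μ a = Fintype.card α
  swap
  · exact ⟨0, by simp [psi_eq_zero μ h]⟩
  obtain ⟨r, rfl⟩ := exists_word (α := α) μ h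
  let H : Subgroup (Perm α) :=
    { carrier := {σ | r ∘ σ = r}
      mul_mem' := fun {a b} ha hb => by
        change (r ∘ a) ∘ b = r
        rw [ha, hb]
      one_mem' := rfl
      inv_mem' := fun {a} ha => funext fun x => by simpa using (congrFun ha (a.symm x)).symm }
  have h1 := orbit_sum ρ.character ρ.char_conj r
  classical
  obtain ⟨m, hm⟩ := MP_e983f0_al.nat_avg (FDRep.of ρ) H.subtype 1
  have h2 : ∑ h ∈ univ.filter (fun h : Perm α => r ∘ h = r), ρ.character h =
      (#{σ : Perm α | r ∘ σ = r} : ℂ) * m := by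
    rw [sum_subtype (p := fun σ => σ ∈ H) _ (by simp [H]), ← Fintype.card_subtype]
    simp only [MonoidHom.one_apply, one_mul] at hm
    convert hm using 1
    · rfl
    · congr!
  have h3 : 0 < #{σ : Perm α | r ∘ σ = r} := card_pos.mpr ⟨1, by simp⟩
  rw [h2, mul_left_comm] at h1
  exact ⟨m, mul_left_cancel₀ (by exact_mod_cast h3.ne') h1⟩

theorem frobenius {V : Type} [AddCommGroup V] [Module ℂ V] [FiniteDimensional ℂ V]
    (ρ : Representation ℂ (Perm (Fin N)) V) (hρ : ρ.IsIrreducible) :
    ∃ β : Fin N →₀ ℕ, Function.Injective β ∧ ∑ i, β i = N + ∑ j ∈ range N, j ∧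
      ∃ m : ℤ, m ≠ 0 ∧ ∀ g, ρ.character g = m * chi ℂ β g := by
  have hN : ((N.factorial : ℕ) : ℂ) ≠ 0 := by exact_mod_cast N.factorial_ne_zero
  have hc : (Nat.card (Perm (Fin N)) : ℂ) = N.factorial := by simp [Fintype.card_perm]
  let _ : Invertible (Nat.card (Perm (Fin N)) : ℂ) := invertibleOfNonzero (hc ▸ hN)
  have h0 : MP_e983f0_al.ip ρ.character ρ.character = N.factorial := by
    have h := ρ.char_orthonormal ρ
    rw [if_pos ⟨Representation.Equiv.refl ρ⟩, hc, inv_mul_eq_one₀ hN] at h
    rw [h]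
    refine sum_congr rfl fun g _ => ?_
    rw [mul_comm]
    exact congrArg _ (MP_e983f0_al.char_inv_conj (FDRep.of ρ) g).symm
  have h1 : vdm N ℂ * ∑ g, C (ρ.character g) * pw X g ≠ 0 := by
    refine mul_ne_zero ?_ fun h => ?_
    · rw [vdm, ← Matrix.det_transpose]
      exact Matrix.det_vandermonde_ne_zero_iff.mpr X_injective
    · have h2 := congrArg (coeff (cnt id)) h
      have h3 := orbit_sum ρ.character ρ.char_conj id
      have h4 : univ.filter (fun h : Perm (Fin N) => id ∘ h = id) = {1} := by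
        ext σ; simp [Equiv.ext_iff, funext_iff]
      simp only [coeff_sum, coeff_C_mul, coeff_pw, coeff_zero] at h2
      rw [h2, h4, mul_zero, sum_singleton, ρ.char_one, Fintype.card_fin] at h3
      have h5 : Module.finrank ℂ V = 0 := by exact_mod_cast (mul_eq_zero.mp h3.symm).resolve_left hN
      have : Subsingleton V := Module.finrank_zero_iff.mp h5
      apply hN
      rw [← h0]
      simp [MP_e983f0_al.ip, Representation.character, Subsingleton.elim (ρ _) 0]
  obtain ⟨β, hβ⟩ := ne_zero_iff.mp h1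
  simp only [mul_sum, coeff_sum, mul_left_comm (vdm N ℂ), coeff_C_mul] at hβ
  change ∑ g, ρ.character g * chi ℂ β g ≠ 0 at hβ
  obtain ⟨g₀, -, h2⟩ := exists_ne_zero_of_sum_ne_zero hβ
  have h3 : chi ℤ β g₀ ≠ 0 := fun h => h2 (by rw [chi_cast, h]; simp)
  have h4 := chi_deg h3
  have h5 := chi_norm h4
  have h6 : Function.Injective β := by
    by_contra h
    rw [if_neg h, sum_eq_zero_iff_of_nonneg fun g _ => mul_self_nonneg _] at h5
    exact h3 (mul_self_eq_zero.mp (h5 g₀ (mem_univ _)))
  rw [if_pos h6, Fintype.card_fin] at h5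
  obtain ⟨m, hm⟩ : ∃ m : ℤ, ∑ g, ρ.character g * chi ℂ β g = N.factorial * m := by
    choose m hm using psi_int (A := Fin N) ρ
    refine ⟨∑ σ, if stair σ ≤ β then (Perm.sign σ : ℤ) * m (β - stair σ) else 0, ?_⟩
    simp only [chi_eq, mul_sum, Int.cast_sum]
    rw [sum_comm]
    refine sum_congr rfl fun σ _ => ?_
    split_ifs
    · simp only [mul_left_comm _ ((Perm.sign σ : ℤ) : ℂ), ← mul_sum, hm, Fintype.card_fin,
        Int.cast_mul]
    · simp
  have hm0 : m ≠ 0 := by rintro rfl; simp [hm] at hβ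
  refine ⟨β, h6, by simpa using h4, m, hm0, fun g => ?_⟩
  have h7 : MP_e983f0_al.ip (fun g => m * chi ℂ β g) ρ.character = N.factorial * (m * m) := by
    simp only [MP_e983f0_al.ip, map_mul, map_intCast, chi_cast ℂ] at hm ⊢
    rw [mul_left_comm, ← hm, mul_sum]
    exact sum_congr rfl fun g _ => by ring
  have h8 : MP_e983f0_al.ip (fun g : Perm (Fin N) => m * chi ℂ β g) (fun g => m * chi ℂ β g) =
      N.factorial * (m * m) := by
    have := congrArg (Int.cast : ℤ → ℂ) h5
    push_cast at this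
    simp only [MP_e983f0_al.ip, map_mul, map_intCast, chi_cast ℂ]
    rw [← this, sum_mul]
    exact sum_congr rfl fun g _ => by ring
  have h9 := MP_e983f0_al.ip_self_eq_zero (ρ.character - fun g => m * chi ℂ β g) (by
    rw [MP_e983f0_al.ip_sub_left, MP_e983f0_al.ip_sub_right, MP_e983f0_al.ip_sub_right,
      MP_e983f0_al.ip_conj (fun g => m * chi ℂ β g) ρ.character, h0, h7, h8]
    have : (1 : ℝ) ≤ m * m := by exact_mod_cast (mul_self_pos.mpr hm0 : 0 < m * m)
    have hp : (0 : ℝ) ≤ N.factorial := Nat.cast_nonneg _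
    simp
    nlinarith)
  exact sub_eq_zero.mp (congrFun h9 g)

end main

end Pool.Agent.P.MP_eccc2e_al
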