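import Mathlib

/-! Jucys-Murphy elements and their joint spectrum (Okounkov-Vershik). -/

namespace Pool.Agent.P.MP_eccc2e_al

open Module Equiv

section
variable {n : ℕ} {V : Type} [AddCommGroup V] [Module ℂ V]
  (ρ : Representation ℂ (Perm (Fin n)) V)

/-- Jucys-Murphy element. -/
noncomputable def X (k : Fin n) : End ℂ V := ∑ j ∈ Finset.Iio k, ρ (swap j k)

theorem conj_swap (g : Perm (Fin n)) (a b : Fin n) :
    ρ g * ρ (swap a b) = ρ (swap (g a) (g b)) * ρ g := by
  rw [← map_mul, ← map_mul, mul_swap_eq_swap_mul]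

theorem X_comm (g : Perm (Fin n)) (k : Fin n) (hk : g k = k) (h : ∀ j, j < k ↔ g j < k) :
    ρ g * X ρ k = X ρ k * ρ g := by
  unfold X
  rw [Finset.mul_sum, Finset.sum_mul]
  refine Finset.sum_equiv g (fun j => by simpa using h j) fun j _ => ?_
  rw [conj_swap, hk]

theorem X_comm_swap (a b k : Fin n) (h : (a < k ∧ b < k) ∨ (k < a ∧ k < b)) :
    ρ (swap a b) * X ρ k = X ρ k * ρ (swap a b) := by
  apply X_comm
  · apply swap_apply_of_ne_of_ne <;> rcases h with h | h <;> omega
  · intro j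
    rw [swap_apply_def]
    split_ifs <;> rcases h with h | h <;> omega

theorem X_comm_X (k l : Fin n) : X ρ k * X ρ l = X ρ l * X ρ k := by
  wlog h : k < l generalizing k l
  · rcases eq_or_lt_of_le (not_lt.mp h) with h | h
    · rw [h]
    · exact (this l k h).symm
  conv_lhs => rw [X]
  conv_rhs => rw [X.eq_1 ρ k]
  rw [Finset.mul_sum, Finset.sum_mul]
  refine Finset.sum_congr rfl fun j hj => X_comm_swap ρ _ _ _ (Or.inl ⟨?_, h⟩)
  exact (Finset.mem_Iio.mp hj).trans h

theorem swap_sq (a b : Fin n) : ρ (swap a b) * ρ (swap a b) = 1 := by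
  rw [← map_mul, swap_mul_self, map_one]

theorem X_succ (i i' : Fin n) (h : i'.val = i.val + 1) :
    X ρ i' * ρ (swap i i') = ρ (swap i i') * X ρ i + 1 := by
  have hI : Finset.Iio i' = insert i (Finset.Iio i) := by
    ext j; simp only [Finset.mem_Iio, Finset.mem_insert]; omega
  unfold X
  rw [hI, Finset.sum_insert (by simp), add_mul, swap_sq, add_comm, Finset.mul_sum, Finset.sum_mul]
  congr 1
  refine Finset.sum_congr rfl fun j hj => ?_
  have hj := Finset.mem_Iio.mp hj
  rw [conj_swap ρ (swap i i'), swap_apply_left, swap_apply_of_ne_of_ne (by omega) (by omega)]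

theorem X_succ' (i i' : Fin n) (h : i'.val = i.val + 1) :
    X ρ i * ρ (swap i i') = ρ (swap i i') * X ρ i' - 1 := by
  have h1 := X_succ ρ i i' h
  have h2 := swap_sq ρ i i'
  set s := ρ (swap i i')
  have : s * X ρ i' = s * (X ρ i' * s) * s := by rw [mul_assoc, mul_assoc, h2, mul_one]
  rw [this, h1, mul_add, ← mul_assoc, h2, add_mul, mul_one, h2, one_mul, add_sub_cancel_right]

end

/-- The local rules satisfied by the joint spectrum. -/
structure OV (n : ℕ) (S : Set (ℕ → ℂ)) : Prop where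
  p0 : ∀ a ∈ S, 0 < n → a 0 = 0
  p1 : ∀ a ∈ S, ∀ i, i + 1 < n → a (i + 1) ≠ a i
  p2 : ∀ a ∈ S, ∀ i, i + 1 < n → a (i + 1) ≠ a i + 1 → a (i + 1) ≠ a i - 1 →
    a ∘ swap i (i + 1) ∈ S
  p3 : ∀ a ∈ S, ∀ i, i + 2 < n → a (i + 2) = a i → a (i + 1) ≠ a i + 1 ∧ a (i + 1) ≠ a i - 1

section
variable {n : ℕ} {V : Type} [NormedAddCommGroup V] [InnerProductSpace ℂ V]
  (ρ : Representation ℂ (Perm (Fin n)) V)
  (hρ : ∀ g u w, inner ℂ (ρ g u) w = inner ℂ u (ρ g⁻¹ w))

/-- joint spectrum -/
def Spec : Set (ℕ → ℂ) := {a | ∃ v : V, v ≠ 0 ∧ ∀ k : Fin n, X ρ k v = a k • v}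

include hρ

theorem X_adj (k : Fin n) (u w : V) : inner ℂ (X ρ k u) w = inner ℂ u (X ρ k w) := by
  unfold X
  simp only [LinearMap.sum_apply, sum_inner, inner_sum, hρ, swap_inv]

theorem eig_real (k : Fin n) (v : V) (hv : v ≠ 0) (a : ℂ) (h : X ρ k v = a • v) :
    (starRingEnd ℂ) a = a := by
  have := X_adj ρ hρ k v v
  rw [h, inner_smul_left, inner_smul_right] at this
  exact mul_right_cancel₀ (inner_self_ne_zero.mpr hv) this

omit hρ in
theorem loc (i i' : Fin n) (h : i'.val = i.val + 1) (v : V) (a b : ℂ) (ha : X ρ i v = a • v)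
    (hb : X ρ i' v = b • v) :
    X ρ i (ρ (swap i i') v) = b • ρ (swap i i') v - v ∧
    X ρ i' (ρ (swap i i') v) = a • ρ (swap i i') v + v := by
  have h1 := congrArg (fun f : End ℂ V => f v) (X_succ ρ i i' h)
  have h2 := congrArg (fun f : End ℂ V => f v) (X_succ' ρ i i' h)
  simp only [End.mul_apply, LinearMap.add_apply, LinearMap.sub_apply, End.one_apply, ha, hb,
    map_smul] at h1 h2
  exact ⟨h2, h1⟩

theorem loc_pm (i i' : Fin n) (h : i'.val = i.val + 1) (v : V) (hv : v ≠ 0) (a d : ℂ)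
    (hd : d = 1 ∨ d = -1) (ha : X ρ i v = a • v) (hb : X ρ i' v = (a + d) • v) :
    ρ (swap i i') v = d • v := by
  obtain ⟨h1, -⟩ := loc ρ i i' h v a _ ha hb
  have hss : ρ (swap i i') (ρ (swap i i') v) = v := by
    have := congrArg (fun f : End ℂ V => f v) (swap_sq ρ i i')
    simpa using this
  have hd2 : d * d = 1 := by rcases hd with rfl | rfl <;> simp
  have hdr : (starRingEnd ℂ) d = d := by rcases hd with rfl | rfl <;> simp
  have har := eig_real ρ hρ i v hv a ha
  set s := ρ (swap i i') with hs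
  set w := d • s v - v with hw
  have hXw : X ρ i w = (a + d) • w := by
    rw [hw, map_sub, map_smul, h1, ha]; module
  have hwv : inner ℂ w v = 0 := by
    have := X_adj ρ hρ i w v
    rw [hXw, ha, inner_smul_left, inner_smul_right, map_add, har, hdr] at this
    have h3 : d * inner ℂ w v = 0 := by linear_combination this
    refine (mul_eq_zero.mp h3).resolve_left ?_
    rintro rfl; simp at hd2
  have hsw : s w = (-d) • w := by
    rw [hw, map_sub, map_smul, hss, smul_sub, smul_smul, neg_mul, hd2]; module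
  have hww : inner ℂ w w = 0 := by
    have h4 := hρ (swap i i') w v
    rw [swap_inv, ← hs, hsw, inner_smul_left, hwv, mul_zero] at h4
    conv_lhs => rw [show inner ℂ w w = inner ℂ w (d • s v - v) from rfl]
    rw [inner_sub_right, inner_smul_right, ← h4, hwv]; simp
  have hw0 : d • s v = v := sub_eq_zero.mp (inner_self_eq_zero.mp hww)
  calc s v = (d * d) • s v := by rw [hd2, one_smul]
    _ = d • v := by rw [← smul_smul, hw0]

theorem spec_OV : OV n (Spec ρ) := by
  constructor
  · rintro a ⟨v, hv, ha⟩ hn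
    have := ha ⟨0, hn⟩
    have hI : Finset.Iio (⟨0, hn⟩ : Fin n) = ∅ := by
      ext j; simp [Fin.lt_def]
    rw [X, hI] at this
    simpa [hv] using this.symm
  · rintro a ⟨v, hv, ha⟩ i hi hE
    have hai := ha ⟨i, by omega⟩
    obtain ⟨h1, -⟩ := loc ρ ⟨i, by omega⟩ ⟨i + 1, hi⟩ rfl v _ _ hai (ha _)
    have := X_adj ρ hρ ⟨i, by omega⟩ v (ρ (swap ⟨i, by omega⟩ ⟨i + 1, hi⟩) v)
    rw [h1, hai, inner_smul_left, eig_real ρ hρ _ v hv _ hai, inner_sub_right,
      inner_smul_right] at this
    simp only [hE] at this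
    exact inner_self_ne_zero.mpr hv (by linear_combination this)
  · rintro a ⟨v, hv, ha⟩ i hi hp hm
    obtain ⟨h1, h2⟩ := loc ρ ⟨i, by omega⟩ ⟨i + 1, hi⟩ rfl v _ _ (ha _) (ha _)
    have hss := congrArg (fun f : End ℂ V => f v) (swap_sq ρ ⟨i, by omega⟩ ⟨i + 1, hi⟩)
    have hcs := X_comm_swap ρ ⟨i, by omega⟩ ⟨i + 1, hi⟩
    simp only [End.mul_apply, End.one_apply] at hss
    set s := ρ (swap ⟨i, by omega⟩ ⟨i + 1, hi⟩) with hs
    simp only at h1 h2
    refine ⟨(a (i + 1) - a i) • s v - v, fun h0 => ?_, fun k => ?_⟩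
    · have h3 := sub_eq_zero.mp h0
      have h4 := congrArg s h3
      rw [map_smul, hss] at h4
      rw [← h4, smul_smul] at h3
      have h5 : ((a (i + 1) - a i) * (a (i + 1) - a i) - 1) • v = 0 := by
        rw [sub_smul, h3, one_smul, sub_self]
      have h6 := (smul_eq_zero.mp h5).resolve_right hv
      have h7 : (a (i + 1) - (a i + 1)) * (a (i + 1) - (a i - 1)) = 0 := by linear_combination h6
      rcases mul_eq_zero.mp h7 with h | h
      · exact hp (sub_eq_zero.mp h)
      · exact hm (sub_eq_zero.mp h)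
    · by_cases hk : k.val = i
      · obtain rfl : k = ⟨i, Nat.lt_of_succ_lt hi⟩ := Fin.ext hk
        rw [map_sub, map_smul, h1, ha]
        simp only [Function.comp_apply, swap_apply_left]; module
      by_cases hk' : k.val = i + 1
      · obtain rfl : k = ⟨i + 1, hi⟩ := Fin.ext hk'
        rw [map_sub, map_smul, h2, ha]
        simp only [Function.comp_apply, swap_apply_right]; module
      have h3 := congrArg (fun f : End ℂ V => f v)
        (hcs k (by simp only [Fin.lt_def]; omega))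
      simp only [End.mul_apply, ha, map_smul] at h3
      rw [map_sub, map_smul, ← h3, ha]
      simp only [Function.comp_apply, swap_apply_of_ne_of_ne hk hk']; module
  · rintro a ⟨v, hv, ha⟩ i hi hE
    have key : ∀ d : ℂ, d = 1 ∨ d = -1 → a (i + 1) ≠ a i + d := by
      intro d hd h
      have h1 := loc_pm ρ hρ ⟨i, by omega⟩ ⟨i + 1, by omega⟩ rfl v hv (a i) d hd (ha _)
        (by rw [ha, ← h])
      have h2 := loc_pm ρ hρ ⟨i + 1, by omega⟩ ⟨i + 2, by omega⟩ rfl v hv (a (i + 1)) (-d)
        (by rcases hd with rfl | rfl <;> simp) (ha _) (by rw [ha]; simp only [hE, h]; simp)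
      set p : Fin n := ⟨i, by omega⟩
      set q : Fin n := ⟨i + 1, by omega⟩
      set r : Fin n := ⟨i + 2, by omega⟩
      have hpq : p ≠ q := by simp [p, q]
      have hpr : p ≠ r := by simp [p, r]
      have hqr : q ≠ r := by simp [q, r]
      have hb : swap p q * swap q r * swap p q = swap q r * swap p q * swap q r := by
        rw [mul_swap_eq_swap_mul (swap p q), mul_swap_eq_swap_mul (swap q r), mul_assoc, mul_assoc,
          swap_mul_self, swap_mul_self, swap_apply_right, swap_apply_left,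
          swap_apply_of_ne_of_ne hpr.symm hqr.symm, swap_apply_of_ne_of_ne hpq hpr]
      have h3 := congrArg (fun g => ρ g v) hb
      simp only [map_mul, End.mul_apply, h1, h2, map_smul, smul_smul] at h3
      have h4 : (2 * d ^ 3) • v = 0 := by
        have : (2 * d ^ 3) • v = (-d * (d * -d)) • v - (d * (-d * d)) • v := by module
        rw [this, h3, sub_self]
      have h5 := (smul_eq_zero.mp h4).resolve_right hv
      rcases hd with rfl | rfl <;> norm_num at h5
    exact ⟨key 1 (Or.inl rfl), by simpa [sub_eq_add_neg] using key (-1) (Or.inr rfl)⟩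

omit hρ in
theorem exists_joint [FiniteDimensional ℂ V] (W : Submodule ℂ V) (hW : W ≠ ⊥)
    (hX : ∀ k, ∀ w ∈ W, X ρ k w ∈ W) :
    ∃ a : ℕ → ℂ, ∃ v ∈ W, v ≠ 0 ∧ ∀ k : Fin n, X ρ k v = a k • v := by
  have key : ∀ s : Finset (Fin n), ∃ (a : Fin n → ℂ) (U : Submodule ℂ V), U ≠ ⊥ ∧ U ≤ W ∧
      (∀ k, ∀ w ∈ U, X ρ k w ∈ U) ∧ ∀ k ∈ s, ∀ w ∈ U, X ρ k w = a k • w := by
    intro s
    induction s using Finset.induction_on with
    | empty => exact ⟨0, W, hW, le_rfl, hX, by simp⟩
    | insert k s hk ih =>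
      obtain ⟨a, U, hU0, hUW, hUX, hUa⟩ := ih
      have : Nontrivial U := Submodule.nontrivial_iff_ne_bot.mpr hU0
      obtain ⟨c, hc⟩ := End.exists_eigenvalue ((X ρ k).restrict (hUX k))
      obtain ⟨w, hw⟩ := hc.exists_hasEigenvector
      refine ⟨Function.update a k c, U ⊓ (X ρ k).eigenspace c, fun h => ?_,
        inf_le_left.trans hUW, fun l u hu => ⟨hUX l u hu.1, ?_⟩, fun l hl u hu => ?_⟩
      · have h1 : (w : V) ∈ U ⊓ (X ρ k).eigenspace c := ⟨w.2, by
          have := congrArg Subtype.val hw.apply_eq_smul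
          exact End.mem_eigenspace_iff.mpr this⟩
        rw [h] at h1
        exact hw.2 (Subtype.ext h1)
      · have h1 := End.mem_eigenspace_iff.mp hu.2
        have h2 := congrArg (fun f : End ℂ V => f u) (X_comm_X ρ k l)
        simp only [End.mul_apply, h1, map_smul] at h2
        exact End.mem_eigenspace_iff.mpr h2
      · rcases Finset.mem_insert.mp hl with rfl | hl'
        · simpa using End.mem_eigenspace_iff.mp hu.2
        · rw [Function.update_of_ne (by rintro rfl; exact hk hl')]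
          exact hUa l hl' u hu.1
  obtain ⟨a, U, hU0, hUW, -, hUa⟩ := key Finset.univ
  obtain ⟨v, hvU, hv⟩ := Submodule.exists_mem_ne_zero_of_ne_bot hU0
  exact ⟨fun k => if h : k < n then a ⟨k, h⟩ else 0, v, hUW hvU, hv, fun k => by
    simpa using hUa k (Finset.mem_univ _) v hvU⟩

end

end Pool.Agent.P.MP_eccc2e_al
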