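import Mathlib

/-! Young diagrams with prescribed first and second content moments. -/

namespace Pool.Agent.P.MP_eccc2e_al

open Finset

/-- There is a Young diagram with `n` cells inside the `L × L'` rectangle, content sum `e` and sum of
squared contents `v`. -/
def Shape (n L L' : ℕ) (e : ℤ) (v : ℕ) : Prop :=
  ∃ D : Finset (ℕ × ℕ), IsLowerSet (D : Set (ℕ × ℕ)) ∧ D.card = n ∧ (∀ p ∈ D, p.1 < L ∧ p.2 < L') ∧
    ∑ p ∈ D, ((p.1 : ℤ) - p.2) = e ∧ ∑ p ∈ D, ((p.1 : ℤ) - p.2) ^ 2 = v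

/-- triangular numbers -/
def tri (a : ℕ) : ℕ := a * (a + 1) / 2

/-- pyramidal numbers -/
def pyr (a : ℕ) : ℕ := a * (a + 1) * (2 * a + 1) / 6

theorem tri_eq (a : ℕ) : ∑ i ∈ range (a + 1), i = tri a ∧ 2 * tri a = a * (a + 1) := by
  have : 2 * ∑ i ∈ range (a + 1), i = a * (a + 1) := by
    induction a with
    | zero => simp
    | succ a ih => rw [sum_range_succ, mul_add, ih]; ring
  unfold tri; omega

theorem pyr_eq (a : ℕ) :
    ∑ i ∈ range (a + 1), i ^ 2 = pyr a ∧ 6 * pyr a = a * (a + 1) * (2 * a + 1) := by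
  have : 6 * ∑ i ∈ range (a + 1), i ^ 2 = a * (a + 1) * (2 * a + 1) := by
    induction a with
    | zero => simp
    | succ a ih => rw [sum_range_succ, mul_add, ih]; ring
  unfold pyr; omega

theorem Shape.mono {n L L' e v} (h : Shape n L L e v) (hL : L ≤ L') : Shape n L' L' e v := by
  obtain ⟨D, h1, h2, h3, h4⟩ := h
  exact ⟨D, h1, h2, fun p hp => by have := h3 p hp; omega, h4⟩

theorem shape_zero : Shape 0 0 0 0 0 := ⟨∅, by simp [isLowerSet_empty], by simp⟩

theorem Shape.hook {n L L' e v} (h : Shape n L L' e v) {a b : ℕ} (ha : L ≤ a) (hb : L' ≤ b) :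
    Shape (n + (a + b + 1)) (a + 1) (b + 1) (e + tri a - tri b) (v + (pyr a + pyr b)) := by
  obtain ⟨D, h1, h2, h3, h4, h5⟩ := h
  let D' : Finset (ℕ × ℕ) := D.image (fun p => (p.1 + 1, p.2 + 1)) ∪
    ((range (a + 1)).image (fun i => (i, 0)) ∪ (range b).image (fun j => (0, j + 1)))
  have hs : ∀ G : ℕ × ℕ → ℤ, ∑ p ∈ D', G p = ∑ p ∈ D, G (p.1 + 1, p.2 + 1) +
      (∑ i ∈ range (a + 1), G (i, 0) + ∑ j ∈ range b, G (0, j + 1)) := by
    intro G
    rw [sum_union, sum_union, sum_image, sum_image, sum_image]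
    · intro x _ y _ h; simpa using h
    · intro x _ y _ h; simpa using h
    · intro x _ y _ h; simp only [Prod.mk.injEq] at h; ext <;> omega
    · simp [disjoint_left]
    · simp only [disjoint_left, mem_image, mem_union]
      rintro _ ⟨q, -, rfl⟩ (⟨i, -, h⟩ | ⟨i, -, h⟩) <;> simp at h
  have hm : ∀ p : ℕ × ℕ, p ∈ D' ↔ (0 < p.1 ∧ 0 < p.2 ∧ (p.1 - 1, p.2 - 1) ∈ D) ∨
      (p.2 = 0 ∧ p.1 ≤ a) ∨ (p.1 = 0 ∧ p.2 ≤ b) := by
    rintro ⟨x, y⟩
    simp only [D', mem_union, mem_image, mem_range, Prod.mk.injEq]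
    constructor
    · rintro (⟨q, hq, rfl, rfl⟩ | ⟨i, hi, rfl, rfl⟩ | ⟨i, hi, rfl, rfl⟩)
      · left; simpa using hq
      · right; left; omega
      · right; right; omega
    · rintro (⟨e1, e2, e3⟩ | ⟨rfl, e2⟩ | ⟨rfl, e2⟩)
      · exact Or.inl ⟨_, e3, by simp only; omega, by simp only; omega⟩
      · exact Or.inr (Or.inl ⟨x, by omega, rfl, rfl⟩)
      · rcases y with _ | y
        · exact Or.inr (Or.inl ⟨0, by omega, rfl, rfl⟩)
        · exact Or.inr (Or.inr ⟨y, by omega, rfl, rfl⟩)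
  refine ⟨D', ?_, ?_, fun p hp => ?_, ?_, ?_⟩
  · rintro ⟨x, y⟩ ⟨x', y'⟩ ⟨hx, hy⟩ hp
    simp only [mem_coe, hm] at hp hx hy ⊢
    rcases hp with ⟨e1, e2, e3⟩ | hp | hp
    · have := h3 _ e3
      simp only at this
      by_cases h0 : 0 < x' ∧ 0 < y'
      · exact Or.inl ⟨h0.1, h0.2, h1 (a := (x - 1, y - 1)) ⟨by simp only; omega,
          by simp only; omega⟩ e3⟩
      · omega
    · omega
    · omega
  · have := hs fun _ => 1
    simp only [sum_const, card_range, nsmul_eq_mul, mul_one, h2] at this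
    omega
  · rcases (hm p).mp hp with ⟨e1, e2, e3⟩ | hp | hp
    · have := h3 _ e3
      simp only at this
      omega
    · omega
    · omega
  · rw [hs, ← h4, ← (tri_eq a).1, ← (tri_eq b).1, sum_range_succ' (fun i => i) b]
    simp [sub_eq_add_neg, add_assoc, sum_add_distrib, add_comm]
  · rw [hs, Nat.cast_add, ← h5, ← (pyr_eq a).1, ← (pyr_eq b).1,
      sum_range_succ' (fun i => i ^ 2) b]
    simp only [Nat.cast_add, Nat.cast_one, add_sub_add_right_eq_sub, Nat.cast_zero, sub_zero,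
      zero_sub, even_two, Even.neg_pow, Nat.cast_sum, Nat.cast_pow]
    simp

/-- evaluation of a certificate (Frobenius coordinates in base 64) -/
def ev (K : ℕ → ℕ → ℕ → ℕ → Bool) : ℕ → ℕ → ℕ → ℕ → ℕ → ℕ → ℕ → ℕ → Bool
  | 0, _, _, _, _, _, _, _ => false
  | f + 1, c, n, L, L', t, t', v => cond (Nat.beq c 0) (K n t t' v)
      (Nat.ble L (c % 64) && Nat.ble L' (c / 64 % 64) &&
        ev K f (c / 4096) (n + (c % 64 + c / 64 % 64 + 1)) (c % 64 + 1) (c / 64 % 64 + 1)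
          (t + tri (c % 64)) (t' + tri (c / 64 % 64)) (v + (pyr (c % 64) + pyr (c / 64 % 64))))

theorem ev_sound (K : ℕ → ℕ → ℕ → ℕ → Bool) (f : ℕ) :
    ∀ c n L L' t t' v : ℕ, Shape n L L' ((t : ℤ) - t') v →
    ev K f c n L L' t t' v = true →
      ∃ n L L' t t' v : ℕ, Shape n L L' ((t : ℤ) - t') v ∧ K n t t' v = true := by
  induction f with
  | zero => intro c n L L' t t' v _ h; simp [ev] at h
  | succ f ih =>
    intro c n L L' t t' v hs h
    rw [ev] at h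
    cases hc : Nat.beq c 0
    · simp only [hc, cond_false, Bool.and_eq_true, Nat.ble_eq] at h
      refine ih _ _ _ _ _ _ _ ?_ h.2
      convert hs.hook h.1.1 h.1.2 using 1
      push_cast; ring
    · simp only [hc, cond_true] at h
      exact ⟨_, _, _, _, _, _, hs, h⟩

/-- check a list of certificates for `n, n + 1, ...` -/
def evs (K : ℕ → ℕ → ℕ → ℕ → Bool) (E : ℕ → Bool) : List ℕ → ℕ → Bool
  | [], _ => true
  | c :: l, n => (E n || ev (fun m t t' v => Nat.beq m n && K m t t' v) 30 c 0 0 0 0 0 0) &&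
      evs K E l (n + 1)

theorem evs_sound (K : ℕ → ℕ → ℕ → ℕ → Bool) (E : ℕ → Bool) (l : List ℕ) : ∀ n₀,
    evs K E l n₀ = true → ∀ n, n₀ ≤ n → n < n₀ + l.length → E n = false →
      ∃ L L' t t' v : ℕ, Shape n L L' ((t : ℤ) - t') v ∧ K n t t' v = true := by
  induction l with
  | nil => intro n₀ _ n h1 h2; simp at h2; omega
  | cons c l ih =>
    intro n₀ h n h1 h2 hE
    simp only [evs, Bool.and_eq_true, Bool.or_eq_true] at h
    rcases h1.eq_or_lt with rfl | h1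
    · obtain ⟨m, L, L', t, t', v, e1, e2⟩ := ev_sound _ _ _ _ _ _ 0 0 _
        (by simpa using shape_zero) (h.1.resolve_left (by simp [hE]))
      simp only [Bool.and_eq_true, Nat.beq_eq] at e2
      obtain ⟨rfl, e2⟩ := e2
      exact ⟨L, L', t, t', v, e1, e2⟩
    · exact ih _ h.2 n h1 (by simp at h2; omega) hE

/-- symmetric hooks with arm at least two -/
inductive Hk : ℕ → ℕ → ℕ → Prop
  | base : Hk 2 0 0
  | up {L m u} : Hk L m u → Hk (L + 1) m u
  | hook {L m u} : Hk L m u → Hk (L + 1) (m + (2 * L + 1)) (u + pyr L)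

theorem Hk.shape {L m u} (h : Hk L m u) {s e v} (hs : Shape s 2 2 e v) :
    Shape (s + m) L L e (v + 2 * u) := by
  induction h with
  | base => simpa using hs
  | up _ ih => exact ih.mono (by omega)
  | @hook L m u _ ih =>
    convert ih.hook le_rfl le_rfl using 1 <;> omega

theorem Hk.mono {L m u} (h : Hk L m u) {L'} (hL : L ≤ L') : Hk L' m u := by
  induction L', hL using Nat.le_induction with
  | base => exact h
  | succ _ _ ih => exact ih.up

/-- the window of second moments -/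
def Win (m L u : ℕ) : Prop :=
  16 * m ^ 2 ≤ 100 * u ∧ 100 * u ≤ 26 * m ^ 2 ∧ 100 * u ≤ 3 * m ^ 2 + 7 * (L + 1) ^ 2 * m

theorem step_real (m L u p : ℝ) (hm : 691 ≤ m) (hL0 : 0 ≤ L) (hp : 6 * p = L * (L + 1) * (2 * L + 1))
    (h1 : 16 * m ^ 2 ≤ 100 * u) (h2 : 100 * u ≤ 26 * m ^ 2)
    (h3 : 100 * u ≤ 3 * m ^ 2 + 7 * (L + 2) ^ 2 * m)
    (h4 : 3 * m ^ 2 + 7 * (L + 1) ^ 2 * m ≤ 100 * u) :
    590 ≤ m - (2 * L + 1) ∧ 16 * (m - (2 * L + 1)) ^ 2 ≤ 100 * (u - p) ∧
    100 * (u - p) ≤ 26 * (m - (2 * L + 1)) ^ 2 ∧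
    100 * (u - p) ≤ 3 * (m - (2 * L + 1)) ^ 2 + 7 * (L + 1) ^ 2 * (m - (2 * L + 1)) := by
  have F1 : 7 * (L + 1) ^ 2 ≤ 23 * m := by
    by_contra h; push Not at h; nlinarith
  have F2 : 13 * m ≤ 7 * (L + 2) ^ 2 := by
    by_contra h; push Not at h; nlinarith
  have hL : 33 ≤ L := by
    by_contra h; push Not at h; nlinarith
  obtain ⟨k, rfl⟩ : ∃ k, L = 33 + k := ⟨L - 33, by ring⟩
  have hk : 0 ≤ k := by linarith
  have hk2 := pow_nonneg hk 2
  have hk3 := pow_nonneg hk 3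
  have hk4 := pow_nonneg hk 4
  obtain rfl : p = (33 + k) * (33 + k + 1) * (2 * (33 + k) + 1) / 6 := by linarith
  set L := 33 + k with hLk
  refine ⟨?_, ?_, ?_, ?_⟩
  · by_cases h : L ≤ 50
    · linarith
    · push Not at h; nlinarith
  · by_cases h : (100 * L ^ 2 + 292 * L + 96) / 192 ≤ m
    · have := mul_nonneg (sub_nonneg.mpr h) (by linarith : 0 ≤ 2 * L + 1)
      nlinarith
    · push Not at h
      have a1 : 0 ≤ 13 * ((100 * L ^ 2 + 292 * L + 96) / 192 + m) -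
          (7 * (L + 1) ^ 2 + 32 * (2 * L + 1)) := by nlinarith
      have a2 := mul_nonneg (sub_nonneg.mpr h.le) a1
      have a3 : 0 ≤ 3 * ((100 * L ^ 2 + 292 * L + 96) / 192) ^ 2 +
          7 * (L + 1) ^ 2 * ((100 * L ^ 2 + 292 * L + 96) / 192) -
          100 * (L * (L + 1) * (2 * L + 1) / 6) -
          16 * ((100 * L ^ 2 + 292 * L + 96) / 192 - (2 * L + 1)) ^ 2 := by
        rw [hLk]; ring_nf; positivity
      nlinarith
  · by_cases h : m ≤ (100 * L ^ 2 + 412 * L + 156) / 312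
    · have := mul_nonneg (sub_nonneg.mpr h) (by linarith : 0 ≤ 2 * L + 1)
      nlinarith
    · push Not at h
      have a1 : 0 ≤ 23 * ((100 * L ^ 2 + 412 * L + 156) / 312 + m) -
          (7 * (L + 2) ^ 2 + 52 * (2 * L + 1)) := by nlinarith
      have a2 := mul_nonneg (sub_nonneg.mpr h.le) a1
      have a3 : 0 ≤ 26 * ((100 * L ^ 2 + 412 * L + 156) / 312 - (2 * L + 1)) ^ 2 +
          100 * (L * (L + 1) * (2 * L + 1) / 6) - 3 * ((100 * L ^ 2 + 412 * L + 156) / 312) ^ 2 -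
          7 * (L + 2) ^ 2 * ((100 * L ^ 2 + 412 * L + 156) / 312) := by
        rw [hLk]; ring_nf; positivity
      nlinarith
  · have a2 := mul_nonneg (sub_nonneg.mpr F2) (by linarith : 0 ≤ 26 * L + 27)
    have a3 : 0 ≤ 100 * (L * (L + 1) * (2 * L + 1) / 6) + 3 * (2 * L + 1) ^ 2 -
        7 * (L + 1) ^ 2 * (2 * L + 1) - (26 * L + 27) * (7 * (L + 2) ^ 2 / 13) := by
      rw [hLk]; ring_nf; positivity
    nlinarith

theorem hk_of_base (hb : ∀ m L u, 590 ≤ m → m ≤ 690 → Win m L u → Hk L m u) (L : ℕ) :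
    ∀ m u, 590 ≤ m → Win m L u → Hk L m u := by
  induction L with
  | zero =>
    intro m u hm h
    obtain ⟨h1, -, h3⟩ := h
    nlinarith
  | succ L ih =>
    intro m u hm h
    by_cases hm' : m ≤ 690
    · exact hb m _ u hm hm' h
    obtain ⟨h1, h2, h3⟩ := h
    by_cases h4 : 100 * u ≤ 3 * m ^ 2 + 7 * (L + 1) ^ 2 * m
    · exact (ih m u hm ⟨h1, h2, h4⟩).up
    obtain ⟨a1, a2, a3, a4⟩ := step_real m L u (pyr L) (by exact_mod_cast (by omega : 691 ≤ m))
      (by positivity) (by exact_mod_cast (pyr_eq L).2) (by exact_mod_cast h1)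
      (by exact_mod_cast h2) (by exact_mod_cast h3) (by exact_mod_cast (not_le.mp h4).le)
    have b1 : 2 * L + 1 ≤ m := by
      have : ((2 * L + 1 : ℕ) : ℝ) ≤ m := by push_cast; linarith
      exact_mod_cast this
    have b2 : pyr L ≤ u := by
      have : (pyr L : ℝ) ≤ u := by nlinarith [sq_nonneg ((m : ℝ) - (2 * L + 1))]
      exact_mod_cast this
    obtain ⟨m, rfl⟩ := Nat.exists_eq_add_of_le' b1
    obtain ⟨u, rfl⟩ := Nat.exists_eq_add_of_le' b2
    push_cast at a1 a2 a3 a4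
    simp only [add_sub_cancel_right] at a1 a2 a3 a4
    exact (ih m u (by exact_mod_cast a1)
      ⟨by exact_mod_cast a2, by exact_mod_cast a3, by exact_mod_cast a4⟩).hook

end Pool.Agent.P.MP_eccc2e_al
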