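import Pool.Agent.P.MP_eccc2e_al.Val

/-! Nonvanishing of a coefficient of the Frobenius determinant. -/

namespace Pool.Agent.P.MP_eccc2e_al

open PowerSeries Finset

/-- the 2-adic filtration of the rationals -/
def vq : Flt ℚ where
  F a :=
    { carrier := {x | x ≠ 0 → a ≤ 2 * padicValRat 2 x}
      add_mem' := fun {x y} hx hy h => by
        by_cases h1 : x = 0
        · subst h1; simpa using hy (by simpa using h)
        by_cases h2 : y = 0
        · subst h2; simpa using hx h1
        have := padicValRat.min_le_padicValRat_add (p := 2) h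
        have := hx h1
        have := hy h2
        omega
      zero_mem' := fun h => absurd rfl h
      neg_mem' := fun {x} hx h => by simpa using hx (by simpa using h) }
  one := fun _ => by simp
  mul := fun {a b x y} hx hy h => by
    have h1 := left_ne_zero_of_mul h
    have h2 := right_ne_zero_of_mul h
    have := hx h1
    have := hy h2
    rw [padicValRat.mul h1 h2]; omega
  anti := fun h hx h0 => h.trans (hx h0)
  half := fun {a x} hx h => by
    have := hx (by simpa using h)
    have h2 : padicValRat 2 (2 : ℚ) = 1 := padicValRat.self (p := 2) (by norm_num)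
    rw [padicValRat.mul (by norm_num) h, h2] at this
    omega
  odd := fun {a x} m hx h => by
    have h1 : (2 * m + 1 : ℚ) ≠ 0 := by positivity
    have := hx (mul_ne_zero h h1)
    have h2 : padicValRat 2 ((2 * m + 1 : ℕ) : ℚ) = 0 := by
      rw [padicValRat.of_nat, padicValNat.eq_zero_of_not_dvd (by omega)]; rfl
    push_cast at h2
    rwa [padicValRat.mul h h1, h2, add_zero] at this

theorem mem_vq {a : ℤ} {x : ℚ} : x ∈ vq.F a ↔ (x ≠ 0 → a ≤ 2 * padicValRat 2 x) := Iff.rfl

/-- the trivial filtration of the rationals -/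
def tq : Flt ℚ where
  F a :=
    { carrier := {x | x ≠ 0 → a ≤ 0}
      add_mem' := fun {x y} hx hy h => by
        by_cases h1 : x = 0
        · subst h1; exact hy (by simpa using h)
        · exact hx h1
      zero_mem' := fun h => absurd rfl h
      neg_mem' := fun {x} hx h => hx (by simpa using h) }
  one := fun _ => le_rfl
  mul := fun hx hy h => add_nonpos (hx (left_ne_zero_of_mul h)) (hy (right_ne_zero_of_mul h))
  anti := fun h hx h0 => h.trans (hx h0)
  half := fun {a x} hx h => by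
    have := hx (by simpa using h)
    omega
  odd := fun m hx h => hx (mul_ne_zero h (by positivity))

theorem mem_tq {a : ℤ} {x : ℚ} : x ∈ tq.F a ↔ (x ≠ 0 → a ≤ 0) := Iff.rfl

/-- extension of a filtration to polynomials, the variable having degree `w` -/
noncomputable def Flt.poly (Φ : Flt ℚ) (w : ℤ) : Flt (Polynomial ℚ) where
  F a :=
    { carrier := {p | ∀ i : ℕ, p.coeff i ∈ Φ.F (a - w * i)}
      add_mem' := fun hx hy i => by rw [Polynomial.coeff_add]; exact add_mem (hx i) (hy i)
      zero_mem' := fun i => by simp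
      neg_mem' := fun hx i => by rw [Polynomial.coeff_neg]; exact neg_mem (hx i) }
  one := fun i => by
    rw [Polynomial.coeff_one]
    split_ifs with h
    · subst h; simpa using Φ.one
    · exact zero_mem _
  mul := fun hx hy i => by
    rw [Polynomial.coeff_mul]
    refine sum_mem fun p hp => Φ.anti (le_of_eq ?_) (Φ.mul (hx p.1) (hy p.2))
    rw [← mem_antidiagonal.mp hp]; push_cast; ring
  anti := fun h hx i => Φ.anti (by omega) (hx i)
  half := fun {a x} hx i => Φ.half (Φ.anti (b := a + 2 - w * i) (by omega) (by simpa using hx i))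
  odd := fun {a x} m hx i => Φ.odd m (by
    have := hx i
    rwa [show (2 * m + 1 : Polynomial ℚ) = Polynomial.C (2 * m + 1 : ℚ) by simp [map_ofNat],
      Polynomial.coeff_mul_C] at this)

theorem Flt.C_mem (Φ : Flt ℚ) (w : ℤ) {a : ℤ} {x : ℚ} (h : x ∈ Φ.F a) :
    Polynomial.C x ∈ (Φ.poly w).F a := fun i => by
  rw [Polynomial.coeff_C]
  split_ifs with h0
  · subst h0; simpa using h
  · exact zero_mem _

theorem Flt.X_mem (Φ : Flt ℚ) (w : ℤ) : Polynomial.X ∈ (Φ.poly w).F w := fun i => by
  rw [Polynomial.coeff_X]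
  split_ifs with h0
  · subst h0; simpa using Φ.one
  · exact zero_mem _

section
variable {R : Type} [CommRing R] [Algebra ℚ R]

/-- the series `exp (u z + v z ^ 2)` -/
noncomputable def EE (u v : R) : R⟦X⟧ := rescale u (exp R) * E2 (rescale v (exp R))

theorem th_exp (u : R) : th (rescale u (exp R)) = C u * X * rescale u (exp R) := by
  ext m
  rw [coeff_th, mul_assoc, coeff_C_mul]
  rcases m with _ | m
  · simp
  · have := coeff_derivative (exp R) m
    rw [derivative_exp] at this
    rw [coeff_succ_X_mul, coeff_rescale, coeff_rescale, this]; push_cast; ring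

theorem E2_C (u : R) : E2 (C u) = C u := expand_C _ _ _

theorem th_EE (u v : R) : th (EE u v) = (E2 (C (2 * v) * X) + X * E2 (C u)) * EE u v := by
  have := th_split (rescale v (exp R)) 0
  simp only [map_zero, mul_zero, add_zero, th] at this
  rw [EE, th_mul, th_exp, th, this, ← th, th_exp]
  simp only [map_mul, E2_C, E2_X, map_ofNat]; ring

theorem EE_zero (u v : R) : constantCoeff (EE u v) = 1 := by
  rw [EE, map_mul, E2, constantCoeff_expand, ← coeff_zero_eq_constantCoeff_apply,
    ← coeff_zero_eq_constantCoeff_apply, coeff_rescale, coeff_rescale]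
  simp

theorem map_EE {S : Type} [CommRing S] [Algebra ℚ S] (φ : R →+* S) (u v : R) :
    map φ (EE u v) = EE (φ u) (φ v) := by
  rw [EE, EE, map_mul, E2, E2, map_expand, ← rescale_map, ← rescale_map, map_exp]

theorem EE_mul (u v u' v' : R) : EE u v * EE u' v' = EE (u + u') (v + v') := by
  simp only [EE, ← exp_mul_exp_eq_exp_add, map_mul]; ring

omit [Algebra ℚ R] in
theorem map_Dt {S : Type} [CommRing S] (φ : R →+* S) {ι : Type} [Fintype ι] [DecidableEq ι]
    (β ν : ι → ℕ) (G : R⟦X⟧) : φ (Dt β ν G) = Dt β ν (map φ G) := by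
  rw [Dt, Dt, RingHom.map_det]
  congr 1; ext i k
  simp [← coeff_map]

end

theorem val_prod {ι : Type} (s : Finset ι) (f : ι → ℚ) (h : ∀ i ∈ s, f i ≠ 0) :
    padicValRat 2 (∏ i ∈ s, f i) = ∑ i ∈ s, padicValRat 2 (f i) := by
  classical
  induction s using Finset.induction_on with
  | empty => simp
  | insert i s hi ih =>
    have h1 := fun j hj => h j (mem_insert_of_mem hj)
    rw [prod_insert hi, sum_insert hi,
      padicValRat.mul (h i (mem_insert_self _ _)) (prod_ne_zero_iff.mpr h1), ih h1]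

theorem Dt_exp {N : ℕ} {β : Fin N → ℕ} (hβ : Function.Injective β) :
    Dt β (fun j => j) (exp ℚ) ≠ 0 ∧ 2 * padicValRat 2 (Dt β (fun j => j) (exp ℚ)) = Ph β := by
  have h1 : (∏ i, ((β i).factorial : ℚ)) * Dt β (fun j => j) (exp ℚ) =
      ∏ i, ∏ j ∈ Ioi i, ((β j : ℚ) - β i) := by
    rw [← Matrix.det_vandermonde, Matrix.det_eval_matrixOfPolynomials_eq_det_vandermonde _
      (fun i => descPochhammer ℚ i) (fun i => descPochhammer_natDegree ℚ i)
      (fun i => monic_descPochhammer ℚ i), Dt, ← Matrix.det_mul_column]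
    congr 1; ext i j
    simp only [Matrix.of_apply, descPochhammer_eval_eq_descFactorial, coeff_X_pow_mul', coeff_exp]
    split_ifs with h
    · rw [← Nat.factorial_mul_descFactorial h]
      have : ((β i - j).factorial : ℚ) ≠ 0 := by positivity
      simp only [Algebra.algebraMap_self, RingHom.id_apply]
      push_cast; field_simp
    · rw [Nat.descFactorial_of_lt (by omega)]; simp
  have h2 : ∀ i, ∀ j ∈ Ioi i, (β j : ℚ) - β i ≠ 0 := fun i j hj h =>
    (mem_Ioi.mp hj).ne' (hβ (by exact_mod_cast sub_eq_zero.mp h))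
  have h3 : ∀ i ∈ univ, ∏ j ∈ Ioi i, ((β j : ℚ) - β i) ≠ 0 := fun i _ =>
    prod_ne_zero_iff.mpr (h2 i)
  have h4 : (∏ i, ((β i).factorial : ℚ)) * Dt β (fun j => j) (exp ℚ) ≠ 0 := by
    rw [h1]; exact prod_ne_zero_iff.mpr h3
  refine ⟨right_ne_zero_of_mul h4, ?_⟩
  have h5 := congrArg (padicValRat 2) h1
  rw [padicValRat.mul (left_ne_zero_of_mul h4) (right_ne_zero_of_mul h4),
    val_prod _ _ fun i _ => by positivity, val_prod _ _ h3,
    sum_congr rfl fun i _ => val_prod _ _ (h2 i)] at h5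
  have h6 : ∀ i j, padicValRat 2 ((β j : ℚ) - β i) = padicValInt 2 ((β j : ℤ) - β i) := by
    intro i j
    rw [← padicValRat.of_int]; push_cast; rfl
  have h7 := sum_sum_Ioi_add_eq_sum_sum_off_diag
    fun j i : Fin N => padicValRat 2 ((β j : ℚ) - β i)
  have h8 : ∀ i j, padicValRat 2 ((β i : ℚ) - β j) = padicValRat 2 ((β j : ℚ) - β i) := by
    intro i j; rw [← padicValRat.neg, neg_sub]
  have h9 : ∀ i, ∑ j ∈ {i}ᶜ, padicValRat 2 ((β j : ℚ) - β i) =
      ∑ j, padicValRat 2 ((β i : ℚ) - β j) := by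
    intro i
    rw [← sum_compl_add_sum {i}]
    simp [h8 i]
  simp only [h9, sum_add_distrib] at h7
  rw [sum_congr rfl fun i _ => sum_congr rfl fun j _ => h8 i j] at h7
  simp only [Ph, ← h6, ← h7, ← padicValRat.of_nat]
  linear_combination 2 * h5

theorem val_choose (s : ℕ) : ∀ w, 2 ^ s ≤ w →
    padicValNat 2 (w.choose (2 ^ s)) = padicValNat 2 (w / 2 ^ s) := by
  have key : ∀ w b : ℕ, b ≤ w → padicValNat 2 (w.choose b) + padicValNat 2 b.factorial +
      padicValNat 2 (w - b).factorial = padicValNat 2 w.factorial := by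
    intro w b h
    have h1 := (Nat.choose_pos h).ne'
    rw [← Nat.choose_mul_factorial_mul_factorial h,
      padicValNat.mul (mul_ne_zero h1 b.factorial_ne_zero) (Nat.factorial_ne_zero _),
      padicValNat.mul h1 b.factorial_ne_zero]
  induction s with
  | zero => simp
  | succ s ih =>
    intro w hw
    rw [pow_succ'] at hw ⊢
    have h1 := key w _ hw
    have h2 := key (w / 2) (2 ^ s) (by omega)
    rw [val_fact w, val_fact (2 * 2 ^ s), val_fact (w - 2 * 2 ^ s),
      show 2 * 2 ^ s / 2 = 2 ^ s by omega, show (w - 2 * 2 ^ s) / 2 = w / 2 - 2 ^ s by omega] at h1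
    rw [← Nat.div_div_eq_div_mul, ← ih (w / 2) (by omega)]
    omega

theorem lead (γ : ℕ → ℚ) (w s : ℕ) (a : ℤ) (hγ : ∀ i : ℕ, γ i ∈ vq.F (a + w - i))
    (h0 : ∑ i ∈ range (w + 1), γ i ∉ vq.F (a + 1)) (h1 : 2 ^ s ≤ w)
    (h2 : 2 * padicValNat 2 (w / 2 ^ s) ≤ w % 2 ^ s) :
    ∑ i ∈ range (w + 1), γ i * i.choose (2 ^ s) ≠ 0 := by
  intro h
  apply h0
  rw [sum_range_succ] at h ⊢
  refine add_mem (sum_mem fun i hi => vq.anti (by have := mem_range.mp hi; omega) (hγ i)) ?_
  have h3 : γ w * w.choose (2 ^ s) ∈ vq.F (a + 1 + 2 * padicValNat 2 (w / 2 ^ s)) := by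
    rw [eq_neg_of_add_eq_zero_right h]
    refine neg_mem (sum_mem fun i hi => ?_)
    have hi := mem_range.mp hi
    have h4 := Nat.div_add_mod w (2 ^ s)
    by_cases h5 : 2 ^ s * (w / 2 ^ s) ≤ i
    · have h6 : 2 ^ s ≤ i := le_trans (Nat.le_mul_of_pos_right _ (Nat.div_pos h1 (by positivity))) h5
      have h7 : i / 2 ^ s = w / 2 ^ s := le_antisymm (Nat.div_le_div_right hi.le)
        ((Nat.le_div_iff_mul_le (by positivity)).mpr (by rwa [mul_comm]))
      refine vq.anti ?_ (vq.mul (hγ i) (b := 2 * padicValNat 2 (w / 2 ^ s)) fun _ => ?_)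
      · omega
      · rw [padicValRat.of_nat, val_choose s i h6, h7]
    · refine vq.anti ?_ (vq.mul (hγ i) (b := 0) fun _ => ?_)
      · omega
      · rw [padicValRat.of_nat]; positivity
  intro h4
  have h5 : (w.choose (2 ^ s) : ℚ) ≠ 0 := by exact_mod_cast (Nat.choose_pos h1).ne'
  have := h3 (mul_ne_zero h4 h5)
  rw [padicValRat.mul h4 h5, padicValRat.of_nat, val_choose s w h1] at this
  omega

theorem top {N : ℕ} {β : Fin N → ℕ} (hβ : Function.Injective β) (w s : ℕ)
    (hw : (w : ℤ) = Wt (fun i : {i // β i % 2 = 0} => β i / 2) +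
      Wt (fun i : {i // ¬β i % 2 = 0} => β i / 2)) (h1 : 2 ^ s ≤ w)
    (h2 : 2 * padicValNat 2 (w / 2 ^ s) ≤ w % 2 ^ s) :
    (Dt β (fun j => j) (EE 1 (Polynomial.C (1 / 2 : ℚ) * Polynomial.X))).coeff (2 ^ s) ≠ 0 := by
  set v : Polynomial ℚ := Polynomial.C (1 / 2 : ℚ) * (Polynomial.X - 1) with hv
  have hv2 : 2 * v = Polynomial.X - 1 := by
    rw [hv, ← mul_assoc, ← map_ofNat Polynomial.C, ← map_mul]; simp
  obtain ⟨S, e1, e2, e3, e4⟩ := halve (EE 1 v) _ (EE_zero _ _) (th_EE _ _)
  obtain ⟨e5, e6⟩ := split_inj (split (E2 (C (2 * v) * X) + X * E2 (C 1)))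
  rw [← e6, ← e5, hv2, map_one] at e3
  rw [← e6, map_one] at e4
  have hS : ∀ Φ : Flt (Polynomial ℚ), Φ.Bd (2 * 0) (-0) S := fun Φ => Φ.tanh_bd (fun m => by
    rw [coeff_one]
    split_ifs
    · simpa using Φ.one
    · exact zero_mem _) e4
  have hS0 : coeff 0 S = 1 := by simpa [th] using congrArg (coeff 0) e4
  set P := Dt β (fun j => j) (EE 1 v) with hP
  have hV : P ∈ (vq.poly 1).F (Ph β + w) := by
    have h2 : (2 : (Polynomial ℚ)⟦X⟧) * C (algebraMap ℚ _ (1 / 2)) = 1 := by
      rw [← map_ofNat C, ← map_mul, ← map_ofNat (algebraMap ℚ _), ← map_mul]; simp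
    have e7 : th (evn (EE 1 v)) = C (algebraMap ℚ _ (1 / 2)) *
        (C (Polynomial.X - 1) * X + X * 1 * S) * evn (EE 1 v) := by
      rw [mul_assoc, ← e3, ← mul_assoc, mul_comm _ 2, h2, one_mul]
    have hq' : ∀ k : ℕ, 0 < k → coeff k (C (algebraMap ℚ (Polynomial ℚ) (1 / 2)) *
        (C (Polynomial.X - 1) * X + X * 1 * S)) ∈ (vq.poly 1).F (-(2 * 0 + 1) * k) := by
      intro k hk
      apply Flt.half
      obtain ⟨k, rfl⟩ : ∃ j, k = j + 1 := ⟨k - 1, by omega⟩
      rw [← coeff_C_mul, ← mul_assoc, map_ofNat, h2, one_mul, map_add, mul_one, coeff_succ_X_mul,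
        coeff_succ_mul_X, coeff_C]
      split_ifs with h
      · subst h
        rw [hS0, sub_add_cancel]
        exact vq.X_mem 1
      · rw [zero_add]
        exact (vq.poly 1).anti (by push_cast; omega) (hS _ k)
    have hm : ∀ (p : Fin N → Prop) [DecidablePred p], (∀ i j, p i → p j → β i % 2 = β j % 2) →
        ∀ ν', Dt (fun i : {i // p i} => β i / 2) ν' (evn (EE 1 v)) ∈ (vq.poly 1).F
          (Ph (fun i : {i // p i} => β i / 2) - (2 * 0 + 1) *
            (∑ i : {i // p i}, ((β i / 2 : ℕ) : ℤ) - ∑ i, (ν' i : ℤ))) := by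
      intro p _ hp ν'
      refine (vq.poly 1).main (univ.sup β) _ _ ν' _ _ _ (fun i j hij => ?_) (fun i => ?_) e2 e7 hq'
      · have := hp i j i.2 j.2
        exact Subtype.ext (hβ (by omega))
      · have : β i ≤ univ.sup β := le_sup (mem_univ _)
        have := Nat.lt_two_pow_self (n := univ.sup β)
        omega
    have := (vq.poly 1).step β (fun j => j) _ _ 0 1 _ _ (by norm_num) (Flt.bd_split _ (hS _))
      (hm _ fun i j => by omega) (hm _ fun i j => by omega)
    rw [← e1] at this
    refine (vq.poly 1).anti (le_of_eq ?_) this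
    rw [Ph_split hβ, hw]; ring
  have hD : P ∈ (tq.poly (-1)).F (-w) := by
    have hc : ∀ x : ℚ, algebraMap ℚ (Polynomial ℚ) x ∈ (tq.poly (-1)).F 0 := fun x =>
      tq.C_mem _ fun _ => le_rfl
    have h3 : v ∈ (tq.poly (-1)).F (-1) := (tq.poly (-1)).mul (hc (1 / 2))
      (sub_mem (tq.X_mem _) ((tq.poly (-1)).anti (by norm_num) (tq.poly (-1)).one))
    have h4 : ∀ k : ℕ, coeff k (evn (EE 1 v)) ∈ (tq.poly (-1)).F (-k) := by
      intro k
      rw [evn, coeff_mk, EE, coeff_mul]
      refine sum_mem fun p hp => ?_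
      have hp := mem_antidiagonal.mp hp
      rw [E2, coeff_expand, coeff_rescale, coeff_rescale, coeff_exp, coeff_exp, one_pow, one_mul]
      split_ifs
      · have h5 := (tq.poly (-1)).prod (range (p.2 / 2)) (fun _ => v) (fun _ => -1) fun _ _ => h3
        rw [prod_const, card_range] at h5
        refine (tq.poly (-1)).anti ?_ ((tq.poly (-1)).mul (hc _) ((tq.poly (-1)).mul h5 (hc _)))
        simp; omega
      · simp
    have hm : ∀ (p : Fin N → Prop) [DecidablePred p],
        ∀ ν', Dt (fun i : {i // p i} => β i / 2) ν' (evn (EE 1 v)) ∈ (tq.poly (-1)).F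
          (0 - (2 * 0 + 1) * (∑ i : {i // p i}, ((β i / 2 : ℕ) : ℤ) - ∑ i, (ν' i : ℤ))) := by
      intro p _ ν'
      refine (tq.poly (-1)).anti (le_of_eq ?_) ((tq.poly (-1)).det _
        (fun i : {i // p i} => -((β i / 2 : ℕ) : ℤ)) (fun k => ν' k) fun i k => ?_)
      · rw [sum_neg_distrib]; ring
      · rw [Matrix.of_apply, coeff_X_pow_mul']
        split_ifs with h
        · exact (tq.poly (-1)).anti (by simp only at h ⊢; omega) (h4 _)
        · exact zero_mem _
    have := (tq.poly (-1)).step β (fun j => j) _ _ 0 1 _ _ (by norm_num) (Flt.bd_split _ (hS _))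
      (hm _) (hm _)
    rw [← e1] at this
    refine (tq.poly (-1)).anti (le_of_eq ?_) this
    rw [hw]; ring
  have hdeg : P.natDegree < w + 1 := by
    rw [Nat.lt_succ_iff, Polynomial.natDegree_le_iff_coeff_eq_zero]
    intro i hi
    by_contra h
    have := hD i h
    omega
  have hc : ∀ b, (Dt β (fun j => j) (EE 1 (Polynomial.C (1 / 2 : ℚ) * Polynomial.X))).coeff b =
      ∑ i ∈ range (w + 1), P.coeff i * i.choose b := by
    intro b
    have := map_Dt (Polynomial.taylorAlgHom (1 : ℚ)).toRingHom β (fun j => j) (EE 1 v)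
    rw [map_EE, ← hP, P.as_sum_range' _ hdeg, map_sum] at this
    have h3 : ∀ p, (Polynomial.taylorAlgHom (1 : ℚ)).toRingHom p = Polynomial.taylor 1 p :=
      fun _ => rfl
    have h4 : Polynomial.taylor 1 v = Polynomial.C (1 / 2 : ℚ) * Polynomial.X := by
      simp [hv, Polynomial.taylor_apply]
    rw [map_one, h3 v, h4] at this
    rw [← this, Polynomial.finset_sum_coeff]
    simp only [h3, Polynomial.taylor_monomial, map_one, Polynomial.coeff_C_mul,
      Polynomial.coeff_X_add_one_pow]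
  rw [hc]
  refine lead _ w s (Ph β) (fun i => by simpa using hV i) ?_ h1 h2
  have h3 := hc 0
  have h4 := map_Dt (Polynomial.evalRingHom (0 : ℚ)) β (fun j => j)
    (EE 1 (Polynomial.C (1 / 2 : ℚ) * Polynomial.X))
  rw [map_EE] at h4
  simp only [Nat.choose_zero_right, Nat.cast_one, mul_one] at h3
  rw [← h3, Polynomial.coeff_zero_eq_eval_zero]
  have h5 : EE (1 : ℚ) 0 = exp ℚ := by simp [EE]
  simp only [Polynomial.coe_evalRingHom, Polynomial.eval_one, Polynomial.eval_mul,
    Polynomial.eval_X, mul_zero, h5] at h4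
  rw [h4]
  intro h
  have := h (Dt_exp hβ).1
  rw [(Dt_exp hβ).2] at this
  omega

end Pool.Agent.P.MP_eccc2e_al
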