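import Mathlib

/-! A 2-adic lower bound for determinants of coefficients of exponential series. -/

namespace Pool.Agent.P.MP_eccc2e_al

open PowerSeries Finset

/-- A filtration of a ring for which `2` has degree at most `2` and odd numbers are units. -/
structure Flt (R : Type) [CommRing R] where
  F : ℤ → AddSubgroup R
  one : 1 ∈ F 0
  mul : ∀ {a b x y}, x ∈ F a → y ∈ F b → x * y ∈ F (a + b)
  anti : ∀ {a b x}, a ≤ b → x ∈ F b → x ∈ F a
  half : ∀ {a x}, 2 * x ∈ F (a + 2) → x ∈ F a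
  odd : ∀ {a} {x : R} (m : ℕ), x * (2 * m + 1) ∈ F a → x ∈ F a

section
variable {R : Type} [CommRing R] (Φ : Flt R)

theorem Flt.prod {ι : Type} (s : Finset ι) (x : ι → R) (a : ι → ℤ)
    (h : ∀ i ∈ s, x i ∈ Φ.F (a i)) : ∏ i ∈ s, x i ∈ Φ.F (∑ i ∈ s, a i) := by
  classical
  induction s using Finset.induction_on with
  | empty => simpa using Φ.one
  | insert i s hi ih =>
    rw [prod_insert hi, sum_insert hi]
    exact Φ.mul (h i (mem_insert_self _ _)) (ih fun j hj => h j (mem_insert_of_mem hj))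

theorem Flt.det {ι : Type} [Fintype ι] [DecidableEq ι] (M : Matrix ι ι R) (x y : ι → ℤ)
    (h : ∀ i k, M i k ∈ Φ.F (x i + y k)) : M.det ∈ Φ.F (∑ i, x i + ∑ i, y i) := by
  rw [Matrix.det_apply]
  refine sum_mem fun σ _ => ?_
  have := Φ.prod univ (fun k => M (σ k) k) (fun k => x (σ k) + y k) fun k _ => h _ _
  rw [sum_add_distrib, Equiv.sum_comp σ x] at this
  rcases Int.units_eq_one_or (Equiv.Perm.sign σ) with h | h <;> simp [h, this]

/-- coefficientwise bound -/
def Flt.Bd (θ c : ℤ) (A : R⟦X⟧) : Prop := ∀ m : ℕ, coeff m A ∈ Φ.F (c - θ * m)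

theorem Flt.Bd.mul {Φ : Flt R} {θ c d : ℤ} {A B : R⟦X⟧} (hA : Φ.Bd θ c A) (hB : Φ.Bd θ d B) :
    Φ.Bd θ (c + d) (A * B) := by
  intro m
  rw [coeff_mul]
  refine sum_mem fun p hp => Φ.anti (le_of_eq ?_) (Φ.mul (hA p.1) (hB p.2))
  rw [← mem_antidiagonal.mp hp]; push_cast; ring

/-- substitution of the square of the variable -/
noncomputable def E2 : R⟦X⟧ →ₐ[R] R⟦X⟧ := expand 2 two_ne_zero

/-- even part -/
noncomputable def evn (G : R⟦X⟧) : R⟦X⟧ := mk fun k => coeff (2 * k) G

/-- odd part -/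
noncomputable def od (G : R⟦X⟧) : R⟦X⟧ := mk fun k => coeff (2 * k + 1) G

theorem coeff_even (a b : R⟦X⟧) (k : ℕ) : coeff (2 * k) (E2 a + X * E2 b) = coeff k a := by
  rw [map_add, E2, coeff_expand_mul]
  rcases k with _ | k
  · simp
  · rw [show 2 * (k + 1) = 2 * k + 1 + 1 by ring, coeff_succ_X_mul,
      coeff_expand_of_not_dvd _ _ _ (by omega), add_zero]

theorem coeff_odd (a b : R⟦X⟧) (k : ℕ) : coeff (2 * k + 1) (E2 a + X * E2 b) = coeff k b := by
  rw [map_add, E2, coeff_succ_X_mul, coeff_expand_mul,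
    coeff_expand_of_not_dvd _ _ _ (by omega), zero_add]

theorem split (G : R⟦X⟧) : G = E2 (evn G) + X * E2 (od G) := by
  ext m
  obtain ⟨k, rfl | rfl⟩ := Nat.even_or_odd' m
  · rw [coeff_even, evn, coeff_mk]
  · rw [coeff_odd, od, coeff_mk]

theorem split_inj {a b a' b' : R⟦X⟧} (h : E2 a + X * E2 b = E2 a' + X * E2 b') :
    a = a' ∧ b = b' := by
  constructor
  · ext k; rw [← coeff_even a b, h, coeff_even]
  · ext k; rw [← coeff_odd a b, h, coeff_odd]

/-- Euler operator -/
noncomputable def th (G : R⟦X⟧) : R⟦X⟧ := X * derivative R G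

theorem coeff_th (G : R⟦X⟧) (m : ℕ) : coeff m (th G) = coeff m G * m := by
  rcases m with _ | m
  · simp [th]
  · rw [th, coeff_succ_X_mul, coeff_derivative]; push_cast; rfl

theorem th_mul (a b : R⟦X⟧) : th (a * b) = th a * b + a * th b := by
  simp only [th, Derivation.leibniz, smul_eq_mul]; ring

theorem E2_X : E2 (X : R⟦X⟧) = X * X := by rw [E2, expand_X, sq]

theorem th_split (a b : R⟦X⟧) :
    th (E2 a + X * E2 b) = E2 (2 * th a) + X * E2 (2 * th b + b) := by
  ext m
  have h2 : (2 : R⟦X⟧) = C 2 := by rw [map_ofNat]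
  obtain ⟨k, rfl | rfl⟩ := Nat.even_or_odd' m
  · rw [coeff_th, coeff_even, coeff_even, h2, coeff_C_mul, coeff_th]; push_cast; ring
  · rw [coeff_th, coeff_odd, coeff_odd, h2, map_add, coeff_C_mul, coeff_th]; push_cast; ring

theorem halve (G q : R⟦X⟧) (h0 : constantCoeff G = 1) (h : th G = q * G) :
    ∃ S : R⟦X⟧, G = (E2 1 + X * E2 S) * E2 (evn G) ∧ constantCoeff (evn G) = 1 ∧
      2 * th (evn G) = (evn q + X * od q * S) * evn G ∧
      2 * th S + S = od q - X * od q * (S * S) := by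
  have h1 : constantCoeff (evn G) = (1 : Rˣ) := by
    rw [← coeff_zero_eq_constantCoeff_apply, evn, coeff_mk]; simpa using h0
  have h2 := mul_invOfUnit _ _ h1
  set I := invOfUnit (evn G) 1
  have h3 : od G = od G * I * evn G := by rw [mul_assoc, mul_comm I, h2, mul_one]
  set S := od G * I
  have h4 : E2 (2 * th (evn G)) + X * E2 (2 * th (od G) + od G) =
      E2 (evn q * evn G + X * od q * od G) + X * E2 (evn q * od G + od q * evn G) := by
    rw [← th_split, ← split, h]
    conv_lhs => rw [split G, split q]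
    simp only [map_add, map_mul, E2_X]; ring
  obtain ⟨h5, h6⟩ := split_inj h4
  refine ⟨S, ?_, h1, ?_, ?_⟩
  · conv_lhs => rw [split G, h3]
    simp only [map_one, map_mul]; ring
  · rw [h5, h3]; ring
  · rw [h3, th_mul] at h6
    rw [h3] at h5
    calc 2 * th S + S = (2 * th S + S) * evn G * I := by rw [mul_assoc, h2, mul_one]
      _ = (od q - X * od q * (S * S)) * evn G * I := by
        congr 1; linear_combination h6 - S * h5
      _ = _ := by rw [mul_assoc, h2, mul_one]

theorem Flt.tanh_bd {θ : ℤ} {u S : R⟦X⟧} (hu : Φ.Bd (2 * θ) (-θ) u)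
    (h : 2 * th S + S = u - X * u * (S * S)) : Φ.Bd (2 * θ) (-θ) S := by
  intro m
  induction m using Nat.strong_induction_on with
  | _ m ih =>
  apply Φ.odd m
  have h2 : (2 : R⟦X⟧) = C 2 := by rw [map_ofNat]
  have h1 := congrArg (coeff m) h
  rw [map_add, h2, coeff_C_mul, coeff_th] at h1
  rw [show coeff m S * (2 * m + 1) = 2 * (coeff m S * m) + coeff m S by ring, h1, map_sub]
  refine sub_mem (hu m) ?_
  rcases m with _ | m
  · simp [mul_assoc]
  rw [mul_assoc X, coeff_succ_X_mul, coeff_mul]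
  refine sum_mem fun p hp => ?_
  rw [coeff_mul, mul_sum]
  refine sum_mem fun r hr => ?_
  have hp := mem_antidiagonal.mp hp
  have hr := mem_antidiagonal.mp hr
  refine Φ.anti (le_of_eq ?_) (Φ.mul (hu p.1) (Φ.mul (ih r.1 (by omega)) (ih r.2 (by omega))))
  rw [← hp, ← hr]; push_cast; ring

theorem Flt.bd_split {θ : ℤ} {S : R⟦X⟧} (hS : Φ.Bd (2 * θ) (-θ) S) :
    Φ.Bd θ 0 (E2 1 + X * E2 S) := by
  intro m
  obtain ⟨k, rfl | rfl⟩ := Nat.even_or_odd' m
  · rw [coeff_even, coeff_one]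
    split_ifs with h
    · subst h; simpa using Φ.one
    · exact zero_mem _
  · rw [coeff_odd]
    exact Φ.anti (le_of_eq (by push_cast; ring)) (hS k)

/-- the determinant -/
noncomputable def Dt {ι : Type} [Fintype ι] [DecidableEq ι] (β ν : ι → ℕ) (G : R⟦X⟧) : R :=
  (Matrix.of fun i k => coeff (β i) (X ^ ν k * G)).det

/-- weight -/
def Wt {ι : Type} [Fintype ι] (a : ι → ℕ) : ℤ :=
  ∑ i, (a i : ℤ) - ∑ j ∈ range (Fintype.card ι), (j : ℤ)

theorem Wt_nonneg {ι : Type} [Fintype ι] {a : ι → ℕ} (ha : Function.Injective a) : 0 ≤ Wt a := by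
  classical
  have hi : Function.Injective fun i => (a i : ℤ) := fun i j h => ha (Int.ofNat_injective h)
  have := sum_range_le_sum (s := univ.image fun i => (a i : ℤ)) (c := 0) (by simp)
  rw [card_image_of_injective _ hi, sum_image hi.injOn] at this
  simpa [Wt] using this

theorem coeff_shift (b v : ℕ) (B : R⟦X⟧) :
    coeff b (X ^ v * E2 B) = if v % 2 = b % 2 then coeff (b / 2) (X ^ (v / 2) * B) else 0 := by
  rw [coeff_X_pow_mul', coeff_X_pow_mul', E2, coeff_expand]
  split_ifs <;> first | omega | rfl | (congr 2; omega)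

theorem Dt_expand {ι : Type} [Fintype ι] [DecidableEq ι] (β ν : ι → ℕ) (A B : R⟦X⟧) :
    Dt β ν (A * B) = ∑ m ∈ Fintype.piFinset fun _ : ι => range (univ.sup β + 1),
      (∏ k, coeff (m k) A) * Dt β (ν + m) B := by
  have h1 : ∀ i k, coeff (β i) (X ^ ν k * (A * B)) =
      ∑ m ∈ range (univ.sup β + 1), coeff m A * coeff (β i) (X ^ (ν k + m) * B) := by
    intro i k
    have hi : β i ≤ univ.sup β := le_sup (mem_univ i)
    rw [mul_left_comm, coeff_mul, Nat.sum_antidiagonal_eq_sum_range_succ_mk]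
    rw [← sum_subset (range_subset_range.mpr (Nat.succ_le_succ hi))]
    · refine sum_congr rfl fun m hm => ?_
      have := mem_range.mp hm
      rw [coeff_X_pow_mul', coeff_X_pow_mul']
      split_ifs <;> first | omega | rfl | (congr 3; omega)
    · intro m _ hm
      rw [coeff_X_pow_mul', if_neg (by simp at hm; omega), mul_zero]
  simp only [Dt, Matrix.det_apply, Matrix.of_apply, h1, prod_univ_sum, smul_sum, Pi.add_apply,
    mul_sum]
  rw [sum_comm]
  refine sum_congr rfl fun m _ => sum_congr rfl fun σ _ => ?_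
  rw [prod_mul_distrib, mul_smul_comm]

theorem Flt.step {ι : Type} [Fintype ι] [DecidableEq ι] (β ν : ι → ℕ) (A B : R⟦X⟧)
    (θ κ c₀ c₁ : ℤ) (hκ : 0 ≤ κ) (hA : Φ.Bd θ 0 A)
    (h₀ : ∀ ν', Dt (fun i : {i // β i % 2 = 0} => β i / 2) ν' B ∈
      Φ.F (c₀ - (2 * θ + κ) * (∑ i : {i // β i % 2 = 0}, ((β i / 2 : ℕ) : ℤ) - ∑ i, (ν' i : ℤ))))
    (h₁ : ∀ ν', Dt (fun i : {i // ¬β i % 2 = 0} => β i / 2) ν' B ∈
      Φ.F (c₁ - (2 * θ + κ) * (∑ i : {i // ¬β i % 2 = 0}, ((β i / 2 : ℕ) : ℤ) - ∑ i, (ν' i : ℤ)))) :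
    Dt β ν (A * E2 B) ∈ Φ.F (c₀ + c₁ - κ * (Wt (fun i : {i // β i % 2 = 0} => β i / 2) +
      Wt (fun i : {i // ¬β i % 2 = 0} => β i / 2)) - θ * (∑ i, (β i : ℤ) - ∑ i, (ν i : ℤ))) := by
  rw [Dt_expand]
  refine sum_mem fun m _ => ?_
  by_cases hz : Dt β (ν + m) (E2 B) = 0
  · rw [hz, mul_zero]; exact zero_mem _
  obtain ⟨σ, hσ⟩ : ∃ σ : Equiv.Perm ι, ∀ k, (ν + m) k % 2 = β (σ k) % 2 := by
    rw [Dt, Matrix.det_apply] at hz
    obtain ⟨σ, -, h⟩ := exists_ne_zero_of_sum_ne_zero hz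
    refine ⟨σ, fun k => ?_⟩
    by_contra hk
    apply h
    rw [prod_eq_zero (mem_univ k), smul_zero]
    rw [Matrix.of_apply, coeff_shift, if_neg hk]
  set μ : ι → ℕ := fun k => (ν + m) (σ.symm k) with hμ
  have hμ2 : ∀ k, μ k % 2 = β k % 2 := fun k => by simpa [hμ] using hσ (σ.symm k)
  have e1 : Dt β μ (E2 B) = Equiv.Perm.sign σ.symm * Dt β (ν + m) (E2 B) := by
    rw [Dt, Dt, ← Matrix.det_permute']; rfl
  have e2 : Dt β μ (E2 B) = Dt (fun i : {i // β i % 2 = 0} => β i / 2) (fun i => μ i / 2) B *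
      Dt (fun i : {i // ¬β i % 2 = 0} => β i / 2) (fun i => μ i / 2) B := by
    rw [Dt, Matrix.twoBlockTriangular_det _ fun i => β i % 2 = 0]
    · congr 1
      · rw [Dt]; congr 1; ext i k
        have := hμ2 k
        have := i.2
        have := k.2
        simp only [Matrix.toSquareBlockProp_def, Matrix.of_apply]
        rw [coeff_shift, if_pos (by omega)]
      · rw [Dt]; congr 1; ext i k
        have := hμ2 k
        have := i.2
        have := k.2
        simp only [Matrix.toSquareBlockProp_def, Matrix.of_apply]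
        rw [coeff_shift, if_pos (by omega)]
    · intro i hi k hk
      have := hμ2 k
      rw [Matrix.of_apply, coeff_shift, if_neg (by omega)]
  have hne : Dt β μ (E2 B) ≠ 0 := by
    rw [e1]
    rcases Int.units_eq_one_or (Equiv.Perm.sign σ.symm) with h | h <;> simpa [h] using hz
  have hinj : Function.Injective μ := by
    intro i j hij
    by_contra h
    exact hne (Matrix.det_zero_of_column_eq h fun k => by simp [hij])
  have w0 := Wt_nonneg (a := fun i : {i // β i % 2 = 0} => μ i / 2) fun i j h => by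
    have := hμ2 i
    have := hμ2 j
    have := i.2
    have := j.2
    exact Subtype.ext (hinj (by simp only at h; omega))
  have w1 := Wt_nonneg (a := fun i : {i // ¬β i % 2 = 0} => μ i / 2) fun i j h => by
    have := hμ2 i
    have := hμ2 j
    have := i.2
    have := j.2
    exact Subtype.ext (hinj (by simp only at h; omega))
  have s1 : ∑ i, (μ i : ℤ) = ∑ i, (ν i : ℤ) + ∑ i, (m i : ℤ) := by
    rw [← sum_add_distrib, ← Equiv.sum_comp σ]
    simp [hμ]
  have s2 : ∑ i, (β i : ℤ) - ∑ i, (μ i : ℤ) =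
      2 * (∑ i, ((β i / 2 : ℕ) : ℤ) - ∑ i, ((μ i / 2 : ℕ) : ℤ)) := by
    rw [← sum_sub_distrib, ← sum_sub_distrib, mul_sum]
    refine sum_congr rfl fun i _ => ?_
    have := hμ2 i
    omega
  rw [← Fintype.sum_subtype_add_sum_subtype (fun i => β i % 2 = 0) fun i => ((β i / 2 : ℕ) : ℤ),
    ← Fintype.sum_subtype_add_sum_subtype (fun i => β i % 2 = 0) fun i => ((μ i / 2 : ℕ) : ℤ)] at s2
  have key := Φ.mul (Φ.prod univ _ _ fun k _ => hA (m k)) (Φ.mul (h₀ fun i => μ i / 2)
    (h₁ fun i => μ i / 2))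
  rw [← e2, e1] at key
  have key2 : ∀ a x y, x * (((Equiv.Perm.sign σ.symm : ℤ) : R) * y) ∈ Φ.F a → x * y ∈ Φ.F a := by
    intro a x y hxy
    rcases Int.units_eq_one_or (Equiv.Perm.sign σ.symm) with h | h
    · simpa only [h, Units.val_one, Int.cast_one, one_mul] using hxy
    · simpa only [h, Units.val_neg, Units.val_one, Int.cast_neg, Int.cast_one, neg_mul, one_mul,
        mul_neg, neg_mem_iff] using hxy
  refine Φ.anti ?_ (key2 _ _ _ key)
  simp only [Wt, zero_sub, sum_neg_distrib, ← mul_sum] at w0 w1 ⊢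
  have : ∑ i, (β i : ℤ) = _ := eq_add_of_sub_eq s2
  rw [this, s1]
  nlinarith [mul_nonneg hκ w0, mul_nonneg hκ w1]

/-- twice the 2-adic valuation of the Vandermonde determinant over the factorials -/
def Ph {ι : Type} [Fintype ι] (β : ι → ℕ) : ℤ :=
  ∑ i, ∑ j, (padicValInt 2 ((β i : ℤ) - β j) : ℤ) - 2 * ∑ i, (padicValNat 2 (β i).factorial : ℤ)

theorem val_fact (m : ℕ) :
    padicValNat 2 m.factorial = padicValNat 2 (m / 2).factorial + m / 2 := by
  rw [← padicValNat_factorial_mul, padicValNat_mul_div_factorial]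

theorem Ph_half {ι : Type} [Fintype ι] {β : ι → ℕ} (hβ : Function.Injective β)
    (h : ∀ i j, β i % 2 = β j % 2) : Ph β = Ph (fun i => β i / 2) - 2 * Wt fun i => β i / 2 := by
  classical
  have h1 : ∀ i j, (padicValInt 2 ((β i : ℤ) - β j) : ℤ) =
      padicValInt 2 (((β i / 2 : ℕ) : ℤ) - (β j / 2 : ℕ)) + 1 - if i = j then 1 else 0 := by
    intro i j
    split_ifs with hij
    · simp [hij]
    have h2 := h i j
    have h3 := hβ.ne hij
    rw [show (β i : ℤ) - β j = 2 * (((β i / 2 : ℕ) : ℤ) - (β j / 2 : ℕ)) by omega,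
      padicValInt.mul (by norm_num) (by omega)]
    have : padicValInt 2 2 = 1 := padicValInt_self
    rw [this]; push_cast; ring
  have h2 : ∀ N : ℕ, 2 * ∑ j ∈ range N, (j : ℤ) = N * N - N := by
    intro N
    induction N with
    | zero => simp
    | succ N ih => rw [sum_range_succ, mul_add, ih]; push_cast; ring
  simp only [Ph, Wt, h1, sum_sub_distrib, sum_add_distrib, sum_ite_eq, mem_univ, if_true,
    sum_const, card_univ, nsmul_eq_mul, mul_one]
  rw [sum_congr rfl fun i _ => congrArg Nat.cast (val_fact (β i))]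
  simp only [Nat.cast_add, sum_add_distrib]
  linear_combination -h2 (Fintype.card ι)

theorem Ph_split {ι : Type} [Fintype ι] {β : ι → ℕ} (hβ : Function.Injective β) :
    Ph β = Ph (fun i : {i // β i % 2 = 0} => β i / 2) + Ph (fun i : {i // ¬β i % 2 = 0} => β i / 2) -
      2 * (Wt (fun i : {i // β i % 2 = 0} => β i / 2) +
        Wt (fun i : {i // ¬β i % 2 = 0} => β i / 2)) := by
  have h0 := Ph_half (β := fun i : {i // β i % 2 = 0} => β i) (hβ.comp Subtype.val_injective)
    fun i j => by have := i.2; have := j.2; omega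
  have h1 := Ph_half (β := fun i : {i // ¬β i % 2 = 0} => β i) (hβ.comp Subtype.val_injective)
    fun i j => by have := i.2; have := j.2; omega
  have h2 : Ph β = Ph (fun i : {i // β i % 2 = 0} => β i) +
      Ph (fun i : {i // ¬β i % 2 = 0} => β i) := by
    have h3 : ∀ (i : {i // β i % 2 = 0}) (j : {i // ¬β i % 2 = 0}),
        padicValInt 2 ((β i : ℤ) - β j) = 0 ∧ padicValInt 2 ((β j : ℤ) - β i) = 0 := by
      intro i j
      have := i.2
      have := j.2
      constructor <;> exact padicValInt.eq_zero_of_not_dvd (by omega)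
    simp only [Ph, ← Fintype.sum_subtype_add_sum_subtype (fun i => β i % 2 = 0), sum_add_distrib,
      (h3 _ _).1, (h3 _ _).2]
    simp; ring
  rw [h2, h0, h1]; ring

theorem Flt.bd_X : Φ.Bd 0 0 X ∧ ∀ θ, Φ.Bd θ θ X := by
  refine ⟨fun m => ?_, fun θ m => ?_⟩ <;> rw [coeff_X] <;> split_ifs with h
  · simpa using Φ.one
  · exact zero_mem _
  · subst h; simpa using Φ.one
  · exact zero_mem _

theorem Flt.main [Algebra ℚ R] (M : ℕ) : ∀ (ι : Type) [Fintype ι] [DecidableEq ι] (β ν : ι → ℕ)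
    (G q : R⟦X⟧) (θ : ℤ), Function.Injective β → (∀ i, β i < 2 ^ M) → constantCoeff G = 1 →
    th G = q * G → (∀ k : ℕ, 0 < k → coeff k q ∈ Φ.F (-θ * k)) →
    Dt β ν G ∈ Φ.F (Ph β - θ * (∑ i, (β i : ℤ) - ∑ i, (ν i : ℤ))) := by
  induction M with
  | zero =>
    intro ι _ _ β ν G q θ _ hβ h0 _ _
    have hβ : ∀ i, β i = 0 := fun i => by simpa using hβ i
    refine Φ.anti (le_of_eq ?_) (Φ.det _ (fun _ => 0) (fun k => θ * ν k) fun i k => ?_)
    · simp [Ph, hβ, mul_sum]
    · rw [Matrix.of_apply, hβ, coeff_X_pow_mul']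
      split_ifs with h
      · simpa [Nat.le_zero.mp h, h0] using Φ.one
      · exact zero_mem _
  | succ M ih =>
    intro ι _ _ β ν G q θ hβ hM h0 h hq
    obtain ⟨S, e1, e2, e3, e4⟩ := halve G q h0 h
    have hu : Φ.Bd (2 * θ) (-θ) (od q) := fun k => by
      rw [od, coeff_mk]
      exact Φ.anti (le_of_eq (by push_cast; ring)) (hq _ (by omega))
    have hS := Φ.tanh_bd hu e4
    have h2 : (2 : R⟦X⟧) * C (algebraMap ℚ R (1 / 2)) = 1 := by
      rw [← map_ofNat C, ← map_mul, ← map_ofNat (algebraMap ℚ R), ← map_mul]; simp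
    have e5 : th (evn G) = C (algebraMap ℚ R (1 / 2)) * (evn q + X * od q * S) * evn G := by
      rw [mul_assoc, ← e3, ← mul_assoc, mul_comm _ 2, h2, one_mul]
    have hq' : ∀ k : ℕ, 0 < k → coeff k (C (algebraMap ℚ R (1 / 2)) * (evn q + X * od q * S)) ∈
        Φ.F (-(2 * θ + 2) * k) := by
      intro k hk
      apply Φ.half
      rw [← coeff_C_mul, ← mul_assoc, map_ofNat, h2, one_mul, map_add]
      refine Φ.anti (b := -θ * (2 * k : ℕ)) (by push_cast; nlinarith) (add_mem ?_ ?_)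
      · rw [evn, coeff_mk]; exact hq _ (by omega)
      · exact Φ.anti (le_of_eq (by push_cast; ring)) ((((Φ.bd_X.2 _).mul hu).mul hS) k)
    rw [e1, Ph_split hβ]
    refine Φ.step β ν _ _ θ 2 _ _ (by norm_num) (Φ.bd_split hS) (fun ν' => ?_) fun ν' => ?_
    · refine ih _ _ ν' _ _ _ (fun i j hij => ?_) (fun i => ?_) e2 e5 hq'
      · have := i.2
        have := j.2
        exact Subtype.ext (hβ (by omega))
      · have := hM i
        rw [pow_succ] at this; omega
    · refine ih _ _ ν' _ _ _ (fun i j hij => ?_) (fun i => ?_) e2 e5 hq'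
      · have := i.2
        have := j.2
        exact Subtype.ext (hβ (by omega))
      · have := hM i
        rw [pow_succ] at this; omega

end

end Pool.Agent.P.MP_eccc2e_al
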